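import Pool.Agent.K1H29.RD.Lim
import Pool.Agent.K1H29.SH.Main

/-!
# From the Fourier side to smooth periodic solutions of the restricted equations
-/

open Set ComplexConjugate Filter Topology MeasureTheory
open scoped ContDiff

namespace Pool.Agent.K1H29.RD

open Pool.Agent.H356R3.NS
open Pool.Agent.K1H29.SH (FSol ee_eq_ex GS_zero nn nn_nonneg Gal en)

lemma four_eq_four (f : R3 → ℝ) (k : K) : four f k = SH.four f k := rfl

/-- Solutions on the Fourier side. -/
structure FS (Λ : Set K) (m : K → ℝ) (V : K → C3) (u : Fam) : Prop where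
  cf : CF u
  rd : ∀ p : ℕ, ∃ b : K → ℝ, Summable b ∧ ∀ k t, pw k ^ p * ‖u k t‖ ≤ b k
  sym : SymF u
  div : ∀ k t, dt k (u k t) = 0
  init : ∀ k, u k 0 = V k
  der : ∀ k ∈ Λ, ∀ t, 0 < t → HasDerivAt (u k) (-(m k) • u k t + Bt u k t) t
  zero : ∀ k, k ∉ Λ → ∀ t, u k t = 0

variable {Λ : Set K} {V : K → C3} {u : Fam} {ν : ℝ}

lemma FS.rdi {m : K → ℝ} (h : FS Λ m V u) (i : Fin 3) : RD (cf' u i) := by
  intro p
  obtain ⟨b, hb, hb'⟩ := h.rd p
  refine ⟨b, hb, fun k t => le_trans ?_ (hb' k t)⟩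
  exact mul_le_mul_of_nonneg_left (norm_le_pi_norm _ i) (by have := pw_pos k; positivity)

/-- the time derivative -/
noncomputable def dL (Λ : Set K) (ν : ℝ) (u : Fam) (i : Fin 3) : SFam := fun k t =>
  Λ.indicator (1 : K → ℂ) k * dU (4 * Real.pi ^ 2 * ν) u i k t

lemma dL_mem {k : K} (hk : k ∈ Λ) (i : Fin 3) (t : ℝ) :
    dL Λ ν u i k t = dU (4 * Real.pi ^ 2 * ν) u i k t := by
  unfold dL
  rw [indicator_of_mem hk, Pi.one_apply, one_mul]

lemma FS.deri (h : FS Λ (fun k => 4 * Real.pi ^ 2 * ν * Pool.Agent.H356R3.NS.sq k) V u) (i : Fin 3)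
    (k : K) {t : ℝ} (ht : 0 < t) : HasDerivAt (cf' u i k) (dL Λ ν u i k t) t := by
  by_cases hk : k ∈ Λ
  · have h5 := (hasDerivAt_pi.1 (h.der k hk t ht)) i
    refine h5.congr_deriv ?_
    rw [dL_mem hk]
    unfold dU Bt Bf cvv cv at'
    simp only [Pi.add_apply, Pi.smul_apply, Complex.real_smul]
    push_cast
    ring
  · have e1 : cf' u i k = fun _ => 0 := by
      funext s
      unfold cf'
      rw [h.zero k hk s]; rfl
    rw [e1]
    unfold dL
    rw [indicator_of_notMem hk, zero_mul]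
    exact hasDerivAt_const _ _

lemma TT_dL {n : ℕ} (h : ∀ i, TT n (cf' u i)) (i : Fin 3) : TT n (dL Λ ν u i) := by
  unfold dL
  refine TT.mul (C := 1) (r := 0) (fun k => ?_) (TT_dU h i)
  rw [pow_zero, mul_one]
  by_cases hk : k ∈ Λ
  · rw [indicator_of_mem hk]; simp
  · rw [indicator_of_notMem hk]; simp

lemma FS.tt (h : FS Λ (fun k => 4 * Real.pi ^ 2 * ν * Pool.Agent.H356R3.NS.sq k) V u) (n : ℕ) :
    ∀ i : Fin 3, TT n (cf' u i) := by
  have hc : ∀ i k, Continuous fun t => u k t i := fun i k => (continuous_apply i).comp (h.cf k)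
  induction n with
  | zero => intro i; exact ⟨h.rdi i, hc i⟩
  | succ n ih =>
    intro i
    exact ⟨h.rdi i, hc i, dL Λ ν u i, fun k t ht => h.deri i k ht, TT_dL ih i⟩

/-- the Fourier coefficients of the real part of a Fourier series -/
lemma four_re {c : K → ℂ} (hc : Summable c) (k : K) :
    four (fun y => (∑' l, c l * ex l y).re) k = (c k + star (c (-k))) / 2 := by
  have hc' : Summable fun l => star (c (-l)) := by
    refine Summable.of_norm ?_
    simp only [norm_star]
    exact ((Equiv.neg K).summable_iff (f := fun k => ‖c k‖)).2 hc.norm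
  set c2 : K → ℂ := fun l => (c l + star (c (-l))) / 2 with hc2
  have hs2 : Summable c2 := (hc.add hc').div_const 2
  have hsym : ∀ l, c2 (-l) = star (c2 l) := by
    intro l
    simp only [hc2, neg_neg]
    rw [star_div₀, star_add, star_star]
    have : star (2 : ℂ) = 2 := by
      rw [Complex.star_def]; exact Complex.conj_ofReal 2
    rw [this, add_comm]
  have he : ∀ y : E3, (∑' l, c l * ex l y).re = (∑' l, c2 l * ex l y).re := by
    intro y
    have hse : ∀ {d : K → ℂ}, Summable d → Summable fun l => d l * ex l y := fun {d} hd =>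
      Summable.of_norm (by simpa only [norm_mul, norm_ex, mul_one] using hd.norm)
    have h1 : ∑' l, star (c (-l)) * ex l y = star (∑' l, c l * ex l y) := by
      rw [tsum_star, ← (Equiv.neg K).tsum_eq]
      refine tsum_congr fun l => ?_
      simp only [Equiv.neg_apply, neg_neg, star_mul', ex_neg]
    have h2 : ∑' l, c2 l * ex l y = (∑' l, c l * ex l y + star (∑' l, c l * ex l y)) / 2 := by
      rw [← h1, ← (hse hc).tsum_add (hse hc'), ← tsum_div_const]
      refine tsum_congr fun l => ?_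
      simp only [hc2]
      ring
    rw [h2]
    simp
  simp only [he]
  exact SH.four_series hs2 hsym k

theorem FS.physical (hΛ : ∀ k ∈ Λ, -k ∈ Λ)
    (h : FS Λ (fun k => 4 * Real.pi ^ 2 * ν * Pool.Agent.H356R3.NS.sq k) V u)
    {v : R3 → R3} (hv : ∀ x i, (∑' k, V k i * ex k x).re = v x i) :
    Restricted Λ ν v (fun t x i => (GS 0 (cf' u i) t x).re) (fun t x => (GS 0 (PF u) t x).re) := by
  have hT : ∀ n i, TT n (cf' u i) := fun n i => h.tt n i
  have hP : ∀ n, TT n (PF u) := fun n => TT_PF (hT n)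
  have hdT : ∀ n i, TT n (dL Λ ν u i) := fun n i => TT_dL (hT n) i
  have hsym : ∀ i k t, cf' u i (-k) t = star (cf' u i k t) := fun i k t => h.sym t k i
  have hre : ∀ i t x, (GS 0 (cf' u i) t x).im = 0 := fun i t x => SF_real (hsym i) _
  refine ⟨?_, ?_, ?_, ?_, ?_, ?_, ?_, ?_⟩
  · rw [contDiffOn_pi]
    intro i
    exact GS_smooth_re 0 fun n => hT n i
  · exact GS_smooth_re 0 hP
  · intro t _ x j
    funext i
    simp only [GS_periodic]
  · intro t _ x j
    simp only [GS_periodic]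
  · intro t ht x
    have e1 : ∀ i, pd i (fun y => (GS 0 (cf' u i) t y).re) x = (GS 0 (dS i (cf' u i)) t x).re :=
      fun i => pd_GS' 0 (hT 1 i) ht i x
    simp only [e1]
    rw [← Complex.re_sum]
    have : ∑ i, GS 0 (dS i (cf' u i)) t x = 0 := by
      unfold GS
      rw [← SF_sum fun i => ((hT 0 i).dS i).rd]
      have h0 : (fun k t => ∑ j, dS j (cf' u j) k t) = fun _ _ => (0 : ℂ) := by
        funext k t
        have := h.div k t
        unfold dt at this
        unfold dS fj cf'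
        calc ∑ j, 2 * Real.pi * Complex.I * (k j : ℂ) * u k t j
            = 2 * Real.pi * Complex.I * ∑ j, (k j : ℂ) * u k t j := by
              rw [Finset.mul_sum]; exact Finset.sum_congr rfl fun j _ => by ring
          _ = 0 := by rw [this, mul_zero]
      rw [h0]
      simp [SF]
    rw [this]; rfl
  · intro t ht k hk i
    have hcs : Summable fun k => cf' u i k t := by
      obtain ⟨b, hb, hb'⟩ := (h.rdi i).summ
      exact Summable.of_norm_bounded hb fun k => hb' k t
    have h1 := SH.four_series hcs (fun k => hsym i k t) k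
    simp only [GS_zero]
    refine h1.trans ?_
    unfold cf'
    rw [h.zero k hk t]; rfl
  · intro t ht k hk i
    set rs : SFam := fun k t => ((dL Λ ν u i k t + ∑ j, cvv (cf' u j) (dS j (cf' u i)) k t)
      + (-ν : ℂ) * ∑ j, dS j (dS j (cf' u i)) k t) + dS i (PF u) k t with hrs
    have hU : ∀ i, RD (cf' u i) := fun i => (hT 0 i).rd
    have hdS : ∀ j, RD (dS j (cf' u i)) := fun j => ((hT 0 i).dS j).rd
    have hdd : ∀ j, RD (dS j (dS j (cf' u i))) := fun j => (((hT 0 i).dS j).dS j).rd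
    have hdP : RD (dS i (PF u)) := ((hP 0).dS i).rd
    have hcv : ∀ j, RD (cvv (cf' u j) (dS j (cf' u i))) := fun j => (hU j).conv (hdS j)
    have hsum1 : RD fun k t => ∑ j, cvv (cf' u j) (dS j (cf' u i)) k t :=
      (TT.sum (n := 0) Finset.univ fun j _ => (hT 0 j).conv ((hT 0 i).dS j)).rd
    have hsum2 : RD fun k t => ∑ j, dS j (dS j (cf' u i)) k t :=
      (TT.sum (n := 0) Finset.univ fun j _ => ((hT 0 i).dS j).dS j).rd
    have hone : ∀ (z : ℂ) {c : SFam}, RD c → RD fun k t => z * c k t := fun z c hc =>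
      hc.mul (C := ‖z‖) (r := 0) (p := fun _ => z) fun k => by simp
    have hrs1 : RD fun k t => dL Λ ν u i k t + ∑ j, cvv (cf' u j) (dS j (cf' u i)) k t :=
      (hdT 0 i).rd.add hsum1
    have hrs2 : RD fun k t => (dL Λ ν u i k t + ∑ j, cvv (cf' u j) (dS j (cf' u i)) k t)
        + (-ν : ℂ) * ∑ j, dS j (dS j (cf' u i)) k t := hrs1.add (hone _ hsum2)
    have hrsd : RD rs := hrs2.add hdP
    have hzero : ∀ l ∈ Λ, rs l t = 0 := by
      intro l hl
      have h6 := fourier_eq (ν := ν) hU h.div i l t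
      simp only [hrs, dL_mem hl]
      linear_combination h6
    have hfun : (fun x => derivWithin (fun s => (GS 0 (cf' u i) s x).re) (Ici 0) t
        + ∑ j, (GS 0 (cf' u j) t x).re * pd j (fun y => (GS 0 (cf' u i) t y).re) x
        - ν * ∑ j, pd j (pd j fun y => (GS 0 (cf' u i) t y).re) x
        + pd i (fun x => (GS 0 (PF u) t x).re) x) = fun x => (∑' l, rs l t * ex l x).re := by
      funext x
      have hd0 : HasDerivWithinAt (fun s => (GS 0 (cf' u i) s x).re)
          (GS 0 (dL Λ ν u i) t x + ∑ j, GS 0 (dS j (cf' u i)) t x * (-((0 : E3) j) : ℝ)).re (Ici 0) t := by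
        have h1 := GS_dt 0 (hT 1 i) (fun k t ht => h.deri i k ht) (hdT 0 i) ht x
        exact Complex.reCLM.hasFDerivAt.comp_hasDerivWithinAt t h1
      have hdw := hd0.derivWithin (uniqueDiffOn_Ici (0 : ℝ) t ht)
      have e1 : ∀ j, pd j (fun y => (GS 0 (cf' u i) t y).re) = fun x => (GS 0 (dS j (cf' u i)) t x).re :=
        fun j => funext fun x => pd_GS' 0 (hT 1 i) ht j x
      have e2 : ∀ j, pd j (fun x => (GS 0 (dS j (cf' u i)) t x).re) x = (GS 0 (dS j (dS j (cf' u i))) t x).re :=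
        fun j => pd_GS' 0 ((hT 1 i).dS j) ht j x
      have e3 : pd i (fun x => (GS 0 (PF u) t x).re) x = (GS 0 (dS i (PF u)) t x).re :=
        pd_GS' 0 (hP 1) ht i x
      rw [hdw]
      simp only [e1, e2, e3]
      have key : GS 0 (dL Λ ν u i) t x + ∑ j, GS 0 (cf' u j) t x * GS 0 (dS j (cf' u i)) t x
          + (-ν : ℂ) * ∑ j, GS 0 (dS j (dS j (cf' u i))) t x + GS 0 (dS i (PF u)) t x
          = ∑' l, rs l t * ex l x := by
        rw [← GS_zero rs]
        unfold GS
        have m1 : ∀ j, SF (cf' u j) (t, x - t • 0) * SF (dS j (cf' u i)) (t, x - t • 0)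
            = SF (cvv (cf' u j) (dS j (cf' u i))) (t, x - t • 0) := fun j => SF_mul (hU j) (hdS j) _
        simp only [m1]
        rw [← SF_sum hcv, ← SF_sum hdd, ← SF_const_mul, ← SF_add (hdT 0 i).rd hsum1,
          ← SF_add hrs1 (hone _ hsum2), ← SF_add hrs2 hdP]
      have keyre := congrArg Complex.re key
      simp only [Complex.add_re, Complex.re_sum, Complex.mul_re, hre, Complex.ofReal_re, Complex.ofReal_im,
        Complex.neg_re, Complex.neg_im, Pi.zero_apply, neg_zero] at keyre ⊢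
      have e5 : ∑ j : Fin 3, ((GS 0 (dS j (cf' u i)) t x).re * 0 - (GS 0 (dS j (cf' u i)) t x).im * 0) = 0 := by
        simp
      rw [e5]
      simp only [zero_mul, sub_zero] at keyre
      linarith
    rw [hfun]
    have hcs : Summable fun k => rs k t := by
      obtain ⟨b, hb, hb'⟩ := hrsd.summ
      exact Summable.of_norm_bounded hb fun k => hb' k t
    rw [four_re hcs k, hzero k hk, hzero (-k) (hΛ k hk)]
    simp
  · funext x i
    rw [← hv x i]
    show (GS 0 (cf' u i) 0 x).re = _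
    rw [GS_zero]
    simp only [cf', h.init]

/-- **Global regularity** for planar sets of frequencies. -/
theorem planar_regular (hP : Planar Λ) (h0 : (0 : K) ∉ Λ) (hΛ : ∀ k ∈ Λ, -k ∈ Λ) (hν : 0 < ν)
    {v : R3 → R3} (hv : Data Λ v) : ∃ u p, Restricted Λ ν v u p := by
  obtain ⟨C, hC⟩ := hP.c
  have hv' : SH.Data v := ⟨hv.smooth, hv.periodic, hv.divFree⟩
  set m : K → ℝ := fun k => 4 * Real.pi ^ 2 * ν * Pool.Agent.H356R3.NS.sq k with hm
  have hpi := Real.pi_pos
  have hm0 : ∀ k, 0 ≤ m k := fun k => by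
    have := sq_nonneg' k
    positivity
  have hme : ∀ k, m (-k) = m k := fun k => by simp only [hm, sq_neg]
  have hmn : ∀ k, (4 * Real.pi ^ 2 * ν) * nn k ^ 2 ≤ m k := fun k => by
    simp only [hm]
    apply mul_le_mul_of_nonneg_left _ (by positivity)
    have := pow_le_pow_left₀ (nn_nonneg k) (SH.nn_le_nk k) 2
    rwa [nk_sq] at this
  have hu := unif (m := m) (V := fc v) hC h0 (m0 := 4 * Real.pi ^ 2 * ν) (by positivity) hmn hv'.hV
  have hdiv' : ∀ k, dt k (fc v k) = 0 :=
    fun k => fc_div (hv.smooth.of_le (by norm_cast)) hv.periodic hv.divFree k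
  have hVL : ∀ k, k ∉ Λ → fc v k = 0 := by
    intro k hk
    funext i
    exact hv.spectrum k hk i
  have hbd' : ∀ p : ℕ, ∃ b : K → ℝ, Summable b ∧ ∀ (B : Finset K) (T : ℝ) (u : ℝ → K → C3),
      (∀ k ∈ B, k ∈ Λ) → 0 ≤ T → Gal m B T (fc v) u → ∀ t ∈ Icc 0 T, ∀ k, pw k ^ p * ‖u t k‖ ≤ b k := by
    intro p
    obtain ⟨b, hb, hb'⟩ := SH.dom_of_bound (P := fun w => ∃ (B : Finset K) (T : ℝ) (u : ℝ → K → C3),
      (∀ k ∈ B, k ∈ Λ) ∧ 0 ≤ T ∧ Gal m B T (fc v) u ∧ ∃ t ∈ Icc 0 T, u t = w) (fun σ => by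
        obtain ⟨C, hC⟩ := hu σ
        refine ⟨C, ?_⟩
        rintro w ⟨B, T, u, hB, hT, hu, t, ht, rfl⟩ k
        have h1 := hC B T u hB hT hu t ht
        refine le_trans ?_ h1
        by_cases hk : k ∈ B
        · calc nn k ^ (2 * σ) * ‖u t k‖ ^ 2 ≤ nn k ^ (2 * σ) * en (u t k) :=
                mul_le_mul_of_nonneg_left (SH.norm_sq_le_en _) (pow_nonneg (nn_nonneg k) _)
            _ ≤ _ := Finset.single_le_sum (f := fun k => nn k ^ (2 * σ) * en (u t k))
                (fun k _ => mul_nonneg (pow_nonneg (nn_nonneg k) _) (SH.en_nonneg _)) hk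
        · rw [hu.supp t ht k hk, norm_zero]
          have := Es_nonneg σ B (u t)
          simpa using this) p
    exact ⟨b, hb, fun B T u hB hT hu t ht k => hb' _ ⟨B, T, u, hB, hT, hu, t, ht, rfl⟩ k⟩
  obtain ⟨u, h1, h2, h3, h4, h5, h6, h7⟩ := exists_limit hΛ hm0 hme (fc_sym v) hdiv' hVL hbd'
  have hF : FS Λ m (fc v) u := ⟨h1, h2, h3, h4, h5, h6, h7⟩
  exact ⟨_, _, hF.physical hΛ hv'.inv⟩

end Pool.Agent.K1H29.RD
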