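import Pool.Agent.K1H29.RD.Flux3

/-!
# Uniform bounds for the Sobolev norms of the Galerkin trajectories
-/

open MeasureTheory Set ComplexConjugate

namespace Pool.Agent.K1H29.RD

open Pool.Agent.H356R3.NS (K E3 C3 Q3 ex ex_neg ex_cont norm_ex dt Bf Sym ex_int ex_add nk nk_sq)
open Pool.Agent.K1H29.SH

/-- the Sobolev norms (squared) -/
noncomputable def Es (s : ℕ) (B : Finset K) (u : K → C3) : ℝ := ∑ k ∈ B, nn k ^ (2 * s) * en (u k)

lemma Es_nonneg (s : ℕ) (B : Finset K) (u : K → C3) : 0 ≤ Es s B u :=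
  Finset.sum_nonneg fun k _ => mul_nonneg (pow_nonneg (nn_nonneg k) _) (en_nonneg _)

/-- The planar inequality with a nonnegative constant. -/
def PlanarC (Λ : Set K) (C : ℝ) : Prop := 0 ≤ C ∧ ∀ (B : Finset K) (a : K → ℂ), (∀ k ∈ B, k ∈ Λ) →
    ∫ x in Q3, ‖∑ k ∈ B, a k * ex k x‖ ^ 3 ≤
      C * (∑ k ∈ B, ‖a k‖ ^ 2) * √(∑ k ∈ B, nk k ^ 2 * ‖a k‖ ^ 2)

lemma Planar.c {Λ : Set K} (h : Planar Λ) : ∃ C, PlanarC Λ C := by
  obtain ⟨C, hC⟩ := h
  refine ⟨|C|, abs_nonneg _, fun B a hB => (hC B a hB).trans ?_⟩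
  have h1 : ∀ k : K, (∑ i, (k i : ℝ) ^ 2) = nk k ^ 2 := fun k => by rw [nk_sq]; rfl
  simp only [h1]
  apply mul_le_mul_of_nonneg_right _ (Real.sqrt_nonneg _)
  exact mul_le_mul_of_nonneg_right (le_abs_self C) (Finset.sum_nonneg fun _ _ => by positivity)

variable {Λ : Set K} {CP : ℝ} {B : Finset K}

lemma PlanarC.l3 (hP : PlanarC Λ CP) (hB : ∀ k ∈ B, k ∈ Λ) (s : ℕ) (u : K → C3) :
    ∫ x in Q3, ‖ts B (fun k => nn k ^ s * ‖u k‖) x‖ ^ 3 ≤ 2 * CP * Es s B u * √(Es (s + 1) B u) := by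
  have h1 := hP.2 B (fun k => ((nn k ^ s * ‖u k‖ : ℝ) : ℂ)) hB
  have hn : ∀ k, ‖((nn k ^ s * ‖u k‖ : ℝ) : ℂ)‖ ^ 2 = nn k ^ (2 * s) * ‖u k‖ ^ 2 := fun k => by
    have : 0 ≤ nn k ^ s * ‖u k‖ := mul_nonneg (pow_nonneg (nn_nonneg k) _) (norm_nonneg _)
    rw [Complex.norm_real, Real.norm_of_nonneg this]
    ring
  simp only [hn] at h1
  refine h1.trans ?_
  have h2 : ∑ k ∈ B, nn k ^ (2 * s) * ‖u k‖ ^ 2 ≤ Es s B u := Finset.sum_le_sum fun k _ =>
    mul_le_mul_of_nonneg_left (norm_sq_le_en _) (pow_nonneg (nn_nonneg k) _)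
  have h3 : √(∑ k ∈ B, nk k ^ 2 * (nn k ^ (2 * s) * ‖u k‖ ^ 2)) ≤ 2 * √(Es (s + 1) B u) := by
    have e : (2 : ℝ) = √4 := by
      rw [show (4 : ℝ) = 2 ^ 2 by norm_num, Real.sqrt_sq (by norm_num)]
    rw [e, ← Real.sqrt_mul (by norm_num)]
    apply Real.sqrt_le_sqrt
    unfold Es
    rw [Finset.mul_sum]
    refine Finset.sum_le_sum fun k _ => ?_
    have h4 : nk k ^ 2 ≤ 4 * nn k ^ 2 := by
      have := pow_le_pow_left₀ (Pool.Agent.H356R3.NS.nk_nonneg k) (nk_le_two_nn k) 2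
      nlinarith
    have h5 := norm_sq_le_en (u k)
    have h6 : 0 ≤ nn k ^ (2 * s) := pow_nonneg (nn_nonneg k) _
    calc nk k ^ 2 * (nn k ^ (2 * s) * ‖u k‖ ^ 2) ≤ (4 * nn k ^ 2) * (nn k ^ (2 * s) * en (u k)) :=
          mul_le_mul h4 (mul_le_mul_of_nonneg_left h5 h6) (by positivity) (by positivity)
      _ = _ := by ring
  have h0 : 0 ≤ Es s B u := Es_nonneg _ _ _
  calc CP * (∑ k ∈ B, nn k ^ (2 * s) * ‖u k‖ ^ 2) * √(∑ k ∈ B, nk k ^ 2 * (nn k ^ (2 * s) * ‖u k‖ ^ 2))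
      ≤ CP * Es s B u * (2 * √(Es (s + 1) B u)) := by
        apply mul_le_mul _ h3 (Real.sqrt_nonneg _) (mul_nonneg hP.1 h0)
        exact mul_le_mul_of_nonneg_left h2 hP.1
    _ = _ := by ring

lemma ts_const (B : Finset K) (c : ℝ) (a : K → ℝ) (x : E3) :
    ts B (fun k => c * a k) x = (c : ℂ) * ts B a x := by
  unfold ts
  rw [Finset.mul_sum]
  exact Finset.sum_congr rfl fun k _ => by push_cast; ring

/-- the constant of the flux -/
noncomputable def Cf (CP : ℝ) (m : ℕ) : ℝ := 108 * Real.pi * ((m + 1) * 2 ^ (m + 1)) * CP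

lemma Cf_nonneg (h : 0 ≤ CP) (m : ℕ) : 0 ≤ Cf CP m := by
  have := Real.pi_pos
  unfold Cf; positivity

theorem flux_mu (hP : PlanarC Λ CP) (hBΛ : ∀ k ∈ B, k ∈ Λ) (hB : ∀ k ∈ B, -k ∈ B) {u : K → C3}
    (hs : ∀ k, k ∉ B → u k = 0) (hsym : Sym u) (hdiv : ∀ k, dt k (u k) = 0) (m : ℕ) {μ : ℝ}
    (hμ : 0 < μ) :
    |∑ k ∈ B, nn k ^ (2 * (m + 1)) * (2 * (ipc (Bf u u k) (u k)).re)| ≤
      Cf CP m * (μ ^ 2 * (Es 1 B u * √(Es 2 B u)) + Es (m + 1) B u * √(Es (m + 2) B u) / μ) := by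
  set c : ℝ := (m + 1) * 2 ^ (m + 1) with hc
  have hc0 : 0 ≤ c := by positivity
  have h1 := flux_tri hB hs hsym hdiv (w := fun k => nn k ^ (2 * (m + 1))) (φ := fun k => c * nn k)
    (ψ := fun k => nn k ^ (m + 1)) (fun k => by simp only [nn_neg]) (fun k l => by
      refine (tri_pow m (nn_nonneg _) (nn_nonneg _) (nn_nonneg l) ?_ ?_).trans (le_of_eq ?_)
      · have := nn_sub_le k l; linarith
      · exact nn_sub_le' k l
      · rw [hc]; ring)
  refine h1.trans ?_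
  have h2 := tri_sum3 B (fun k => c * nn k * ‖u k‖) (fun k => nn k ^ (m + 1) * ‖u k‖)
  set F : E3 → ℝ := fun x => ‖ts B (fun k => nn k ^ 1 * ‖u k‖) x‖ with hF
  set G : E3 → ℝ := fun x => ‖ts B (fun k => nn k ^ (m + 1) * ‖u k‖) x‖ with hG
  have hFc : Continuous F := (ts_cont _ _).norm
  have hGc : Continuous G := (ts_cont _ _).norm
  have e1 : ∀ x, ‖ts B (fun k => c * nn k * ‖u k‖) x‖ = c * F x := by
    intro x
    have e2 : (fun k => c * nn k * ‖u k‖) = fun k => c * (nn k ^ 1 * ‖u k‖) := by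
      funext k; ring
    rw [e2, ts_const, norm_mul, Complex.norm_real, Real.norm_of_nonneg hc0]
  have h3 : ∫ x in Q3, ‖ts B (fun k => c * nn k * ‖u k‖) x‖ * G x ^ 2
      ≤ c * (μ ^ 2 * (∫ x in Q3, F x ^ 3) + (∫ x in Q3, G x ^ 3) / μ) := by
    have i1 : Integrable (fun x => F x ^ 3) (volume.restrict Q3) :=
      (hFc.pow 3).continuousOn.integrableOn_compact isCompact_Icc
    have i2 : Integrable (fun x => G x ^ 3) (volume.restrict Q3) :=
      (hGc.pow 3).continuousOn.integrableOn_compact isCompact_Icc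
    have e3 : c * (μ ^ 2 * (∫ x in Q3, F x ^ 3) + (∫ x in Q3, G x ^ 3) / μ)
        = ∫ x in Q3, c * (μ ^ 2 * F x ^ 3 + G x ^ 3 / μ) := by
      rw [integral_const_mul, integral_add (i1.const_mul _) (i2.div_const _), integral_const_mul,
        integral_div]
    rw [e3]
    refine integral_mono_of_nonneg (Filter.Eventually.of_forall fun x => by positivity)
      (((i1.const_mul _).add (i2.div_const _)).const_mul _) (Filter.Eventually.of_forall fun x => ?_)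
    show ‖ts B (fun k => c * nn k * ‖u k‖) x‖ * G x ^ 2 ≤ c * (μ ^ 2 * F x ^ 3 + G x ^ 3 / μ)
    rw [e1, mul_assoc]
    apply mul_le_mul_of_nonneg_left _ hc0
    have hx : 0 ≤ F x := norm_nonneg _
    have hy : 0 ≤ G x := norm_nonneg _
    generalize F x = X at hx
    generalize G x = Y at hy
    rcases le_total Y (μ * X) with h | h
    · have h5 : X * Y ^ 2 ≤ μ ^ 2 * X ^ 3 := by
        calc X * Y ^ 2 ≤ X * (μ * X) ^ 2 := mul_le_mul_of_nonneg_left (pow_le_pow_left₀ hy h 2) hx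
          _ = _ := by ring
      have : 0 ≤ Y ^ 3 / μ := by positivity
      linarith
    · have h5 : X * Y ^ 2 ≤ Y ^ 3 / μ := by
        rw [le_div_iff₀ hμ]
        calc X * Y ^ 2 * μ = (μ * X) * Y ^ 2 := by ring
          _ ≤ Y * Y ^ 2 := mul_le_mul_of_nonneg_right h (by positivity)
          _ = _ := by ring
      have : 0 ≤ μ ^ 2 * X ^ 3 := by positivity
      linarith
  have h4 := hP.l3 hBΛ 1 u
  have h5 := hP.l3 hBΛ (m + 1) u
  have hpi := Real.pi_pos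
  have h6 : c * (μ ^ 2 * (∫ x in Q3, F x ^ 3) + (∫ x in Q3, G x ^ 3) / μ)
      ≤ c * (μ ^ 2 * (2 * CP * Es 1 B u * √(Es (1 + 1) B u))
        + (2 * CP * Es (m + 1) B u * √(Es (m + 1 + 1) B u)) / μ) := by
    apply mul_le_mul_of_nonneg_left _ hc0
    apply add_le_add
    · exact mul_le_mul_of_nonneg_left h4 (by positivity)
    · exact div_le_div_of_nonneg_right h5 hμ.le
  calc _ ≤ 18 * Real.pi * (3 * (c * (μ ^ 2 * (2 * CP * Es 1 B u * √(Es (1 + 1) B u))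
        + (2 * CP * Es (m + 1) B u * √(Es (m + 1 + 1) B u)) / μ))) := by
        apply mul_le_mul_of_nonneg_left _ (by positivity)
        refine h2.trans ?_
        exact mul_le_mul_of_nonneg_left (h3.trans h6) (by norm_num)
    _ = _ := by unfold Cf; rw [hc]; ring

lemma young {T C X E V ε : ℝ} (hC : 0 ≤ C) (hX : 0 < X) (hE : 0 ≤ E) (hV : 0 ≤ V) (hε : 0 < ε)
    (h : ∀ μ : ℝ, 0 < μ → T ≤ C * (μ ^ 2 * X ^ 2 + E * √V / μ)) :
    T ≤ ε * V + (C + C ^ 2 / (4 * ε)) * X * E := by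
  rcases eq_or_lt_of_le hE with h0 | hEp
  · rw [← h0, mul_zero, add_zero]
    have hT : T ≤ 0 := by
      refine le_of_forall_pos_le_add fun τ hτ => ?_
      set μ : ℝ := √(τ / ((C + 1) * X ^ 2)) with hμ
      have hpos : 0 < τ / ((C + 1) * X ^ 2) := by positivity
      have hμp : 0 < μ := Real.sqrt_pos.2 hpos
      have hμs : μ ^ 2 = τ / ((C + 1) * X ^ 2) := Real.sq_sqrt hpos.le
      have h1 := h μ hμp
      rw [← h0, zero_mul, zero_div, add_zero, hμs] at h1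
      have h2 : C * (τ / ((C + 1) * X ^ 2) * X ^ 2) = C / (C + 1) * τ := by
        field_simp
      rw [h2] at h1
      have h3 : C / (C + 1) ≤ 1 := by rw [div_le_one (by linarith)]; linarith
      nlinarith
    have : 0 ≤ ε * V := by positivity
    linarith
  · set μ : ℝ := √(E / X) with hμ
    have hpos : 0 < E / X := by positivity
    have hμp : 0 < μ := Real.sqrt_pos.2 hpos
    have hμs : μ ^ 2 = E / X := Real.sq_sqrt hpos.le
    have h1 := h μ hμp
    have h2 : μ ^ 2 * X ^ 2 = X * E := by rw [hμs]; field_simp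
    have h3 : (E / μ) ^ 2 = X * E := by rw [div_pow, hμs]; field_simp
    set y := E / μ with hy
    have hy0 : 0 ≤ y := by positivity
    have h4 : E * √V / μ = y * √V := by rw [hy]; ring
    rw [h2, h4] at h1
    have h5 : √V ^ 2 = V := Real.sq_sqrt hV
    have h6 : C * (y * √V) ≤ ε * V + C ^ 2 / (4 * ε) * (X * E) := by
      rw [← h3]
      have h7 : 0 ≤ ε * (√V - C * y / (2 * ε)) ^ 2 := by positivity
      have h8 : ε * (√V - C * y / (2 * ε)) ^ 2
          = ε * √V ^ 2 + C ^ 2 / (4 * ε) * y ^ 2 - C * (y * √V) := by field_simp; ring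
      rw [h5] at h8
      linarith
    have e1 : C * (X * E + y * √V) = C * X * E + C * (y * √V) := by ring
    have e2 : ε * V + (C + C ^ 2 / (4 * ε)) * X * E
        = ε * V + C ^ 2 / (4 * ε) * (X * E) + C * X * E := by ring
    rw [e2]
    linarith

/-! ### differential inequalities -/

variable {m : K → ℝ} {T : ℝ} {V : K → C3} {u : ℝ → K → C3}

lemma dec {f f' g g' : ℝ → ℝ} (hf : ∀ t ∈ Icc 0 T, HasDerivWithinAt f (f' t) (Icc 0 T) t)
    (hg : ∀ t ∈ Icc 0 T, HasDerivWithinAt g (g' t) (Icc 0 T) t)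
    (h : ∀ t ∈ Icc 0 T, f' t + g' t * f t ≤ 0) {t : ℝ} (ht : t ∈ Icc 0 T) :
    f t * Real.exp (g t) ≤ f 0 * Real.exp (g 0) := by
  have h1 := mvi (f := fun s => f s * Real.exp (g s))
    (f' := fun s => f' s * Real.exp (g s) + f s * (Real.exp (g s) * g' s)) (K := 0)
    (fun s hs => (hf s hs).mul (hg s hs).exp) le_rfl ht.1 ht.2 (fun s hs => by
      have h2 := h s ⟨hs.1, hs.2.trans ht.2⟩
      have h3 : f' s * Real.exp (g s) + f s * (Real.exp (g s) * g' s)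
          = (f' s + g' s * f s) * Real.exp (g s) := by ring
      rw [h3]
      exact mul_nonpos_of_nonpos_of_nonneg h2 (Real.exp_pos _).le)
  linarith

lemma sum_m_ge {m0 : ℝ} (hm : ∀ k, m0 * nn k ^ 2 ≤ m k) (s : ℕ) (v : K → C3) :
    m0 * Es (s + 1) B v ≤ ∑ k ∈ B, nn k ^ (2 * s) * (m k * en (v k)) := by
  unfold Es
  rw [Finset.mul_sum]
  refine Finset.sum_le_sum fun k _ => ?_
  have h6 : 0 ≤ nn k ^ (2 * s) := pow_nonneg (nn_nonneg k) _
  calc m0 * (nn k ^ (2 * (s + 1)) * en (v k)) = nn k ^ (2 * s) * ((m0 * nn k ^ 2) * en (v k)) := by ring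
    _ ≤ _ := mul_le_mul_of_nonneg_left (mul_le_mul_of_nonneg_right (hm k) (en_nonneg _)) h6

/-- the energy balance -/
lemma bal0 (h : Gal m B T V u) {m0 : ℝ} (hm : ∀ k, m0 * nn k ^ 2 ≤ m k) :
    ∃ D : ℝ → ℝ, ∀ t ∈ Icc 0 T, HasDerivWithinAt (fun s => Es 0 B (u s)) (D t) (Icc 0 T) t ∧
      D t ≤ -(2 * (m0 * Es 1 B (u t))) := by
  refine ⟨_, fun t ht => ⟨h.dW (fun k => nn k ^ (2 * 0)) ht, ?_⟩⟩
  have h2 := flux h.symB (h.supp t ht) (h.sym t ht) (h.div t ht) (w := fun k => nn k ^ (2 * 0))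
    (φ := fun _ => 0) (ψ := fun _ => 0) (fun _ => by simp) (fun _ => le_rfl) (fun k l => by simp)
  have h3 := abs_nonpos_iff.1 (h2.trans (by simp))
  rw [h3, add_zero]
  have := sum_m_ge (B := B) hm 0 (u t)
  linarith

lemma bal (hP : PlanarC Λ CP) (hBΛ : ∀ k ∈ B, k ∈ Λ) (h : Gal m B T V u) {m0 : ℝ}
    (hm : ∀ k, m0 * nn k ^ 2 ≤ m k) (j : ℕ) :
    ∃ D : ℝ → ℝ, ∀ t ∈ Icc 0 T, HasDerivWithinAt (fun s => Es (j + 1) B (u s)) (D t) (Icc 0 T) t ∧
      ∀ μ : ℝ, 0 < μ → D t + 2 * (m0 * Es (j + 2) B (u t)) ≤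
        Cf CP j * (μ ^ 2 * (Es 1 B (u t) * √(Es 2 B (u t)))
          + Es (j + 1) B (u t) * √(Es (j + 2) B (u t)) / μ) := by
  refine ⟨_, fun t ht => ⟨h.dW (fun k => nn k ^ (2 * (j + 1))) ht, fun μ hμ => ?_⟩⟩
  have h1 := flux_mu hP hBΛ h.symB (h.supp t ht) (h.sym t ht) (h.div t ht) j hμ
  have h2 := (le_abs_self _).trans h1
  have := sum_m_ge (B := B) hm (j + 1) (u t)
  linarith

lemma Es_mono (h0 : ∀ k ∈ B, k ≠ 0) (s : ℕ) (v : K → C3) : Es s B v ≤ Es (s + 1) B v := by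
  refine Finset.sum_le_sum fun k hk => mul_le_mul_of_nonneg_right ?_ (en_nonneg _)
  exact pow_le_pow_right₀ (one_le_nn (h0 k hk)) (by omega)

/-- the quantity `H` -/
theorem enstrophy_bound (hP : PlanarC Λ CP) {m0 : ℝ} (hm0 : 0 < m0)
    (hm : ∀ k, m0 * nn k ^ 2 ≤ m k) : ∃ c : ℝ, 0 ≤ c ∧
    ∀ (B : Finset K) (T : ℝ) (V : K → C3) (u : ℝ → K → C3), (∀ k ∈ B, k ∈ Λ) → Gal m B T V u →
      ∃ H H' : ℝ → ℝ, (∀ t ∈ Icc 0 T, HasDerivWithinAt H (H' t) (Icc 0 T) t) ∧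
        (∀ t ∈ Icc 0 T, H' t ≤ -(m0 * Es 2 B (u t))) ∧ (∀ t, Es 1 B (u t) ≤ H t) ∧
        H 0 = Es 1 B (u 0) * Real.exp (c * Es 0 B (u 0)) := by
  set C := Cf CP 0 with hC
  have hC0 : 0 ≤ C := Cf_nonneg hP.1 0
  set c : ℝ := C ^ 2 / m0 / (2 * m0) with hc
  have hc0 : 0 ≤ c := by positivity
  refine ⟨c, hc0, fun B T V u hBΛ h => ?_⟩
  obtain ⟨D0, hD0⟩ := bal0 h hm
  obtain ⟨D1, hD1⟩ := bal hP hBΛ h hm 0
  refine ⟨fun t => Es 1 B (u t) * Real.exp (c * Es 0 B (u t)),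
    fun t => D1 t * Real.exp (c * Es 0 B (u t))
      + Es 1 B (u t) * (Real.exp (c * Es 0 B (u t)) * (c * D0 t)), fun t ht => ?_, fun t ht => ?_,
      fun t => ?_, rfl⟩
  · exact (hD1 t ht).1.mul ((hD0 t ht).1.const_mul c).exp
  · have h1 := (hD1 t ht).2 1 one_pos
    have h2 := (hD0 t ht).2
    have hE1 := Es_nonneg 1 B (u t)
    have hE2 := Es_nonneg 2 B (u t)
    have hE0 := Es_nonneg 0 B (u t)
    simp only [zero_add] at h1
    rw [← hC] at h1
    set E1 := Es 1 B (u t)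
    set E2 := Es 2 B (u t)
    have h3 : √E2 ^ 2 = E2 := Real.sq_sqrt hE2
    -- the enstrophy
    have h4 : D1 t ≤ -(m0 * E2) + C ^ 2 / m0 * (E1 * E1) := by
      have h5 : 0 ≤ m0 * (√E2 - C / m0 * E1) ^ 2 := by positivity
      have h6 : m0 * (√E2 - C / m0 * E1) ^ 2 = m0 * √E2 ^ 2 + C ^ 2 / m0 * (E1 * E1)
          - 2 * C * (E1 * √E2) := by field_simp; ring
      rw [h3] at h6
      have h7 : C * (1 ^ 2 * (E1 * √E2) + E1 * √E2 / 1) = 2 * C * (E1 * √E2) := by ring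
      linarith
    have h5 : D1 t + c * D0 t * E1 ≤ -(m0 * E2) := by
      have h6 : c * D0 t ≤ -(C ^ 2 / m0 * E1) := by
        have h7 : c * D0 t ≤ c * -(2 * (m0 * E1)) := mul_le_mul_of_nonneg_left h2 hc0
        have h8 : c * -(2 * (m0 * E1)) = -(C ^ 2 / m0 * E1) := by rw [hc]; field_simp
        linarith
      have h9 : c * D0 t * E1 ≤ -(C ^ 2 / m0 * E1) * E1 := mul_le_mul_of_nonneg_right h6 hE1
      have : -(C ^ 2 / m0 * E1) * E1 = -(C ^ 2 / m0 * (E1 * E1)) := by ring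
      linarith
    have h6 : 1 ≤ Real.exp (c * Es 0 B (u t)) := Real.one_le_exp (by positivity)
    have h7 : 0 ≤ m0 * E2 := by positivity
    calc D1 t * Real.exp (c * Es 0 B (u t)) + E1 * (Real.exp (c * Es 0 B (u t)) * (c * D0 t))
        = (D1 t + c * D0 t * E1) * Real.exp (c * Es 0 B (u t)) := by ring
      _ ≤ -(m0 * E2) * Real.exp (c * Es 0 B (u t)) :=
          mul_le_mul_of_nonneg_right h5 (Real.exp_pos _).le
      _ ≤ -(m0 * E2) * 1 := by nlinarith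
      _ = _ := by ring
  · have h6 : 1 ≤ Real.exp (c * Es 0 B (u t)) :=
      Real.one_le_exp (mul_nonneg hc0 (Es_nonneg _ _ _))
    exact le_mul_of_one_le_right (Es_nonneg _ _ _) h6

/-- **Uniform bounds.** -/
theorem unif (hP : PlanarC Λ CP) (h0 : (0 : K) ∉ Λ) {m0 : ℝ} (hm0 : 0 < m0)
    (hm : ∀ k, m0 * nn k ^ 2 ≤ m k)
    (hV : ∀ s : ℕ, ∃ C, ∀ B : Finset K, ∑ k ∈ B, nn k ^ (2 * s) * en (V k) ≤ C) (s : ℕ) :
    ∃ C, ∀ (B : Finset K) (T : ℝ) (u : ℝ → K → C3), (∀ k ∈ B, k ∈ Λ) → 0 ≤ T → Gal m B T V u →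
      ∀ t ∈ Icc 0 T, Es s B (u t) ≤ C := by
  obtain ⟨c, hc0, hc⟩ := enstrophy_bound (m := m) hP hm0 hm
  obtain ⟨V0, hV0⟩ := hV 0
  obtain ⟨V1, hV1⟩ := hV 1
  have hV00 : 0 ≤ V0 := (hV0 ∅).trans' (by simp)
  have hV10 : 0 ≤ V1 := (hV1 ∅).trans' (by simp)
  set M1 := V1 * Real.exp (c * V0) with hM1
  have hM10 : 0 ≤ M1 := by positivity
  -- initial values
  have hinit : ∀ (B : Finset K) (T : ℝ) (u : ℝ → K → C3), Gal m B T V u → ∀ s,
      Es s B (u 0) = ∑ k ∈ B, nn k ^ (2 * s) * en (V k) := fun B T u h s =>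
    Finset.sum_congr rfl fun k hk => by rw [h.init k hk]
  have hH0 : ∀ (B : Finset K) (T : ℝ) (u : ℝ → K → C3), Gal m B T V u →
      Es 1 B (u 0) * Real.exp (c * Es 0 B (u 0)) ≤ M1 := by
    intro B T u h
    rw [hinit B T u h, hinit B T u h]
    apply mul_le_mul (hV1 B) _ (Real.exp_pos _).le hV10
    exact Real.exp_le_exp.2 (mul_le_mul_of_nonneg_left (hV0 B) hc0)
  have hHM : ∀ (B : Finset K) (T : ℝ) (u : ℝ → K → C3), (∀ k ∈ B, k ∈ Λ) → Gal m B T V u →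
      ∀ H H' : ℝ → ℝ, (∀ t ∈ Icc 0 T, HasDerivWithinAt H (H' t) (Icc 0 T) t) →
        (∀ t ∈ Icc 0 T, H' t ≤ -(m0 * Es 2 B (u t))) →
        H 0 = Es 1 B (u 0) * Real.exp (c * Es 0 B (u 0)) → ∀ t ∈ Icc 0 T, H t ≤ M1 := by
    intro B T u hB h H H' h1 h2 h3 t ht
    have h4 := mvi (K := 0) h1 le_rfl ht.1 ht.2 (fun r hr => by
      refine (h2 r ⟨hr.1, hr.2.trans ht.2⟩).trans ?_
      have := Es_nonneg 2 B (u r)
      have : 0 ≤ m0 * Es 2 B (u r) := by positivity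
      linarith)
    have h5 := hH0 B T u h
    rw [← h3] at h5
    linarith
  rcases s with _ | _ | j
  · refine ⟨V0, fun B T u hB hT h t ht => ?_⟩
    obtain ⟨D0, hD0⟩ := bal0 h hm
    have h4 := mvi (K := 0) (fun r hr => (hD0 r hr).1) le_rfl ht.1 ht.2 (fun r hr => by
      refine (hD0 r ⟨hr.1, hr.2.trans ht.2⟩).2.trans ?_
      have := Es_nonneg 1 B (u r)
      have : 0 ≤ m0 * Es 1 B (u r) := by positivity
      linarith)
    have h5 := hV0 B
    rw [← hinit B T u h 0] at h5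
    linarith
  · refine ⟨M1, fun B T u hB hT h t ht => ?_⟩
    obtain ⟨H, H', h1, h2, h3, h4⟩ := hc B T V u hB h
    exact (h3 t).trans (hHM B T u hB h H H' h1 h2 h4 t ht)
  · obtain ⟨Vs, hVs⟩ := hV (j + 2)
    have hVs0 : 0 ≤ Vs := (hVs ∅).trans' (by simp)
    set C := Cf CP (j + 1) with hC
    have hC0 : 0 ≤ C := Cf_nonneg hP.1 _
    set κ : ℝ := C + C ^ 2 / (4 * m0) with hκ
    have hκ0 : 0 ≤ κ := by positivity
    set δ : ℝ := m0 / (κ + 1) with hδ
    have hδ0 : 0 < δ := by positivity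
    set d : ℝ := κ / δ ^ 3 * M1 / m0 with hd
    have hd0 : 0 ≤ d := by positivity
    refine ⟨Vs * Real.exp (d * M1 * M1), fun B T u hB hT h t ht => ?_⟩
    obtain ⟨H, H', h1, h2, h3, h4⟩ := hc B T V u hB h
    obtain ⟨D, hD⟩ := bal hP hB h hm (j + 1)
    have hne : ∀ k ∈ B, k ≠ 0 := fun k hk h5 => h0 (h5 ▸ hB k hk)
    have hH := hHM B T u hB h H H' h1 h2 h4
    have h5 := dec (T := T) (f := fun r => Es (j + 2) B (u r)) (f' := D)
      (g := fun r => d * M1 * H r) (g' := fun r => d * M1 * H' r) (fun r hr => (hD r hr).1)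
      (fun r hr => (h1 r hr).const_mul _) (fun r hr => by
        have hE1 := Es_nonneg 1 B (u r)
        have hE2 := Es_nonneg 2 B (u r)
        have hEs := Es_nonneg (j + 2) B (u r)
        have hEt := Es_nonneg (j + 3) B (u r)
        have hst := Es_mono hne (j + 2) (u r)
        have hE1M : Es 1 B (u r) ≤ M1 := (h3 r).trans (hH r hr)
        set E1 := Es 1 B (u r)
        set E2 := Es 2 B (u r)
        set x := √(E1 * √E2) with hx
        have hx0 : 0 ≤ x := Real.sqrt_nonneg _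
        have hx2 : x ^ 2 = E1 * √E2 := Real.sq_sqrt (by positivity)
        have hx4 : x ^ 4 = E1 ^ 2 * E2 := by
          have : x ^ 4 = (x ^ 2) ^ 2 := by ring
          rw [this, hx2, mul_pow, Real.sq_sqrt hE2]
        set X := δ + x ^ 4 / δ ^ 3 with hX
        have hXp : 0 < X := by positivity
        have hxX : x ≤ X := by
          rcases le_total x δ with h6 | h6
          · have : 0 ≤ x ^ 4 / δ ^ 3 := by positivity
            linarith
          · have : x ≤ x ^ 4 / δ ^ 3 := by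
              rw [le_div_iff₀ (by positivity)]
              calc x * δ ^ 3 ≤ x * x ^ 3 :=
                    mul_le_mul_of_nonneg_left (pow_le_pow_left₀ hδ0.le h6 3) hx0
                _ = _ := by ring
            linarith
        have hXx : E1 * √E2 ≤ X ^ 2 := by
          rw [← hx2]; exact pow_le_pow_left₀ hx0 hxX 2
        have h7 := young (T := D r + 2 * (m0 * Es (j + 3) B (u r))) (C := C) (X := X)
          (E := Es (j + 2) B (u r)) (V := Es (j + 3) B (u r)) (ε := m0) hC0 hXp hEs hEt hm0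
          (fun μ hμ => by
            refine ((hD r hr).2 μ hμ).trans ?_
            apply mul_le_mul_of_nonneg_left _ hC0
            apply add_le_add _ le_rfl
            exact mul_le_mul_of_nonneg_left hXx (by positivity))
        rw [← hκ] at h7
        have h8 : κ * X ≤ m0 + κ / δ ^ 3 * (E1 ^ 2 * E2) := by
          rw [hX, mul_add, hx4]
          have h9 : κ * δ ≤ m0 := by
            rw [hδ, mul_div_assoc', div_le_iff₀ (by positivity)]
            nlinarith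
          have h10 : κ * (E1 ^ 2 * E2 / δ ^ 3) = κ / δ ^ 3 * (E1 ^ 2 * E2) := by ring
          linarith
        have h9 : D r ≤ κ / δ ^ 3 * (E1 ^ 2 * E2) * Es (j + 2) B (u r) := by
          have h10 : κ * X * Es (j + 2) B (u r) ≤
              (m0 + κ / δ ^ 3 * (E1 ^ 2 * E2)) * Es (j + 2) B (u r) :=
            mul_le_mul_of_nonneg_right h8 hEs
          have h11 : m0 * Es (j + 2) B (u r) ≤ m0 * Es (j + 3) B (u r) :=
            mul_le_mul_of_nonneg_left hst hm0.le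
          have h12 : (m0 + κ / δ ^ 3 * (E1 ^ 2 * E2)) * Es (j + 2) B (u r)
            = m0 * Es (j + 2) B (u r) + κ / δ ^ 3 * (E1 ^ 2 * E2) * Es (j + 2) B (u r) := by ring
          linarith
        have h10 : d * M1 * H' r ≤ -(κ / δ ^ 3 * (E1 ^ 2 * E2)) := by
          have h11 : d * M1 * H' r ≤ d * M1 * -(m0 * E2) :=
            mul_le_mul_of_nonneg_left (h2 r hr) (by positivity)
          have h12 : d * M1 * -(m0 * E2) = -(κ / δ ^ 3 * (M1 ^ 2 * E2)) := by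
            rw [hd]; field_simp
          have h13 : κ / δ ^ 3 * (E1 ^ 2 * E2) ≤ κ / δ ^ 3 * (M1 ^ 2 * E2) := by
            apply mul_le_mul_of_nonneg_left _ (by positivity)
            exact mul_le_mul_of_nonneg_right (pow_le_pow_left₀ hE1 hE1M 2) hE2
          linarith
        have h11 := mul_le_mul_of_nonneg_right h10 hEs
        show D r + d * M1 * H' r * Es (j + 2) B (u r) ≤ 0
        linarith) ht
    have hHt : 0 ≤ H t := (Es_nonneg 1 B (u t)).trans (h3 t)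
    have h6 : Es (j + 2) B (u t) ≤ Es (j + 2) B (u t) * Real.exp (d * M1 * H t) :=
      le_mul_of_one_le_right (Es_nonneg _ _ _) (Real.one_le_exp (by positivity))
    refine h6.trans (h5.trans ?_)
    apply mul_le_mul _ _ (Real.exp_pos _).le hVs0
    · show Es (j + 2) B (u 0) ≤ Vs
      rw [hinit B T u h]; exact hVs B
    · apply Real.exp_le_exp.2
      exact mul_le_mul_of_nonneg_left (hH 0 ⟨le_rfl, hT⟩) (by positivity)

end Pool.Agent.K1H29.RD
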