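import Pool.Agent.H356R3.NS.Defs

/-!
# The periodic Navier-Stokes equations restricted to a set of frequencies
-/

open Set MeasureTheory ProbabilityTheory
open scoped ContDiff

namespace Pool.Agent.K1H29.RD

open Pool.Agent.H356R3.NS (R3 pd)

/-- The Fourier coefficients `∫_{[0,1]³} f(x) exp(-2πi k·x) dx` of a real function. -/
noncomputable def four (f : R3 → ℝ) (k : Fin 3 → ℤ) : ℂ :=
  ∫ x in Icc (0 : R3) 1,
    (f x : ℂ) * Complex.exp (-(2 * Real.pi * Complex.I * ∑ j, (k j : ℂ) * (x j : ℂ)))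

/-- The trigonometric polynomial `∑_{k ∈ B} a(k) exp(2πi k·x)`. -/
noncomputable def poly (B : Finset (Fin 3 → ℤ)) (a : (Fin 3 → ℤ) → ℂ) (x : R3) : ℂ :=
  ∑ k ∈ B, a k * Complex.exp (2 * Real.pi * Complex.I * ∑ j, (k j : ℂ) * (x j : ℂ))

/-- The planar Gagliardo-Nirenberg inequality `∫ |F|³ ≤ C ∫ |F|² (∫ |∇F|²)^(1/2)` for the trigonometric
polynomials `F` with frequencies in `Λ`. (On the right `∫ |F|² = ∑ |a(k)|²` and
`∫ |∇F|² = 4π² ∑ |k|² |a(k)|²`, the factor `2π` is in the constant.) -/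
def PlanarWith (C : ℝ) (Λ : Set (Fin 3 → ℤ)) : Prop :=
  ∀ (B : Finset (Fin 3 → ℤ)) (a : (Fin 3 → ℤ) → ℂ), (∀ k ∈ B, k ∈ Λ) →
    ∫ x in Icc (0 : R3) 1, ‖poly B a x‖ ^ 3 ≤
      C * (∑ k ∈ B, ‖a k‖ ^ 2) * √(∑ k ∈ B, (∑ i, (k i : ℝ) ^ 2) * ‖a k‖ ^ 2)

/-- `Λ` satisfies the planar Gagliardo-Nirenberg inequality with some constant. -/
def Planar (Λ : Set (Fin 3 → ℤ)) : Prop := ∃ C : ℝ, PlanarWith C Λ

/-- The random set of frequencies: the pair `±k` is kept if one of the events `A k`, `A (-k)` happens. -/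
def kept {Ω : Type*} (A : (Fin 3 → ℤ) → Set Ω) (o : Ω) : Set (Fin 3 → ℤ) :=
  {k | k ≠ 0 ∧ (o ∈ A k ∨ o ∈ A (-k))}

/-- Smooth periodic divergence free vector fields with frequencies in `Λ`. -/
structure Data (Λ : Set (Fin 3 → ℤ)) (v : R3 → R3) : Prop where
  smooth : ContDiff ℝ ∞ v
  periodic : ∀ x j, v (x + Pi.single j 1) = v x
  divFree : ∀ x, ∑ i, pd i (fun y => v y i) x = 0
  spectrum : ∀ k ∉ Λ, ∀ i, four (fun y => v y i) k = 0

/-- `(u, p)` is a smooth periodic solution of the Navier-Stokes equations restricted to the frequencies in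
`Λ`, with viscosity `ν` and initial velocity `v`: `u` and `p` are `C^∞` on `ℝ³ × [0,∞)` (with one-sided time
derivatives at `t = 0`) and `ℤ³`-periodic in `x`, `div u = 0`, the Fourier coefficients `û(k)` vanish for
`k ∉ Λ`, all Fourier coefficients with `k ∈ Λ` of
`∂_t u_i + ∑_j u_j ∂_j u_i - ν Δ u_i + ∂_i p` vanish, and `u(·,0) = v`. -/
structure Restricted (Λ : Set (Fin 3 → ℤ)) (ν : ℝ) (v : R3 → R3) (u : ℝ → R3 → R3) (p : ℝ → R3 → ℝ) :
    Prop where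
  smooth_u : ContDiffOn ℝ ∞ (fun z : ℝ × R3 => u z.1 z.2) (Ici 0 ×ˢ univ)
  smooth_p : ContDiffOn ℝ ∞ (fun z : ℝ × R3 => p z.1 z.2) (Ici 0 ×ˢ univ)
  periodic_u : ∀ t, 0 ≤ t → ∀ x j, u t (x + Pi.single j 1) = u t x
  periodic_p : ∀ t, 0 ≤ t → ∀ x j, p t (x + Pi.single j 1) = p t x
  divFree : ∀ t, 0 ≤ t → ∀ x, ∑ i, pd i (fun y => u t y i) x = 0
  spectrum : ∀ t, 0 ≤ t → ∀ k ∉ Λ, ∀ i, four (fun y => u t y i) k = 0
  momentum : ∀ t, 0 ≤ t → ∀ k ∈ Λ, ∀ i, four (fun x =>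
    derivWithin (fun s => u s x i) (Ici 0) t + ∑ j, u t x j * pd j (fun y => u t y i) x
      - ν * ∑ j, pd j (pd j fun y => u t y i) x + pd i (p t) x) k = 0
  initial : u 0 = v

end Pool.Agent.K1H29.RD
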