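import Pool.Agent.K1H29.RD.GN2

/-!
# The flux of the Sobolev norms for planar sets of frequencies
-/

open MeasureTheory Set ComplexConjugate

namespace Pool.Agent.K1H29.RD

open Pool.Agent.H356R3.NS (K E3 C3 Q3 ex ex_neg ex_cont norm_ex dt Bf Sym ex_int ex_add nk nk_sq)
open Pool.Agent.K1H29.SH

/-- The flux before the convolution estimate. -/
theorem flux_tri {B : Finset K} (hB : ∀ k ∈ B, -k ∈ B) {u : K → C3} (hs : ∀ k, k ∉ B → u k = 0)
    (hsym : Sym u) (hdiv : ∀ k, dt k (u k) = 0) {w φ ψ : K → ℝ} (hw : ∀ k, w (-k) = w k)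
    (htri : ∀ k l, |w k - w (k - l)| * min (nn k) (nn (k - l)) ≤
      φ l * (ψ k * ψ (k - l)) + φ (k - l) * (ψ k * ψ l) + φ k * (ψ (k - l) * ψ l)) :
    |∑ k ∈ B, w k * (2 * (ipc (Bf u u k) (u k)).re)|
      ≤ 18 * Real.pi * ∑ p ∈ tri B, ((φ p.2 * ‖u p.2‖) * ((ψ p.1 * ‖u p.1‖) * (ψ (p.1 - p.2) * ‖u (p.1 - p.2)‖))
        + (φ (p.1 - p.2) * ‖u (p.1 - p.2)‖) * ((ψ p.1 * ‖u p.1‖) * (ψ p.2 * ‖u p.2‖))
        + (φ p.1 * ‖u p.1‖) * ((ψ (p.1 - p.2) * ‖u (p.1 - p.2)‖) * (ψ p.2 * ‖u p.2‖))) := by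
  set T : K → K → ℂ := fun k l => dt k (u l) * ipc (u (k - l)) (u k) with hT
  have hT0 : ∀ k l, k - l ∉ B → T k l = 0 := by
    intro k l h
    simp only [hT, hs _ h, ipc]
    simp
  have hTsym : ∀ k l, T (l - k) l = -T k l := by
    intro k l
    have h1 : dt (l - k) (u l) = -dt k (u l) := by rw [dt_sub, hdiv l, zero_sub]
    have h2 : ipc (u (l - k - l)) (u (l - k)) = ipc (u (k - l)) (u k) := by
      unfold ipc
      refine Finset.sum_congr rfl fun m _ => ?_
      have e1 : l - k - l = -k := by abel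
      have e2 : l - k = -(k - l) := by abel
      rw [e1, e2, hsym k m, hsym (k - l) m]
      simp only [Complex.star_def, Complex.conj_conj]
      ring
    simp only [hT, h1, h2]
    ring
  have hTn : ∀ k l, ‖T k l‖ ≤ 9 * (min (nn k) (nn (k - l)) * (‖u l‖ * (‖u k‖ * ‖u (k - l)‖))) := by
    intro k l
    have h1 : ‖dt k (u l)‖ ≤ 3 * min (nn k) (nn (k - l)) * ‖u l‖ := by
      rcases min_choice (nn k) (nn (k - l)) with h | h
      · rw [h]; exact norm_dt_le k (u l)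
      · rw [h]
        have : dt k (u l) = dt (k - l) (u l) := by rw [dt_sub, hdiv l, sub_zero]
        rw [this]; exact norm_dt_le _ _
    have h2 := norm_ipc_le (u (k - l)) (u k)
    have h0 : 0 ≤ min (nn k) (nn (k - l)) := le_min (nn_nonneg _) (nn_nonneg _)
    simp only [hT]
    rw [norm_mul]
    calc _ ≤ (3 * min (nn k) (nn (k - l)) * ‖u l‖) * (3 * (‖u (k - l)‖ * ‖u k‖)) :=
          mul_le_mul h1 h2 (norm_nonneg _) (by positivity)
      _ = _ := by ring
  set S : ℂ := ∑ p ∈ tri B, (w p.1 : ℂ) * T p.1 p.2 with hS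
  have hmain : ∑ k ∈ B, w k * (2 * (ipc (Bf u u k) (u k)).re)
      = (-(4 * Real.pi * Complex.I) * S).re := by
    have h1 : S = ∑ k ∈ B, (w k : ℂ) * ∑ l ∈ B, T k l := by
      rw [hS]
      unfold tri
      rw [Finset.sum_filter, Finset.sum_product]
      refine Finset.sum_congr rfl fun k _ => ?_
      rw [Finset.mul_sum]
      refine Finset.sum_congr rfl fun l _ => ?_
      split_ifs with h
      · rfl
      · rw [hT0 k l h, mul_zero]
    rw [h1, Finset.mul_sum, Complex.re_sum]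
    refine Finset.sum_congr rfl fun k _ => ?_
    rw [ipc_Bf hs (hdiv k)]
    have h2 : -(4 * Real.pi * Complex.I) * ((w k : ℂ) * ∑ l ∈ B, T k l)
        = ((2 * w k : ℝ) : ℂ) * (-(2 * Real.pi * Complex.I) * ∑ l ∈ B, T k l) := by
      push_cast; ring
    rw [h2, Complex.re_ofReal_mul]
    simp only [hT]
    ring
  have h2S : 2 * S = ∑ p ∈ tri B, ((w p.1 - w (p.1 - p.2) : ℝ) : ℂ) * T p.1 p.2 := by
    have h3 : S = -∑ p ∈ tri B, (w (p.1 - p.2) : ℂ) * T p.1 p.2 := by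
      rw [hS, ← Finset.sum_neg_distrib]
      refine Finset.sum_nbij' (fun p => (p.2 - p.1, p.2)) (fun p => (p.2 - p.1, p.2)) ?_ ?_ ?_ ?_ ?_
      · intro p hp
        rw [mem_tri] at *
        refine ⟨?_, hp.2.1, ?_⟩
        · have := hB _ hp.2.2; rwa [neg_sub] at this
        · have := hB _ hp.1
          show p.2 - p.1 - p.2 ∈ B
          rwa [show p.2 - p.1 - p.2 = -p.1 by abel]
      · intro p hp
        rw [mem_tri] at *
        refine ⟨?_, hp.2.1, ?_⟩
        · have := hB _ hp.2.2; rwa [neg_sub] at this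
        · have := hB _ hp.1
          show p.2 - p.1 - p.2 ∈ B
          rwa [show p.2 - p.1 - p.2 = -p.1 by abel]
      · intro p _; simp
      · intro p _; simp
      · intro p _
        show (w p.1 : ℂ) * T p.1 p.2 = -((w (p.2 - p.1 - p.2) : ℂ) * T (p.2 - p.1) p.2)
        rw [hTsym, show p.2 - p.1 - p.2 = -p.1 by abel, hw]
        ring
    have h4 : 2 * S = S + S := by ring
    rw [h4]
    nth_rewrite 2 [h3]
    rw [hS, ← sub_eq_add_neg, ← Finset.sum_sub_distrib]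
    refine Finset.sum_congr rfl fun p _ => ?_
    push_cast
    ring
  rw [hmain]
  refine (Complex.abs_re_le_norm _).trans ?_
  have h6 : -(4 * (Real.pi : ℂ) * Complex.I) * S = (-(2 * Real.pi * Complex.I)) * (2 * S) := by ring
  rw [h6, norm_mul]
  have h7 : ‖-(2 * (Real.pi : ℂ) * Complex.I)‖ = 2 * Real.pi := by
    rw [norm_neg, norm_mul, norm_mul, Complex.norm_I, Complex.norm_real]
    simp [abs_of_pos Real.pi_pos]
  rw [h7, h2S, show 18 * Real.pi = 2 * Real.pi * 9 by ring, mul_assoc (2 * Real.pi) 9]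
  apply mul_le_mul_of_nonneg_left _ (by positivity)
  rw [Finset.mul_sum]
  refine (norm_sum_le _ _).trans (Finset.sum_le_sum fun p _ => ?_)
  rw [norm_mul, Complex.norm_real, Real.norm_eq_abs]
  calc _ ≤ |w p.1 - w (p.1 - p.2)| * (9 * (min (nn p.1) (nn (p.1 - p.2)) *
        (‖u p.2‖ * (‖u p.1‖ * ‖u (p.1 - p.2)‖)))) :=
        mul_le_mul_of_nonneg_left (hTn _ _) (abs_nonneg _)
    _ = 9 * ((|w p.1 - w (p.1 - p.2)| * min (nn p.1) (nn (p.1 - p.2))) *
        (‖u p.2‖ * (‖u p.1‖ * ‖u (p.1 - p.2)‖))) := by ring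
    _ ≤ 9 * ((φ p.2 * (ψ p.1 * ψ (p.1 - p.2)) + φ (p.1 - p.2) * (ψ p.1 * ψ p.2)
          + φ p.1 * (ψ (p.1 - p.2) * ψ p.2)) * (‖u p.2‖ * (‖u p.1‖ * ‖u (p.1 - p.2)‖))) := by
        apply mul_le_mul_of_nonneg_left _ (by norm_num)
        exact mul_le_mul_of_nonneg_right (htri _ _) (by positivity)
    _ = _ := by ring

/-- trigonometric sum with real coefficients -/
noncomputable def ts (B : Finset K) (a : K → ℝ) (x : E3) : ℂ := ∑ k ∈ B, (a k : ℂ) * ex k x

lemma ts_cont (B : Finset K) (a : K → ℝ) : Continuous (ts B a) :=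
  continuous_finsetSum _ fun k _ => continuous_const.mul (ex_cont k)

lemma tri_int (B : Finset K) (a b c : K → ℝ) :
    ((∑ p ∈ tri B, a p.2 * (b p.1 * c (p.1 - p.2)) : ℝ) : ℂ)
      = ∫ x in Q3, ts B a x * ts B c x * conj (ts B b x) := by
  classical
  have hi : ∀ k, Integrable (ex k) (volume.restrict Q3) := fun k =>
    Integrable.of_bound (ex_cont k).aestronglyMeasurable 1
      (Filter.Eventually.of_forall fun x => (norm_ex k x).le)
  have e : ∀ x, ts B a x * ts B c x * conj (ts B b x)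
      = ∑ k ∈ B, ∑ l ∈ B, ∑ m ∈ B, ((a l : ℂ) * c m * b k) * ex (l + m - k) x := by
    intro x
    have e1 : conj (ts B b x) = ∑ k ∈ B, (b k : ℂ) * ex (-k) x := by
      unfold ts
      rw [map_sum]
      refine Finset.sum_congr rfl fun k _ => ?_
      rw [map_mul, Complex.conj_ofReal, ex_neg, Complex.star_def]
    rw [e1]
    unfold ts
    rw [Finset.sum_mul_sum, mul_comm, Finset.sum_mul]
    refine Finset.sum_congr rfl fun k _ => ?_
    rw [Finset.mul_sum]
    refine Finset.sum_congr rfl fun l _ => ?_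
    rw [Finset.mul_sum]
    refine Finset.sum_congr rfl fun m _ => ?_
    rw [sub_eq_add_neg, ex_add, ex_add]
    ring
  simp only [e]
  rw [integral_finsetSum _ fun k _ => integrable_finsetSum _ fun l _ => integrable_finsetSum _ fun m _ =>
    (hi _).const_mul _]
  have h1 : ∑ p ∈ tri B, a p.2 * (b p.1 * c (p.1 - p.2))
      = ∑ k ∈ B, ∑ l ∈ B, if k - l ∈ B then a l * (b k * c (k - l)) else 0 := by
    unfold tri
    rw [Finset.sum_filter, Finset.sum_product]
  rw [h1]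
  push_cast
  refine Finset.sum_congr rfl fun k _ => ?_
  rw [integral_finsetSum _ fun l _ => integrable_finsetSum _ fun m _ => (hi _).const_mul _]
  refine Finset.sum_congr rfl fun l _ => ?_
  rw [integral_finsetSum _ fun m _ => (hi _).const_mul _]
  have h2 : ∀ m ∈ B, ∫ x in Q3, ((a l : ℂ) * c m * b k) * ex (l + m - k) x
      = if m = k - l then (a l : ℂ) * (b k * c (k - l)) else 0 := by
    intro m _
    rw [integral_const_mul, ex_int]
    by_cases h : m = k - l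
    · rw [if_pos h, if_pos (by rw [h]; abel), h]; ring
    · rw [if_neg h, if_neg (fun h' => h (by rw [eq_sub_iff_add_eq, add_comm]; exact sub_eq_zero.1 h')),
        mul_zero]
  rw [Finset.sum_congr rfl h2, Finset.sum_ite_eq']
  split_ifs <;> push_cast <;> rfl

lemma tri_bound (B : Finset K) (a b c : K → ℝ) :
    ∑ p ∈ tri B, a p.2 * (b p.1 * c (p.1 - p.2))
      ≤ ∫ x in Q3, ‖ts B a x‖ * ‖ts B b x‖ * ‖ts B c x‖ := by
  have h1 : ∑ p ∈ tri B, a p.2 * (b p.1 * c (p.1 - p.2))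
      ≤ ‖((∑ p ∈ tri B, a p.2 * (b p.1 * c (p.1 - p.2)) : ℝ) : ℂ)‖ := by
    rw [Complex.norm_real]; exact le_abs_self _
  refine h1.trans ?_
  rw [tri_int]
  refine norm_integral_le_of_norm_le ?_ (Filter.Eventually.of_forall fun x => ?_)
  · exact (((ts_cont B a).norm.mul (ts_cont B b).norm).mul (ts_cont B c).norm).continuousOn.integrableOn_compact
      isCompact_Icc
  · rw [norm_mul, norm_mul, RCLike.norm_conj]
    exact le_of_eq (by ring)

lemma tri_sum3 (B : Finset K) (f g : K → ℝ) :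
    ∑ p ∈ tri B, (f p.2 * (g p.1 * g (p.1 - p.2)) + f (p.1 - p.2) * (g p.1 * g p.2)
      + f p.1 * (g (p.1 - p.2) * g p.2)) ≤ 3 * ∫ x in Q3, ‖ts B f x‖ * ‖ts B g x‖ ^ 2 := by
  rw [Finset.sum_add_distrib, Finset.sum_add_distrib]
  have h1 := tri_bound B f g g
  have h2 : ∑ p ∈ tri B, f (p.1 - p.2) * (g p.1 * g p.2)
      ≤ ∫ x in Q3, ‖ts B g x‖ * ‖ts B g x‖ * ‖ts B f x‖ := by
    refine le_trans (le_of_eq ?_) (tri_bound B g g f)
    exact Finset.sum_congr rfl fun p _ => by ring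
  have h3 : ∑ p ∈ tri B, f p.1 * (g (p.1 - p.2) * g p.2)
      ≤ ∫ x in Q3, ‖ts B g x‖ * ‖ts B f x‖ * ‖ts B g x‖ := by
    refine le_trans (le_of_eq ?_) (tri_bound B g f g)
    exact Finset.sum_congr rfl fun p _ => by ring
  have e1 : ∫ x in Q3, ‖ts B f x‖ * ‖ts B g x‖ * ‖ts B g x‖
      = ∫ x in Q3, ‖ts B f x‖ * ‖ts B g x‖ ^ 2 := by congr 1; funext x; ring
  have e2 : ∫ x in Q3, ‖ts B g x‖ * ‖ts B g x‖ * ‖ts B f x‖
      = ∫ x in Q3, ‖ts B f x‖ * ‖ts B g x‖ ^ 2 := by congr 1; funext x; ring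
  have e3 : ∫ x in Q3, ‖ts B g x‖ * ‖ts B f x‖ * ‖ts B g x‖
      = ∫ x in Q3, ‖ts B f x‖ * ‖ts B g x‖ ^ 2 := by congr 1; funext x; ring
  linarith

/-- the algebra of the weights -/
lemma tri_pow (m : ℕ) {a b c : ℝ} (ha : 0 ≤ a) (hb : 0 ≤ b) (hc : 0 ≤ c) (h1 : a ≤ b + c)
    (h2 : b ≤ a + c) : |a ^ (2 * (m + 1)) - b ^ (2 * (m + 1))| * min a b ≤
      (m + 1) * 2 ^ (m + 1) * (c * (a ^ (m + 1) * b ^ (m + 1)) + b * (a ^ (m + 1) * c ^ (m + 1))
        + a * (b ^ (m + 1) * c ^ (m + 1))) := by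
  wlog hab : a ≤ b generalizing a b with H
  · have := H hb ha h2 h1 (le_of_not_ge hab)
    rw [abs_sub_comm, min_comm] at this
    refine this.trans (le_of_eq ?_)
    ring
  rw [min_eq_left hab]
  have h3 := abs_pow_sub_pow_le a b (2 * (m + 1))
  rw [abs_of_nonneg ha, abs_of_nonneg hb, max_eq_right hab] at h3
  have h4 : |a - b| ≤ c := by rw [abs_le]; constructor <;> linarith
  have e1 : 2 * (m + 1) - 1 = (m + 1) + m := by omega
  rw [e1, pow_add] at h3
  have h5 : b ^ m ≤ 2 ^ m * (a ^ m + c ^ m) := by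
    calc b ^ m ≤ (a + c) ^ m := pow_le_pow_left₀ hb h2 m
      _ ≤ 2 ^ (m - 1) * (a ^ m + c ^ m) := add_pow_le ha hc m
      _ ≤ _ := by
          apply mul_le_mul_of_nonneg_right _ (by positivity)
          exact pow_le_pow_right₀ (by norm_num) (by omega)
  calc |a ^ (2 * (m + 1)) - b ^ (2 * (m + 1))| * a
      ≤ (|a - b| * ((2 * (m + 1) : ℕ) : ℝ) * (b ^ (m + 1) * b ^ m)) * a :=
        mul_le_mul_of_nonneg_right h3 ha
    _ ≤ (c * ((2 * (m + 1) : ℕ) : ℝ) * (b ^ (m + 1) * (2 ^ m * (a ^ m + c ^ m)))) * a := by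
        apply mul_le_mul_of_nonneg_right _ ha
        apply mul_le_mul _ _ (by positivity) (by positivity)
        · exact mul_le_mul_of_nonneg_right h4 (by positivity)
        · exact mul_le_mul_of_nonneg_left h5 (by positivity)
    _ = (m + 1) * 2 ^ (m + 1) * (c * (a ^ (m + 1) * b ^ (m + 1)) + a * (b ^ (m + 1) * c ^ (m + 1))) := by
        push_cast; ring
    _ ≤ _ := by
        apply mul_le_mul_of_nonneg_left _ (by positivity)
        have : 0 ≤ b * (a ^ (m + 1) * c ^ (m + 1)) := by positivity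
        linarith

end Pool.Agent.K1H29.RD
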