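import Pool.Agent.K1H29.RD.L3
import Pool.Agent.K1H29.SH.Lim

/-!
# The planar Gagliardo-Nirenberg inequality for random sets of frequencies
-/

open MeasureTheory Set ComplexConjugate

namespace Pool.Agent.K1H29.RD

open Pool.Agent.H356R3.NS (K E3 Q3 ex ex_neg ex_cont norm_ex)
open Pool.Agent.K1H29.SH (nn nn_nonneg nn_neg one_le_nn bb mem_bb bb_neg nn_eq_zero)

/-- the cube root of two -/
noncomputable def rho : ℝ := (2 : ℝ) ^ (1 / 3 : ℝ)

lemma rho_cube : rho ^ 3 = 2 := by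
  unfold rho
  rw [← Real.rpow_natCast, ← Real.rpow_mul (by norm_num)]
  norm_num

lemma rho_pos : 0 < rho := by unfold rho; positivity

lemma one_lt_rho : 1 < rho := by
  by_contra h
  have h1 := pow_le_pow_left₀ rho_pos.le (not_lt.1 h) 3
  rw [rho_cube] at h1
  norm_num at h1

/-- number of the shell -/
noncomputable def sh (k : K) : ℕ := Nat.clog 2 (H459R3.NS.N k)

lemma nn_le_sh (k : K) : nn k ≤ 2 ^ sh k := by
  have h := Nat.le_pow_clog (b := 2) (by norm_num) (H459R3.NS.N k)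
  unfold nn sh
  exact_mod_cast h

lemma sh_le (k : K) (hk : k ≠ 0) : (2 : ℝ) ^ sh k ≤ 2 * nn k := by
  have h1 : 1 ≤ H459R3.NS.N k := by
    have := one_le_nn hk
    unfold nn at this
    exact_mod_cast this
  rcases Nat.eq_or_lt_of_le h1 with h2 | h2
  · have : sh k = 0 := by unfold sh; rw [← h2]; simp
    rw [this]
    have := one_le_nn hk
    linarith
  · have h3 := Nat.pow_pred_clog_lt_self (b := 2) (by norm_num) h2
    have h4 : 0 < Nat.clog 2 (H459R3.NS.N k) := Nat.clog_pos (by norm_num) h2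
    have h5 : (2 : ℝ) ^ (sh k).pred < nn k := by
      unfold sh nn
      exact_mod_cast h3
    have h6 : sh k = (sh k).pred + 1 := by
      unfold sh
      exact (Nat.succ_pred_eq_of_pos h4).symm
    rw [h6, pow_succ]
    linarith

/-- the shell -/
noncomputable def Sh (a : ℕ) : Finset K := (bb (2 ^ a)).filter fun k => k ≠ 0 ∧ sh k = a

lemma mem_Sh {a : ℕ} {k : K} : k ∈ Sh a ↔ k ≠ 0 ∧ sh k = a := by
  unfold Sh
  rw [Finset.mem_filter, mem_bb]
  refine ⟨fun h => h.2, fun h => ⟨?_, h⟩⟩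
  have := nn_le_sh k
  rw [h.2] at this
  exact_mod_cast this

lemma sh_neg (k : K) : sh (-k) = sh k := by unfold sh; rw [H459R3.NS.N_neg]

lemma Sh_succ (a : ℕ) : Sh (a + 1) = bb (2 ^ (a + 1)) \ bb (2 ^ a) := by
  ext k
  rw [mem_Sh, Finset.mem_sdiff, mem_bb, mem_bb]
  constructor
  · rintro ⟨h0, h1⟩
    have h2 := nn_le_sh k
    rw [h1] at h2
    refine ⟨by exact_mod_cast h2, fun h3 => ?_⟩
    have h4 : sh k ≤ a := by
      unfold sh
      refine Nat.clog_le_of_le_pow ?_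
      unfold nn at h3
      exact_mod_cast h3
    omega
  · rintro ⟨h1, h2⟩
    have h0 : k ≠ 0 := by
      rintro rfl
      apply h2
      rw [nn_eq_zero.2 rfl]
      positivity
    refine ⟨h0, le_antisymm ?_ ?_⟩
    · unfold sh
      refine Nat.clog_le_of_le_pow ?_
      unfold nn at h1
      exact_mod_cast h1
    · by_contra h3
      apply h2
      have h4 : sh k ≤ a := by omega
      refine (nn_le_sh k).trans ?_
      push_cast
      exact pow_le_pow_right₀ (by norm_num) h4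

lemma Sh_zero : Sh 0 = bb (2 ^ 0) \ {0} := by
  ext k
  rw [mem_Sh, Finset.mem_sdiff, mem_bb, Finset.mem_singleton]
  constructor
  · rintro ⟨h0, h1⟩
    refine ⟨?_, h0⟩
    have h2 := nn_le_sh k
    rw [h1] at h2
    exact_mod_cast h2
  · rintro ⟨h1, h0⟩
    refine ⟨h0, Nat.le_zero.1 ?_⟩
    unfold sh
    refine Nat.clog_le_of_le_pow ?_
    unfold nn at h1
    exact_mod_cast h1

lemma card_bb (M : ℕ) : ((bb M).card : ℝ) = (2 * M + 1) ^ 3 := by
  unfold bb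
  have : (Finset.Icc (fun _ : Fin 3 => -(M : ℤ)) (fun _ => (M : ℤ))).card = (2 * M + 1) ^ 3 := by
    rw [Pi.card_Icc]
    simp only [Int.card_Icc, Finset.prod_const, Finset.card_univ, Fintype.card_fin]
    congr 1
    omega
  rw [this]
  push_cast
  ring

lemma card_Sh (a : ℕ) : ((Sh a).card : ℝ) ≤ 27 * 8 ^ a := by
  have h1 : ((Sh a).card : ℝ) ≤ (bb (2 ^ a)).card := by
    exact_mod_cast Finset.card_le_card (Finset.filter_subset _ _)
  refine h1.trans ?_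
  rw [card_bb]
  have h2 : (1 : ℝ) ≤ 2 ^ a := one_le_pow₀ (by norm_num)
  push_cast
  calc (2 * (2 : ℝ) ^ a + 1) ^ 3 ≤ (3 * (2 : ℝ) ^ a) ^ 3 :=
        pow_le_pow_left₀ (by positivity) (by linarith) 3
    _ = 27 * (((2 : ℝ) ^ a) ^ 3) := by ring
    _ = 27 * 8 ^ a := by rw [← pow_mul, mul_comm a 3, pow_mul]; norm_num

/-- The set `S` is uniformly close to its mean `p`, and `p` is small. -/
structure Dev (S : Set K) (p : K → ℝ) (Kc Cp : ℝ) : Prop where
  p0 : ∀ k, 0 ≤ p k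
  p1 : ∀ k, p k ≤ 1
  C0 : 0 ≤ Cp
  pu : ∀ k, k ≠ 0 → p k ^ 3 * nn k ≤ Cp ^ 3
  D : ∀ (n : ℕ) (x : E3), ‖∑ k ∈ bb (2 ^ n), ((S.indicator 1 k - p k : ℝ) : ℂ) * ex k x‖ ≤ Kc * 4 ^ n

variable {S : Set K} {p : K → ℝ} {Kc Cp : ℝ}

lemma ex_neg_arg (k : K) (x : E3) : ex (-k) x = ex k (-x) := by
  unfold ex
  congr 2
  refine Finset.sum_congr rfl fun j _ => ?_
  simp

lemma Dev.neg (h : Dev S p Kc Cp) : Dev {k | -k ∈ S} (fun k => p (-k)) Kc Cp where
  p0 := fun k => h.p0 _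
  p1 := fun k => h.p1 _
  C0 := h.C0
  pu := fun k hk => by rw [← nn_neg]; exact h.pu (-k) (neg_ne_zero.2 hk)
  D := fun n x => by
    refine le_trans (le_of_eq ?_) (h.D n (-x))
    congr 1
    refine Finset.sum_nbij' (fun k => -k) (fun k => -k) (fun k hk => bb_neg k hk)
      (fun k hk => bb_neg k hk) (fun k _ => neg_neg k) (fun k _ => neg_neg k) fun k _ => ?_
    have e : ({k | -k ∈ S} : Set K).indicator (1 : K → ℝ) k = S.indicator 1 (-k) := by
      by_cases hk : -k ∈ S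
      · rw [indicator_of_mem (show k ∈ {k | -k ∈ S} from hk), indicator_of_mem hk]; rfl
      · rw [indicator_of_notMem (show k ∉ {k | -k ∈ S} from hk), indicator_of_notMem hk]
    rw [e, ← ex_neg_arg, neg_neg]

lemma Dev.K0 (h : Dev S p Kc Cp) : 0 ≤ Kc := by
  have := (norm_nonneg _).trans (h.D 0 0)
  simpa using this

/-- the deviation on a shell -/
lemma Dev.shell (h : Dev S p Kc Cp) (a : ℕ) (x : E3) :
    ‖∑ k ∈ Sh a, ((S.indicator 1 k - p k : ℝ) : ℂ) * ex k x‖ ≤ (2 * Kc + 1) * 4 ^ a := by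
  have hK := h.K0
  cases a with
  | zero =>
    rw [Sh_zero]
    have h0 : (0 : K) ∈ bb (2 ^ 0) := by rw [mem_bb, nn_eq_zero.2 rfl]; positivity
    have h1 := Finset.sum_sdiff (f := fun k => ((S.indicator 1 k - p k : ℝ) : ℂ) * ex k x)
      (Finset.singleton_subset_iff.2 h0)
    rw [Finset.sum_singleton] at h1
    rw [eq_sub_of_add_eq h1]
    refine (norm_sub_le _ _).trans ?_
    have h2 := h.D 0 x
    have h3 : ‖((S.indicator 1 (0 : K) - p 0 : ℝ) : ℂ) * ex 0 x‖ ≤ 1 := by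
      rw [norm_mul, norm_ex, mul_one, Complex.norm_real, Real.norm_eq_abs]
      have := h.p0 0
      have := h.p1 0
      rw [abs_le]
      by_cases hk : (0 : K) ∈ S
      · rw [indicator_of_mem hk]; simp only [Pi.one_apply]; constructor <;> linarith
      · rw [indicator_of_notMem hk]; constructor <;> linarith
    simp only [pow_zero, mul_one] at *
    linarith
  | succ a =>
    rw [Sh_succ]
    have h0 : bb (2 ^ a) ⊆ bb (2 ^ (a + 1)) := by
      intro k hk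
      rw [mem_bb] at *
      refine hk.trans ?_
      push_cast
      exact pow_le_pow_right₀ (by norm_num) (Nat.le_succ a)
    have h1 := Finset.sum_sdiff (f := fun k => ((S.indicator 1 k - p k : ℝ) : ℂ) * ex k x) h0
    rw [eq_sub_of_add_eq h1]
    refine (norm_sub_le _ _).trans ?_
    have h2 := h.D a x
    have h3 := h.D (a + 1) x
    have h4 : (0 : ℝ) < 4 ^ a := by positivity
    have h5 : (4 : ℝ) ^ (a + 1) = 4 * 4 ^ a := pow_succ' _ _
    rw [h5] at h3 ⊢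
    nlinarith [mul_nonneg hK h4.le]

/-- bound for the mean on a shell -/
lemma Dev.mean (h : Dev S p Kc Cp) {a : ℕ} {k : K} (hk : k ∈ Sh a) : p k ≤ Cp * rho / rho ^ a := by
  rw [mem_Sh] at hk
  have h1 := h.pu k hk.1
  have h2 := sh_le k hk.1
  rw [hk.2] at h2
  have hr := rho_pos
  have h0 : 0 ≤ Cp * rho / rho ^ a := div_nonneg (mul_nonneg h.C0 hr.le) (by positivity)
  refine le_of_pow_le_pow_left₀ (n := 3) (by norm_num) h0 ?_
  have e1 : (Cp * rho / rho ^ a) ^ 3 = Cp ^ 3 * 2 / 2 ^ a := by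
    rw [div_pow, mul_pow, rho_cube, ← pow_mul, mul_comm a 3, pow_mul, rho_cube]
  rw [e1, le_div_iff₀ (by positivity)]
  have h3 : 0 ≤ p k ^ 3 := pow_nonneg (h.p0 k) 3
  nlinarith

/-- the number of frequencies in a shell -/
lemma Dev.count (h : Dev S p Kc Cp) {a : ℕ} {B : Finset K} (hB : ∀ k ∈ B, k ∈ S ∧ k ∈ Sh a) :
    (B.card : ℝ) ≤ (54 * Cp + 2 * Kc + 1) * (rho ^ (4 * a)) ^ 2 := by
  have hr := rho_pos
  have hK := h.K0
  have hC := h.C0
  have h8 : (8 : ℝ) ^ a = rho ^ (9 * a) := by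
    rw [pow_mul]; congr 1
    have : rho ^ 9 = (rho ^ 3) ^ 3 := by ring
    rw [this, rho_cube]; norm_num
  have h4 : (4 : ℝ) ^ a = rho ^ (6 * a) := by
    rw [pow_mul]; congr 1
    have : rho ^ 6 = (rho ^ 3) ^ 2 := by ring
    rw [this, rho_cube]; norm_num
  have h1 : (B.card : ℝ) ≤ ∑ k ∈ Sh a, S.indicator (1 : K → ℝ) k := by
    calc (B.card : ℝ) = ∑ k ∈ B, S.indicator (1 : K → ℝ) k := by
          rw [Finset.sum_congr rfl fun k hk => indicator_of_mem (hB k hk).1 _]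
          simp
      _ ≤ _ := Finset.sum_le_sum_of_subset_of_nonneg (fun k hk => (hB k hk).2)
          fun k _ _ => indicator_nonneg (fun _ _ => zero_le_one) k
  have h2 : ∑ k ∈ Sh a, S.indicator (1 : K → ℝ) k = ∑ k ∈ Sh a, p k
      + ∑ k ∈ Sh a, (S.indicator (1 : K → ℝ) k - p k) := by
    rw [← Finset.sum_add_distrib]; exact Finset.sum_congr rfl fun k _ => by ring
  have h3 : ∑ k ∈ Sh a, p k ≤ 27 * 8 ^ a * (Cp * rho / rho ^ a) := by
    calc ∑ k ∈ Sh a, p k ≤ ∑ _k ∈ Sh a, Cp * rho / rho ^ a := Finset.sum_le_sum fun k hk => h.mean hk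
      _ = (Sh a).card * (Cp * rho / rho ^ a) := by rw [Finset.sum_const, nsmul_eq_mul]
      _ ≤ _ := mul_le_mul_of_nonneg_right (card_Sh a)
          (div_nonneg (mul_nonneg hC hr.le) (by positivity))
  have h5 : ∑ k ∈ Sh a, (S.indicator (1 : K → ℝ) k - p k) ≤ (2 * Kc + 1) * 4 ^ a := by
    have h6 := h.shell a 0
    have h7 : ∀ k, ex k (0 : E3) = 1 := fun k => by unfold ex; simp
    simp only [h7, mul_one] at h6
    rw [← Complex.ofReal_sum, Complex.norm_real] at h6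
    exact (le_abs_self _).trans h6
  have h9 : 27 * 8 ^ a * (Cp * rho / rho ^ a) ≤ 54 * Cp * (rho ^ (4 * a)) ^ 2 := by
    have e1 : (27 : ℝ) * 8 ^ a * (Cp * rho / rho ^ a) = 27 * rho * Cp * rho ^ (8 * a) := by
      rw [h8, show 9 * a = 8 * a + a by ring, pow_add]
      field_simp
    have e2 : rho ≤ 2 := by
      have h10 := one_lt_rho
      have h11 := rho_cube
      nlinarith [sq_nonneg (rho - 1), sq_nonneg (rho + 1)]
    rw [e1, ← pow_mul, show 4 * a * 2 = 8 * a by ring]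
    apply mul_le_mul_of_nonneg_right _ (by positivity)
    nlinarith
  have h12 : (4 : ℝ) ^ a ≤ (rho ^ (4 * a)) ^ 2 := by
    rw [h4, ← pow_mul, show 4 * a * 2 = 8 * a by ring]
    exact pow_le_pow_right₀ one_lt_rho.le (by omega)
  have h13 : (2 * Kc + 1) * 4 ^ a ≤ (2 * Kc + 1) * (rho ^ (4 * a)) ^ 2 :=
    mul_le_mul_of_nonneg_left h12 (by linarith)
  rw [add_assoc, add_mul]
  linarith

/-- The constant of the shells. -/
noncomputable def Mc (Kc Cp : ℝ) : ℝ := √(2 * (2 * Kc + 1)) + 4 * Cp * √(54 * Cp + 2 * Kc + 1)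

lemma Mc_nonneg (hC : 0 ≤ Cp) : 0 ≤ Mc Kc Cp := by unfold Mc; positivity

theorem Dev.l3 (h : Dev S p Kc Cp) {a : ℕ} {B : Finset K} (hB : ∀ k ∈ B, k ∈ S ∧ k ∈ Sh a)
    (c : K → ℂ) : ∫ x in Q3, ‖∑ k ∈ B, c k * ex k x‖ ^ 3 ≤
      Mc Kc Cp * 2 ^ a * √(∑ k ∈ B, ‖c k‖ ^ 2) ^ 3 := by
  have hr := rho_pos
  have hK := h.K0
  have hC := h.C0
  set n := √(∑ k ∈ B, ‖c k‖ ^ 2) with hn
  have hn0 : 0 ≤ n := Real.sqrt_nonneg _
  have hn2 : n ^ 2 = ∑ k ∈ B, ‖c k‖ ^ 2 := Real.sq_sqrt (Finset.sum_nonneg fun _ _ => by positivity)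
  set Φ := √(54 * Cp + 2 * Kc + 1) * rho ^ (4 * a) * n with hΦ
  have hΦb : ∀ x, ‖∑ k ∈ B, c k * ex k x‖ ≤ Φ := by
    intro x
    have h1 : ‖∑ k ∈ B, c k * ex k x‖ ≤ ∑ k ∈ B, 1 * ‖c k‖ := by
      refine (norm_sum_le _ _).trans (Finset.sum_le_sum fun k _ => ?_)
      rw [norm_mul, norm_ex, mul_one, one_mul]
    have h2 : (∑ k ∈ B, 1 * ‖c k‖) ^ 2 ≤ (B.card : ℝ) * n ^ 2 := by
      refine (Finset.sum_mul_sq_le_sq_mul_sq _ _ _).trans (le_of_eq ?_)
      rw [hn2]; simp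
    have h3 := h.count hB
    have h4 : (∑ k ∈ B, 1 * ‖c k‖) ^ 2 ≤ Φ ^ 2 := by
      refine h2.trans ?_
      have h5 := Real.sq_sqrt (show 0 ≤ 54 * Cp + 2 * Kc + 1 by positivity)
      rw [hΦ, mul_pow, mul_pow, h5]
      exact mul_le_mul_of_nonneg_right h3 (by positivity)
    exact h1.trans (le_of_sq_le_sq h4 (by positivity))
  have h1 := RD.l3 (Q := Sh a) (B := B) (fun k hk => (hB k hk).2) (ξ := S.indicator 1) (p := p)
    (fun k => indicator_nonneg (fun _ _ => zero_le_one) k)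
    (fun k hk => by rw [indicator_of_mem (hB k hk).1]; rfl)
    (p0 := Cp * rho / rho ^ a) (by positivity) (fun k hk => h.mean hk)
    (A := (2 * Kc + 1) * 4 ^ a) (by positivity) (h.shell a) c hΦb
  rw [← hn, ← hn2] at h1
  refine h1.trans ?_
  have e1 : √(2 * ((2 * Kc + 1) * 4 ^ a)) = √(2 * (2 * Kc + 1)) * 2 ^ a := by
    rw [← mul_assoc, Real.sqrt_mul (by positivity)]
    congr 1
    rw [show (4 : ℝ) ^ a = (2 ^ a) ^ 2 by rw [← pow_mul, mul_comm, pow_mul]; norm_num]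
    exact Real.sqrt_sq (by positivity)
  have e2 : 2 * (Cp * rho / rho ^ a) * Φ = 2 * rho * Cp * √(54 * Cp + 2 * Kc + 1) * 2 ^ a * n := by
    have h2a : (2 : ℝ) ^ a = rho ^ (3 * a) := by rw [pow_mul, rho_cube]
    rw [hΦ, h2a, show 4 * a = 3 * a + a by ring, pow_add]
    field_simp
  have e3 : rho ≤ 2 := by
    have h10 := one_lt_rho
    have h11 := rho_cube
    nlinarith [sq_nonneg (rho - 1), sq_nonneg (rho + 1)]
  rw [e1, e2]
  unfold Mc
  have h5 : 2 * rho * Cp * √(54 * Cp + 2 * Kc + 1) * 2 ^ a * n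
      ≤ 4 * Cp * √(54 * Cp + 2 * Kc + 1) * 2 ^ a * n := by
    have h6 : 2 * rho * Cp ≤ 4 * Cp := by nlinarith
    have h7 : 0 ≤ √(54 * Cp + 2 * Kc + 1) * 2 ^ a * n := by positivity
    nlinarith
  have h8 : 0 ≤ n ^ 2 := by positivity
  calc (√(2 * (2 * Kc + 1)) * 2 ^ a * n + 2 * rho * Cp * √(54 * Cp + 2 * Kc + 1) * 2 ^ a * n) * n ^ 2
      ≤ (√(2 * (2 * Kc + 1)) * 2 ^ a * n + 4 * Cp * √(54 * Cp + 2 * Kc + 1) * 2 ^ a * n) * n ^ 2 := by
        apply mul_le_mul_of_nonneg_right _ h8; linarith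
    _ = _ := by ring

end Pool.Agent.K1H29.RD
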