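import Pool.Agent.K1H29.RD.GN

/-!
# Summation over the shells
-/

open MeasureTheory Set ComplexConjugate

namespace Pool.Agent.K1H29.RD

open Pool.Agent.H356R3.NS (K E3 Q3 ex ex_neg ex_cont norm_ex)
open Pool.Agent.K1H29.SH (nn nn_nonneg nn_neg one_le_nn bb mem_bb bb_neg nn_eq_zero nn_le_nk)

lemma geo_min {r : ℝ} (hr : 1 < r) {s : ℝ} (hs : 0 < s) (n : ℕ) :
    ∑ a ∈ Finset.range n, min (s * r ^ a) (1 / (s * r ^ a)) ≤ 2 * (1 + r) / (r - 1) := by
  have hr0 : 0 < r := by linarith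
  set ψ : ℕ → ℝ := fun a => (s * r ^ a) / (1 + s * r ^ a) with hψ
  have h1 : ∀ a, min (s * r ^ a) (1 / (s * r ^ a)) ≤ 2 * (1 + r) / (r - 1) * (ψ (a + 1) - ψ a) := by
    intro a
    have hy : 0 < s * r ^ a := by positivity
    have e : s * r ^ (a + 1) = r * (s * r ^ a) := by rw [pow_succ]; ring
    simp only [hψ, e]
    generalize s * r ^ a = y at hy
    have h2 : 2 * (1 + r) / (r - 1) * (r * y / (1 + r * y) - y / (1 + y))
        = 2 * (1 + r) * y / ((1 + r * y) * (1 + y)) := by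
      have : r - 1 ≠ 0 := by linarith
      field_simp
      ring
    rw [h2]
    rcases le_or_gt y 1 with h3 | h3
    · refine (min_le_left _ _).trans ?_
      rw [le_div_iff₀ (by positivity)]
      have h4 : (1 + r * y) * (1 + y) ≤ (1 + r) * 2 := by
        apply mul_le_mul _ (by linarith) (by linarith) (by linarith)
        nlinarith
      nlinarith
    · refine (min_le_right _ _).trans ?_
      rw [div_le_div_iff₀ hy (by positivity)]
      nlinarith [mul_pos hr0 hy, mul_pos (mul_pos hr0 hy) hy]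
  refine (Finset.sum_le_sum fun a _ => h1 a).trans ?_
  rw [← Finset.mul_sum, Finset.sum_range_sub]
  have h2 : ψ n - ψ 0 ≤ 1 := by
    have h3 : ψ n ≤ 1 := by
      simp only [hψ]
      rw [div_le_one (by positivity)]
      linarith
    have h4 : 0 ≤ ψ 0 := by simp only [hψ]; positivity
    linarith
  have h5 : 0 ≤ 2 * (1 + r) / (r - 1) := div_nonneg (by linarith) (by linarith)
  calc _ ≤ 2 * (1 + r) / (r - 1) * 1 := mul_le_mul_of_nonneg_left h2 h5
    _ = _ := mul_one _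

/-- weighted power mean inequality -/
lemma cube_sum {n : ℕ} {x v : ℕ → ℝ} (hx : ∀ a, 0 ≤ x a) (hv : ∀ a, 0 < v a) :
    (∑ a ∈ Finset.range n, x a) ^ 3 ≤
      (∑ a ∈ Finset.range n, v a) ^ 2 * ∑ a ∈ Finset.range n, x a ^ 3 / v a ^ 2 := by
  rcases Nat.eq_zero_or_pos n with h | h
  · subst h; simp
  set V := ∑ a ∈ Finset.range n, v a with hV
  have hV0 : 0 < V := Finset.sum_pos (fun a _ => hv a) (Finset.nonempty_range_iff.2 h.ne')
  have h1 := Real.pow_arith_mean_le_arith_mean_pow (Finset.range n) (fun a => v a / V)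
    (fun a => x a * V / v a) (fun a _ => (div_pos (hv a) hV0).le)
    (by rw [← Finset.sum_div, ← hV, div_self hV0.ne'])
    (fun a _ => div_nonneg (mul_nonneg (hx a) hV0.le) (hv a).le) 3
  have e1 : ∑ a ∈ Finset.range n, v a / V * (x a * V / v a) = ∑ a ∈ Finset.range n, x a :=
    Finset.sum_congr rfl fun a _ => by have := (hv a).ne'; field_simp
  have e2 : ∑ a ∈ Finset.range n, v a / V * (x a * V / v a) ^ 3
      = V ^ 2 * ∑ a ∈ Finset.range n, x a ^ 3 / v a ^ 2 := by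
    rw [Finset.mul_sum]
    exact Finset.sum_congr rfl fun a _ => by have := (hv a).ne'; field_simp
  rw [e1, e2] at h1
  exact h1

theorem planar_of_shells {Λ : Set K} {M : ℝ} (hM : 0 ≤ M) (h0 : (0 : K) ∉ Λ)
    (h : ∀ (a : ℕ) (B : Finset K) (c : K → ℂ), (∀ k ∈ B, k ∈ Λ ∧ k ∈ Sh a) →
      ∫ x in Q3, ‖∑ k ∈ B, c k * ex k x‖ ^ 3 ≤ M * 2 ^ a * √(∑ k ∈ B, ‖c k‖ ^ 2) ^ 3) :
    Planar Λ := by
  classical
  set c0 : ℝ := 2 * (1 + rho) / (rho - 1) with hc0
  have hc0p : 0 ≤ c0 := by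
    have := one_lt_rho
    exact div_nonneg (by linarith) (by linarith)
  refine ⟨M * c0 ^ 3 * 2, fun B c hB => ?_⟩
  show ∫ x in Q3, ‖∑ k ∈ B, c k * ex k x‖ ^ 3 ≤ _
  have hne : ∀ k ∈ B, k ≠ 0 := fun k hk h1 => h0 (h1 ▸ hB k hk)
  set N2 := ∑ k ∈ B, ‖c k‖ ^ 2 with hN2
  have hN20 : 0 ≤ N2 := Finset.sum_nonneg fun _ _ => by positivity
  rcases eq_or_lt_of_le hN20 with hz | hNpos
  · have ha : ∀ k ∈ B, c k = 0 := by
      intro k hk
      have := (Finset.sum_eq_zero_iff_of_nonneg (fun k _ => by positivity)).1 hz.symm k hk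
      simpa using this
    have : ∀ x, ∑ k ∈ B, c k * ex k x = 0 := fun x =>
      Finset.sum_eq_zero fun k hk => by rw [ha k hk, zero_mul]
    simp [this, ← hz]
  set W2 := ∑ k ∈ B, (2 ^ sh k) ^ 2 * ‖c k‖ ^ 2 with hW2
  have hNW : N2 ≤ W2 := Finset.sum_le_sum fun k _ =>
    le_mul_of_one_le_left (by positivity) (one_le_pow₀ (one_le_pow₀ (by norm_num)))
  have hWpos : 0 < W2 := hNpos.trans_le hNW
  set N := √N2
  set W := √W2
  have hN : 0 < N := Real.sqrt_pos.2 hNpos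
  have hW : 0 < W := Real.sqrt_pos.2 hWpos
  have hNs : N ^ 2 = N2 := Real.sq_sqrt hN20
  have hWs : W ^ 2 = W2 := Real.sq_sqrt hWpos.le
  -- shells
  set R : ℕ := (B.sup sh) + 1 with hR
  have hBR : ∀ k ∈ B, sh k ∈ Finset.range R := fun k hk => by
    rw [Finset.mem_range]
    have : sh k ≤ B.sup sh := Finset.le_sup hk
    omega
  set Ba : ℕ → Finset K := fun a => B.filter fun k => sh k = a with hBa
  set n : ℕ → ℝ := fun a => √(∑ k ∈ Ba a, ‖c k‖ ^ 2) with hn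
  have hn0 : ∀ a, 0 ≤ n a := fun a => Real.sqrt_nonneg _
  have hns : ∀ a, n a ^ 2 = ∑ k ∈ Ba a, ‖c k‖ ^ 2 := fun a =>
    Real.sq_sqrt (Finset.sum_nonneg fun _ _ => by positivity)
  have hnN : ∀ a, n a ≤ N := fun a => Real.sqrt_le_sqrt
    (Finset.sum_le_sum_of_subset_of_nonneg (Finset.filter_subset _ _) fun _ _ _ => by positivity)
  have hnW : ∀ a, 2 ^ a * n a ≤ W := by
    intro a
    refine Real.le_sqrt_of_sq_le ?_
    rw [mul_pow, hns, Finset.mul_sum]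
    calc ∑ k ∈ Ba a, ((2 : ℝ) ^ a) ^ 2 * ‖c k‖ ^ 2 = ∑ k ∈ Ba a, (2 ^ sh k) ^ 2 * ‖c k‖ ^ 2 :=
          Finset.sum_congr rfl fun k hk => by rw [(Finset.mem_filter.1 hk).2]
      _ ≤ _ := Finset.sum_le_sum_of_subset_of_nonneg (Finset.filter_subset _ _)
          fun _ _ _ => by positivity
  set s : ℝ := (N / W) ^ (1 / 3 : ℝ) with hs
  have hsp : 0 < s := by positivity
  have hs3 : s ^ 3 = N / W := by
    rw [hs, ← Real.rpow_natCast, ← Real.rpow_mul (by positivity)]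
    norm_num
  set v : ℕ → ℝ := fun a => min (s * rho ^ a) (1 / (s * rho ^ a)) with hv
  have hr := rho_pos
  have hv0 : ∀ a, 0 < v a := fun a => lt_min (by positivity) (by positivity)
  have hkey : ∀ a, 2 ^ a * n a ^ 3 ≤ N ^ 2 * W * v a ^ 3 := by
    intro a
    have e2 : (2 : ℝ) ^ a = (rho ^ a) ^ 3 := by rw [← pow_mul, mul_comm, pow_mul, rho_cube]
    have h1 := hnN a
    have h2 := hnW a
    have h3 := hn0 a
    rcases min_choice (s * rho ^ a) (1 / (s * rho ^ a)) with h4 | h4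
    · simp only [hv, h4]
      rw [mul_pow, hs3, ← e2]
      have e3 : N ^ 2 * W * (N / W * 2 ^ a) = 2 ^ a * N ^ 3 := by field_simp
      rw [e3]
      exact mul_le_mul_of_nonneg_left (pow_le_pow_left₀ h3 h1 3) (by positivity)
    · simp only [hv, h4]
      rw [div_pow, mul_pow, hs3, ← e2]
      have e3 : N ^ 2 * W * (1 ^ 3 / (N / W * 2 ^ a)) = N * W ^ 2 / 2 ^ a := by field_simp
      rw [e3, le_div_iff₀ (by positivity)]
      have h5 : (2 ^ a * n a) ^ 2 ≤ W ^ 2 := pow_le_pow_left₀ (by positivity) h2 2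
      calc (2 : ℝ) ^ a * n a ^ 3 * 2 ^ a = n a * (2 ^ a * n a) ^ 2 := by ring
        _ ≤ N * W ^ 2 := mul_le_mul h1 h5 (by positivity) hN.le
  set V := ∑ a ∈ Finset.range R, v a with hV
  have hV0 : 0 ≤ V := Finset.sum_nonneg fun a _ => (hv0 a).le
  have hVc : V ≤ c0 := geo_min one_lt_rho hsp R
  -- pointwise
  have hpt : ∀ x, ‖∑ k ∈ B, c k * ex k x‖ ^ 3 ≤
      V ^ 2 * ∑ a ∈ Finset.range R, ‖∑ k ∈ Ba a, c k * ex k x‖ ^ 3 / v a ^ 2 := by
    intro x
    refine le_trans ?_ (cube_sum (fun a => norm_nonneg _) hv0)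
    apply pow_le_pow_left₀ (norm_nonneg _)
    rw [← Finset.sum_fiberwise_of_maps_to hBR]
    exact norm_sum_le _ _
  have hcont : ∀ B' : Finset K, Continuous fun x => ‖∑ k ∈ B', c k * ex k x‖ ^ 3 := fun B' =>
    (continuous_finsetSum _ fun k _ => continuous_const.mul (ex_cont k)).norm.pow 3
  have hint : ∀ B' : Finset K, Integrable (fun x => ‖∑ k ∈ B', c k * ex k x‖ ^ 3)
      (volume.restrict Q3) := fun B' =>
    (hcont B').continuousOn.integrableOn_compact isCompact_Icc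
  have h1 : ∫ x in Q3, ‖∑ k ∈ B, c k * ex k x‖ ^ 3 ≤
      V ^ 2 * ∑ a ∈ Finset.range R, (∫ x in Q3, ‖∑ k ∈ Ba a, c k * ex k x‖ ^ 3) / v a ^ 2 := by
    have e : V ^ 2 * ∑ a ∈ Finset.range R, (∫ x in Q3, ‖∑ k ∈ Ba a, c k * ex k x‖ ^ 3) / v a ^ 2
        = ∫ x in Q3, V ^ 2 * ∑ a ∈ Finset.range R, ‖∑ k ∈ Ba a, c k * ex k x‖ ^ 3 / v a ^ 2 := by
      rw [integral_const_mul, integral_finsetSum _ fun a _ => (hint _).div_const _]
      congr 1
      exact Finset.sum_congr rfl fun a _ => (integral_div _ _).symm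
    rw [e]
    exact integral_mono_of_nonneg (Filter.Eventually.of_forall fun x => by positivity)
      ((integrable_finsetSum _ fun a _ => (hint _).div_const _).const_mul _)
      (Filter.Eventually.of_forall hpt)
  have h2 : ∑ a ∈ Finset.range R, (∫ x in Q3, ‖∑ k ∈ Ba a, c k * ex k x‖ ^ 3) / v a ^ 2
      ≤ M * N ^ 2 * W * V := by
    rw [hV, Finset.mul_sum]
    refine Finset.sum_le_sum fun a _ => ?_
    have h3 := h a (Ba a) c (fun k hk => by
      have := Finset.mem_filter.1 hk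
      exact ⟨hB k this.1, mem_Sh.2 ⟨hne k this.1, this.2⟩⟩)
    rw [div_le_iff₀ (pow_pos (hv0 a) 2)]
    calc _ ≤ M * 2 ^ a * n a ^ 3 := h3
      _ = M * (2 ^ a * n a ^ 3) := by ring
      _ ≤ M * (N ^ 2 * W * v a ^ 3) := mul_le_mul_of_nonneg_left (hkey a) hM
      _ = _ := by ring
  have hWle : W ≤ 2 * √(∑ k ∈ B, (∑ i, (k i : ℝ) ^ 2) * ‖c k‖ ^ 2) := by
    have e : (2 : ℝ) = √4 := by
      rw [show (4 : ℝ) = 2 ^ 2 by norm_num, Real.sqrt_sq (by norm_num)]
    rw [e, ← Real.sqrt_mul (by norm_num), Finset.mul_sum]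
    refine Real.sqrt_le_sqrt (Finset.sum_le_sum fun k hk => ?_)
    rw [← mul_assoc]
    apply mul_le_mul_of_nonneg_right _ (by positivity)
    have h4 := sh_le k (hne k hk)
    have h5 : nn k ^ 2 ≤ ∑ i, (k i : ℝ) ^ 2 := by
      have h6 := nn_le_nk k
      have h7 := pow_le_pow_left₀ (nn_nonneg k) h6 2
      rwa [Pool.Agent.H356R3.NS.nk_sq] at h7
    have h8 : ((2 : ℝ) ^ sh k) ^ 2 ≤ (2 * nn k) ^ 2 := pow_le_pow_left₀ (by positivity) h4 2
    nlinarith
  calc ∫ x in Q3, ‖∑ k ∈ B, c k * ex k x‖ ^ 3 ≤ V ^ 2 * (M * N ^ 2 * W * V) :=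
        h1.trans (mul_le_mul_of_nonneg_left h2 (by positivity))
    _ = M * V ^ 3 * N2 * W := by rw [← hNs]; ring
    _ ≤ M * c0 ^ 3 * N2 * (2 * √(∑ k ∈ B, (∑ i, (k i : ℝ) ^ 2) * ‖c k‖ ^ 2)) := by
        have h9 : V ^ 3 ≤ c0 ^ 3 := pow_le_pow_left₀ hV0 hVc 3
        apply mul_le_mul _ hWle hW.le (by positivity)
        apply mul_le_mul_of_nonneg_right _ hN20
        exact mul_le_mul_of_nonneg_left h9 hM
    _ = _ := by ring

/-- **The planar inequality** for a set whose indicator is uniformly close to its mean. -/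
theorem Dev.planar {S : Set K} {p : K → ℝ} {Kc Cp : ℝ} (h : Dev S p Kc Cp) :
    Planar {k | k ≠ 0 ∧ (k ∈ S ∨ -k ∈ S)} := by
  classical
  refine planar_of_shells (M := 8 * Mc Kc Cp) (mul_nonneg (by norm_num) (Mc_nonneg h.C0))
    (fun h0 => h0.1 rfl) fun a B c hB => ?_
  set B1 := B.filter fun k => k ∈ S
  set B2 := B.filter fun k => k ∉ S
  set n := √(∑ k ∈ B, ‖c k‖ ^ 2)
  have hn : 0 ≤ n := Real.sqrt_nonneg _
  have h1 := h.l3 (a := a) (B := B1) (fun k hk => by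
    have := Finset.mem_filter.1 hk
    exact ⟨this.2, (hB k this.1).2⟩) c
  have h2 := h.neg.l3 (a := a) (B := B2) (fun k hk => by
    have := Finset.mem_filter.1 hk
    refine ⟨?_, (hB k this.1).2⟩
    have h3 := (hB k this.1).1.2
    exact h3.resolve_left this.2) c
  have hM := Mc_nonneg (Kc := Kc) h.C0
  have hle : ∀ B' ⊆ B, Mc Kc Cp * 2 ^ a * √(∑ k ∈ B', ‖c k‖ ^ 2) ^ 3 ≤ Mc Kc Cp * 2 ^ a * n ^ 3 := by
    intro B' hB'
    apply mul_le_mul_of_nonneg_left _ (by positivity)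
    apply pow_le_pow_left₀ (Real.sqrt_nonneg _)
    exact Real.sqrt_le_sqrt (Finset.sum_le_sum_of_subset_of_nonneg hB' fun _ _ _ => by positivity)
  have h1' := h1.trans (hle B1 (Finset.filter_subset _ _))
  have h2' := h2.trans (hle B2 (Finset.filter_subset _ _))
  have hcont : ∀ B' : Finset K, Continuous fun x => ‖∑ k ∈ B', c k * ex k x‖ ^ 3 := fun B' =>
    (continuous_finsetSum _ fun k _ => continuous_const.mul (ex_cont k)).norm.pow 3
  have hint : ∀ B' : Finset K, Integrable (fun x => ‖∑ k ∈ B', c k * ex k x‖ ^ 3)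
      (volume.restrict Q3) := fun B' =>
    (hcont B').continuousOn.integrableOn_compact isCompact_Icc
  have hpt : ∀ x, ‖∑ k ∈ B, c k * ex k x‖ ^ 3 ≤
      4 * (‖∑ k ∈ B1, c k * ex k x‖ ^ 3 + ‖∑ k ∈ B2, c k * ex k x‖ ^ 3) := by
    intro x
    have e : ∑ k ∈ B, c k * ex k x = ∑ k ∈ B1, c k * ex k x + ∑ k ∈ B2, c k * ex k x :=
      (Finset.sum_filter_add_sum_filter_not B (fun k => k ∈ S) _).symm
    rw [e]
    refine (pow_le_pow_left₀ (norm_nonneg _) (norm_add_le _ _) 3).trans ?_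
    have hx := norm_nonneg (∑ k ∈ B1, c k * ex k x)
    have hy := norm_nonneg (∑ k ∈ B2, c k * ex k x)
    generalize ‖∑ k ∈ B1, c k * ex k x‖ = X at *
    generalize ‖∑ k ∈ B2, c k * ex k x‖ = Y at *
    nlinarith [mul_nonneg (add_nonneg hx hy) (sq_nonneg (X - Y))]
  calc ∫ x in Q3, ‖∑ k ∈ B, c k * ex k x‖ ^ 3
      ≤ ∫ x in Q3, 4 * (‖∑ k ∈ B1, c k * ex k x‖ ^ 3 + ‖∑ k ∈ B2, c k * ex k x‖ ^ 3) :=
        integral_mono_of_nonneg (Filter.Eventually.of_forall fun x => by positivity)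
          (((hint _).add (hint _)).const_mul _) (Filter.Eventually.of_forall hpt)
    _ = 4 * ((∫ x in Q3, ‖∑ k ∈ B1, c k * ex k x‖ ^ 3)
        + ∫ x in Q3, ‖∑ k ∈ B2, c k * ex k x‖ ^ 3) := by
        rw [integral_const_mul, integral_add (hint _) (hint _)]
    _ ≤ 4 * (Mc Kc Cp * 2 ^ a * n ^ 3 + Mc Kc Cp * 2 ^ a * n ^ 3) := by linarith
    _ = _ := by ring

end Pool.Agent.K1H29.RD
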