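import Pool.Agent.H356R3.NS.Four2
import Pool.Agent.K1H29.RD.Defs

/-!
# The `L³` norm of trigonometric polynomials with frequencies in a random set
-/

open MeasureTheory Set ComplexConjugate

namespace Pool.Agent.K1H29.RD

open Pool.Agent.H356R3.NS (K E3 Q3 ex ex_neg ex_cont norm_ex ex_orthonormal inner_toLp ex_int
  ex_mul_conj)

theorem bessel' {g : E3 → ℂ} (hg : MemLp g 2 (volume.restrict Q3)) (S : Finset K) :
    ∑ l ∈ S, ‖∫ x in Q3, g x * ex (-l) x‖ ^ 2 ≤ ∫ x in Q3, ‖g x‖ ^ 2 := by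
  have h := ex_orthonormal.sum_inner_products_le (s := S) (x := hg.toLp g)
  have h2 : ‖hg.toLp g‖ ^ 2 = ∫ x in Q3, ‖g x‖ ^ 2 := by
    have h3 := inner_toLp hg hg
    have h4 : (‖hg.toLp g‖ ^ 2 : ℝ) = (∫ x in Q3, g x * conj (g x)).re := by
      rw [← h3, ← inner_self_eq_norm_sq (𝕜 := ℂ)]
      rfl
    rw [h4]
    have h5 : (∫ x in Q3, g x * conj (g x)) = ((∫ x in Q3, ‖g x‖ ^ 2 : ℝ) : ℂ) := by
      rw [← integral_complex_ofReal]
      congr 1
      funext x
      rw [Complex.mul_conj']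
      push_cast
      rfl
    rw [h5, Complex.ofReal_re]
  rw [← h2]
  refine le_trans (le_of_eq (Finset.sum_congr rfl fun l _ => ?_)) h
  rw [inner_toLp]
  congr 3
  funext x
  rw [ex_neg, Complex.star_def]

/-- Parseval -/
theorem l2 (B : Finset K) (a : K → ℂ) :
    ∫ x in Q3, ‖∑ k ∈ B, a k * ex k x‖ ^ 2 = ∑ k ∈ B, ‖a k‖ ^ 2 := by
  classical
  have hi : ∀ k, Integrable (ex k) (volume.restrict Q3) := fun k =>
    Integrable.of_bound (ex_cont k).aestronglyMeasurable 1
      (Filter.Eventually.of_forall fun x => (norm_ex k x).le)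
  have h1 : ((∫ x in Q3, ‖∑ k ∈ B, a k * ex k x‖ ^ 2 : ℝ) : ℂ) = ((∑ k ∈ B, ‖a k‖ ^ 2 : ℝ) : ℂ) := by
    rw [← integral_complex_ofReal]
    have e : ∀ x, ((‖∑ k ∈ B, a k * ex k x‖ ^ 2 : ℝ) : ℂ)
        = ∑ k ∈ B, ∑ m ∈ B, (a k * conj (a m)) * ex (k - m) x := by
      intro x
      push_cast
      rw [← Complex.mul_conj', map_sum, Finset.sum_mul_sum]
      refine Finset.sum_congr rfl fun k _ => Finset.sum_congr rfl fun m _ => ?_
      rw [map_mul, ← ex_mul_conj]
      ring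
    simp only [e]
    rw [integral_finsetSum _ fun k _ => integrable_finsetSum _ fun m _ => (hi _).const_mul _]
    rw [Complex.ofReal_sum]
    refine Finset.sum_congr rfl fun k hk => ?_
    rw [integral_finsetSum _ fun m _ => (hi _).const_mul _]
    rw [Finset.sum_eq_single k]
    · rw [integral_const_mul, ex_int, if_pos (sub_self k), mul_one, Complex.mul_conj']
      push_cast
      rfl
    · intro m _ hm
      rw [integral_const_mul, ex_int, if_neg (fun h => hm (sub_eq_zero.1 h).symm), mul_zero]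
    · intro h; exact absurd hk h
  exact_mod_cast h1

lemma ex_sub_arg (k : K) (x y : E3) : ex k (y - x) = ex k y * ex (-k) x := by
  unfold ex
  rw [← Complex.exp_add]
  congr 1
  rw [← mul_add, ← Finset.sum_add_distrib]
  congr 1
  refine Finset.sum_congr rfl fun j _ => ?_
  simp only [Pi.sub_apply, Pi.neg_apply]
  push_cast
  ring

/-- The key estimate: if the indicator `ξ` of a set of frequencies is uniformly close to its mean `p`,
then `∫ |F|³ ≤ ((2 A)^(1/2) |F|_2 + 2 p₀ |F|_∞) |F|_2²`. -/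
theorem l3 {Q B : Finset K} (hBQ : B ⊆ Q) {ξ p : K → ℝ} (hξ0 : ∀ k, 0 ≤ ξ k)
    (hξ : ∀ k ∈ B, 1 ≤ ξ k) {p0 : ℝ} (hp0 : 0 ≤ p0) (hp : ∀ k ∈ Q, p k ≤ p0) {A : ℝ} (hA : 0 < A)
    (hD : ∀ x, ‖∑ k ∈ Q, ((ξ k - p k : ℝ) : ℂ) * ex k x‖ ≤ A) (a : K → ℂ) {Φ : ℝ}
    (hΦ : ∀ x, ‖∑ k ∈ B, a k * ex k x‖ ≤ Φ) :
    ∫ x in Q3, ‖∑ k ∈ B, a k * ex k x‖ ^ 3 ≤
      (√(2 * A) * √(∑ k ∈ B, ‖a k‖ ^ 2) + 2 * p0 * Φ) * ∑ k ∈ B, ‖a k‖ ^ 2 := by
  set N2 : ℝ := ∑ k ∈ B, ‖a k‖ ^ 2 with hN2
  have hN0 : 0 ≤ N2 := Finset.sum_nonneg fun _ _ => by positivity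
  have hΦ0 : 0 ≤ Φ := (norm_nonneg _).trans (hΦ 0)
  rcases eq_or_lt_of_le hN0 with h0 | hNpos
  · have ha : ∀ k ∈ B, a k = 0 := by
      intro k hk
      have := (Finset.sum_eq_zero_iff_of_nonneg (fun k _ => by positivity)).1 h0.symm k hk
      simpa using this
    have : ∀ x, ∑ k ∈ B, a k * ex k x = 0 := fun x =>
      Finset.sum_eq_zero fun k hk => by rw [ha k hk, zero_mul]
    simp [this, ← h0]
  set F : E3 → ℂ := fun x => ∑ k ∈ B, a k * ex k x with hF
  have hFc : Continuous F := continuous_finsetSum _ fun k _ => continuous_const.mul (ex_cont k)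
  set l : ℝ := √(2 * A * N2) with hl
  have hl2 : l ^ 2 = 2 * A * N2 := Real.sq_sqrt (by positivity)
  have hlpos : 0 < l := Real.sqrt_pos.2 (by positivity)
  have hms : MeasurableSet {x | l < ‖F x‖} := measurableSet_lt measurable_const hFc.norm.measurable
  classical
  set g : E3 → ℂ := fun x => if l < ‖F x‖ then F x * (‖F x‖ : ℂ) else 0 with hg
  set h : E3 → ℝ := fun x => if l < ‖F x‖ then ‖F x‖ ^ 3 else 0 with hh
  have hgm : Measurable g := Measurable.ite hms
    (hFc.mul (Complex.continuous_ofReal.comp hFc.norm)).measurable measurable_const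
  have hhm : Measurable h := Measurable.ite hms (hFc.norm.pow 3).measurable measurable_const
  have hgb : ∀ x, ‖g x‖ ≤ Φ ^ 2 := by
    intro x
    simp only [hg]
    split_ifs
    · rw [norm_mul, Complex.norm_real, norm_norm, ← sq]
      exact pow_le_pow_left₀ (norm_nonneg _) (hΦ x) 2
    · simp only [norm_zero]; positivity
  have hh0 : ∀ x, 0 ≤ h x := by
    intro x; simp only [hh]; split_ifs <;> positivity
  have hhb : ∀ x, ‖h x‖ ≤ Φ ^ 3 := by
    intro x
    rw [Real.norm_of_nonneg (hh0 x)]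
    simp only [hh]
    split_ifs
    · exact pow_le_pow_left₀ (norm_nonneg _) (hΦ x) 3
    · positivity
  have hgi : Integrable g (volume.restrict Q3) :=
    Integrable.of_bound hgm.aestronglyMeasurable (Φ ^ 2) (Filter.Eventually.of_forall hgb)
  have hhi : Integrable h (volume.restrict Q3) :=
    Integrable.of_bound hhm.aestronglyMeasurable (Φ ^ 3) (Filter.Eventually.of_forall hhb)
  have hgL : MemLp g 2 (volume.restrict Q3) :=
    MemLp.of_bound hgm.aestronglyMeasurable (Φ ^ 2) (Filter.Eventually.of_forall hgb)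
  have hgexi : ∀ k, Integrable (fun x => g x * ex k x) (volume.restrict Q3) := fun k =>
    Integrable.of_bound (hgm.mul (ex_cont k).measurable).aestronglyMeasurable (Φ ^ 2)
      (Filter.Eventually.of_forall fun x => by rw [norm_mul, norm_ex, mul_one]; exact hgb x)
  set G : K → ℂ := fun k => ∫ x in Q3, g x * ex (-k) x with hG
  set I : ℝ := ∫ x in Q3, h x with hI
  have hI0 : 0 ≤ I := integral_nonneg hh0
  -- step 1
  have s1 : (I : ℂ) = ∑ k ∈ B, conj (a k) * G k := by
    have e1 : (I : ℂ) = ∫ x in Q3, ∑ k ∈ B, conj (a k) * (g x * ex (-k) x) := by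
      rw [hI, ← integral_complex_ofReal]
      congr 1
      funext x
      have e2 : conj (F x) = ∑ k ∈ B, conj (a k) * ex (-k) x := by
        simp only [hF, map_sum, map_mul]
        exact Finset.sum_congr rfl fun k _ => by rw [ex_neg, Complex.star_def]
      have e3 : ∑ k ∈ B, conj (a k) * (g x * ex (-k) x) = conj (F x) * g x := by
        rw [e2, Finset.sum_mul]
        exact Finset.sum_congr rfl fun k _ => by ring
      rw [e3]
      simp only [hh, hg]
      split_ifs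
      · rw [← mul_assoc, mul_comm (conj (F x)), Complex.mul_conj']
        push_cast
        ring
      · simp
    rw [e1, integral_finsetSum _ fun k _ => (hgexi (-k)).const_mul _]
    exact Finset.sum_congr rfl fun k _ => integral_const_mul _ _
  have s1' : I ^ 2 ≤ N2 * ∑ k ∈ B, ‖G k‖ ^ 2 := by
    have e1 : I ≤ ∑ k ∈ B, ‖a k‖ * ‖G k‖ := by
      have : I = ‖(I : ℂ)‖ := by rw [Complex.norm_real, Real.norm_of_nonneg hI0]
      rw [this, s1]
      refine (norm_sum_le _ _).trans (Finset.sum_le_sum fun k _ => ?_)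
      rw [norm_mul, RCLike.norm_conj]
    calc I ^ 2 ≤ (∑ k ∈ B, ‖a k‖ * ‖G k‖) ^ 2 := pow_le_pow_left₀ hI0 e1 2
      _ ≤ _ := Finset.sum_mul_sq_le_sq_mul_sq _ _ _
  -- step 2
  have s2 : ∑ k ∈ B, ‖G k‖ ^ 2 ≤ ∑ k ∈ Q, p k * ‖G k‖ ^ 2 + ∑ k ∈ Q, (ξ k - p k) * ‖G k‖ ^ 2 := by
    rw [← Finset.sum_add_distrib]
    calc ∑ k ∈ B, ‖G k‖ ^ 2 ≤ ∑ k ∈ B, ξ k * ‖G k‖ ^ 2 :=
          Finset.sum_le_sum fun k hk => le_mul_of_one_le_left (by positivity) (hξ k hk)
      _ ≤ ∑ k ∈ Q, ξ k * ‖G k‖ ^ 2 :=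
          Finset.sum_le_sum_of_subset_of_nonneg hBQ fun k _ _ => mul_nonneg (hξ0 k) (by positivity)
      _ = _ := Finset.sum_congr rfl fun k _ => by ring
  have s3 : ∑ k ∈ Q, p k * ‖G k‖ ^ 2 ≤ p0 * ∫ x in Q3, ‖g x‖ ^ 2 := by
    calc ∑ k ∈ Q, p k * ‖G k‖ ^ 2 ≤ ∑ k ∈ Q, p0 * ‖G k‖ ^ 2 :=
          Finset.sum_le_sum fun k hk => mul_le_mul_of_nonneg_right (hp k hk) (by positivity)
      _ = p0 * ∑ k ∈ Q, ‖G k‖ ^ 2 := by rw [Finset.mul_sum]
      _ ≤ _ := mul_le_mul_of_nonneg_left (bessel' hgL Q) hp0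
  -- step 4
  set J : ℝ := ∫ x in Q3, ‖g x‖ with hJ
  have hJ0 : 0 ≤ J := integral_nonneg fun x => norm_nonneg _
  have hker : ∀ y, ‖∑ k ∈ Q, ((ξ k - p k : ℝ) : ℂ) * G k * ex k y‖ ≤ A * J := by
    intro y
    have e1 : ∑ k ∈ Q, ((ξ k - p k : ℝ) : ℂ) * G k * ex k y
        = ∫ x in Q3, (∑ k ∈ Q, ((ξ k - p k : ℝ) : ℂ) * ex k (y - x)) * g x := by
      have e2 : ∀ x, (∑ k ∈ Q, ((ξ k - p k : ℝ) : ℂ) * ex k (y - x)) * g x
          = ∑ k ∈ Q, (((ξ k - p k : ℝ) : ℂ) * ex k y) * (g x * ex (-k) x) := by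
        intro x
        rw [Finset.sum_mul]
        exact Finset.sum_congr rfl fun k _ => by rw [ex_sub_arg]; ring
      simp only [e2]
      rw [integral_finsetSum _ fun k _ => (hgexi (-k)).const_mul _]
      refine Finset.sum_congr rfl fun k _ => ?_
      rw [integral_const_mul]
      simp only [hG]
      ring
    rw [e1, hJ, ← integral_const_mul]
    refine norm_integral_le_of_norm_le (hgi.norm.const_mul A) (Filter.Eventually.of_forall fun x => ?_)
    rw [norm_mul]
    exact mul_le_mul_of_nonneg_right (hD _) (norm_nonneg _)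
  have s4 : ∑ k ∈ Q, (ξ k - p k) * ‖G k‖ ^ 2 ≤ A * J ^ 2 := by
    have hcg : ∀ k, conj (G k) = ∫ y in Q3, ex k y * conj (g y) := by
      intro k
      simp only [hG]
      rw [← integral_conj]
      congr 1
      funext y
      have e : conj (ex (-k) y) = ex k y := by rw [← Complex.star_def, ← ex_neg, neg_neg]
      rw [map_mul, e]
      ring
    have hint : ∀ k, Integrable (fun y => ex k y * conj (g y)) (volume.restrict Q3) := fun k =>
      Integrable.of_bound ((ex_cont k).measurable.mul (Complex.continuous_conj.measurable.comp hgm)).aestronglyMeasurable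
        (Φ ^ 2) (Filter.Eventually.of_forall fun x => by
          rw [norm_mul, norm_ex, one_mul, RCLike.norm_conj]; exact hgb x)
    have e1 : ((∑ k ∈ Q, (ξ k - p k) * ‖G k‖ ^ 2 : ℝ) : ℂ)
        = ∫ y in Q3, (∑ k ∈ Q, ((ξ k - p k : ℝ) : ℂ) * G k * ex k y) * conj (g y) := by
      have e2 : ∀ y, (∑ k ∈ Q, ((ξ k - p k : ℝ) : ℂ) * G k * ex k y) * conj (g y)
          = ∑ k ∈ Q, (((ξ k - p k : ℝ) : ℂ) * G k) * (ex k y * conj (g y)) := by
        intro y
        rw [Finset.sum_mul]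
        exact Finset.sum_congr rfl fun k _ => by ring
      simp only [e2]
      rw [integral_finsetSum _ fun k _ => (hint k).const_mul _, Complex.ofReal_sum]
      refine Finset.sum_congr rfl fun k _ => ?_
      rw [integral_const_mul, ← hcg, Complex.ofReal_mul, mul_assoc, Complex.mul_conj']
      push_cast
      rfl
    have e3 : ∑ k ∈ Q, (ξ k - p k) * ‖G k‖ ^ 2
        ≤ ‖((∑ k ∈ Q, (ξ k - p k) * ‖G k‖ ^ 2 : ℝ) : ℂ)‖ := by
      rw [Complex.norm_real]; exact le_abs_self _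
    refine e3.trans ?_
    rw [e1]
    have e4 : A * J ^ 2 = ∫ y in Q3, (A * J) * ‖g y‖ := by
      rw [integral_const_mul, ← hJ]; ring
    rw [e4]
    refine norm_integral_le_of_norm_le (hgi.norm.const_mul _) (Filter.Eventually.of_forall fun y => ?_)
    rw [norm_mul, RCLike.norm_conj]
    exact mul_le_mul_of_nonneg_right (hker y) (norm_nonneg _)
  -- step 5
  have hgn : ∀ x, ‖g x‖ = if l < ‖F x‖ then ‖F x‖ ^ 2 else 0 := by
    intro x
    simp only [hg]
    split_ifs
    · rw [norm_mul, Complex.norm_real, norm_norm, sq]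
    · simp
  have s5 : ∫ x in Q3, ‖g x‖ ^ 2 ≤ Φ * I := by
    rw [hI, ← integral_const_mul]
    refine integral_mono_of_nonneg (Filter.Eventually.of_forall fun x => by positivity)
      (hhi.const_mul _) (Filter.Eventually.of_forall fun x => ?_)
    simp only [hgn, hh]
    split_ifs
    · have := hΦ x
      have h1 : (‖F x‖ ^ 2) ^ 2 = ‖F x‖ * ‖F x‖ ^ 3 := by ring
      rw [h1]
      exact mul_le_mul_of_nonneg_right this (by positivity)
    · simp
  have s6 : J ≤ I / l := by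
    rw [hI, hJ, le_div_iff₀ hlpos, ← integral_mul_const]
    refine integral_mono_of_nonneg (Filter.Eventually.of_forall fun x => by positivity) hhi
      (Filter.Eventually.of_forall fun x => ?_)
    simp only [hgn, hh]
    split_ifs with hx
    · have : ‖F x‖ ^ 3 = ‖F x‖ ^ 2 * ‖F x‖ := by ring
      rw [this]
      exact mul_le_mul_of_nonneg_left hx.le (by positivity)
    · simp
  -- step 6
  have s7 : I ≤ 2 * N2 * p0 * Φ := by
    have h1 : I ^ 2 ≤ N2 * (p0 * (Φ * I) + A * (I / l) ^ 2) := by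
      refine s1'.trans (mul_le_mul_of_nonneg_left ?_ hN0)
      refine s2.trans (add_le_add (s3.trans (mul_le_mul_of_nonneg_left s5 hp0)) (s4.trans ?_))
      exact mul_le_mul_of_nonneg_left (pow_le_pow_left₀ hJ0 s6 2) hA.le
    have h2 : N2 * (A * (I / l) ^ 2) = I ^ 2 / 2 := by
      rw [div_pow, hl2]
      field_simp
    have h3 : I ^ 2 ≤ 2 * N2 * p0 * Φ * I := by
      rw [mul_add, h2] at h1
      linarith
    rcases eq_or_lt_of_le hI0 with h4 | h4
    · rw [← h4]; positivity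
    · rw [sq] at h3
      exact le_of_mul_le_mul_right h3 h4
  -- step 7
  have hFsq : ∫ x in Q3, ‖F x‖ ^ 2 ≤ N2 := (l2 B a).le
  have s8 : ∫ x in Q3, ‖F x‖ ^ 3 ≤ l * N2 + I := by
    have h1 : ∀ x, ‖F x‖ ^ 3 ≤ l * ‖F x‖ ^ 2 + h x := by
      intro x
      simp only [hh]
      split_ifs with hx
      · have : 0 ≤ l * ‖F x‖ ^ 2 := by positivity
        linarith
      · rw [add_zero]
        have : ‖F x‖ ^ 3 = ‖F x‖ * ‖F x‖ ^ 2 := by ring
        rw [this]
        exact mul_le_mul_of_nonneg_right (not_lt.1 hx) (by positivity)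
    have h2 : Integrable (fun x => ‖F x‖ ^ 2) (volume.restrict Q3) :=
      Integrable.of_bound (hFc.norm.pow 2).aestronglyMeasurable (Φ ^ 2)
        (Filter.Eventually.of_forall fun x => by
          rw [Real.norm_of_nonneg (by positivity)]
          exact pow_le_pow_left₀ (norm_nonneg _) (hΦ x) 2)
    calc ∫ x in Q3, ‖F x‖ ^ 3 ≤ ∫ x in Q3, (l * ‖F x‖ ^ 2 + h x) :=
          integral_mono_of_nonneg (Filter.Eventually.of_forall fun x => by positivity)
            ((h2.const_mul _).add hhi) (Filter.Eventually.of_forall h1)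
      _ = l * (∫ x in Q3, ‖F x‖ ^ 2) + I := by
          rw [integral_add (h2.const_mul _) hhi, integral_const_mul]
      _ ≤ _ := by
          have := mul_le_mul_of_nonneg_left hFsq hlpos.le
          linarith
  have hl' : l = √(2 * A) * √N2 := by rw [hl, Real.sqrt_mul (by positivity)]
  calc ∫ x in Q3, ‖F x‖ ^ 3 ≤ l * N2 + I := s8
    _ ≤ l * N2 + 2 * N2 * p0 * Φ := by linarith
    _ = _ := by rw [hl']; ring

end Pool.Agent.K1H29.RD
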