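import Mathlib

/-!
# Sup bound for centred random Bernoulli trigonometric sums

Written by helper52 for helper29 (random decimation of the Navier-Stokes equations).
-/

open MeasureTheory ProbabilityTheory Filter Topology

namespace Pool.Agent.K1H29.RD

/-- The box of frequencies. -/
noncomputable abbrev bx (n : ℕ) : Finset (Fin 3 → ℤ) :=
  Finset.Icc (fun _ => -(2 ^ n : ℤ)) (fun _ => (2 ^ n : ℤ))

theorem card_bx (n : ℕ) : ((bx n).card : ℝ) ≤ 27 * 8 ^ n := by
  have h1 : (bx n).card = (2 ^ (n + 1) + 1) ^ 3 := by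
    unfold bx
    rw [Pi.card_Icc]
    simp only [Int.card_Icc, Finset.prod_const, Finset.card_univ, Fintype.card_fin]
    congr 1
    have : (2 ^ n + 1 - -2 ^ n : ℤ) = ((2 ^ (n + 1) + 1 : ℕ) : ℤ) := by push_cast; ring
    rw [this, Int.toNat_natCast]
  rw [h1]
  push_cast
  have h2 : (2 : ℝ) ^ (n + 1) + 1 ≤ 3 * 2 ^ n := by
    have : (1 : ℝ) ≤ 2 ^ n := one_le_pow₀ (by norm_num)
    rw [pow_succ]; linarith
  calc ((2 : ℝ) ^ (n + 1) + 1) ^ 3 ≤ (3 * 2 ^ n) ^ 3 := by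
        apply pow_le_pow_left₀ (by positivity) h2
    _ = 27 * 8 ^ n := by
        rw [mul_pow, ← pow_mul, mul_comm n 3, pow_mul]; norm_num

theorem card_bx_pos (n : ℕ) : (0 : ℝ) < ((bx n).card : ℝ) := by
  have : (bx n).Nonempty := by
    refine ⟨fun _ => 0, ?_⟩
    simp only [bx, Finset.mem_Icc, Pi.le_def]
    exact ⟨fun _ => by simp, fun _ => by positivity⟩
  exact_mod_cast this.card_pos

section
variable {Ω : Type*} [MeasurableSpace Ω] (P : Measure Ω) [IsProbabilityMeasure P]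
  (A : (Fin 3 → ℤ) → Set Ω)

/-- centred indicator -/
noncomputable def X (k : Fin 3 → ℤ) (w : Ω) : ℝ :=
  (A k).indicator (fun _ => (1 : ℝ)) w - P.real (A k)

theorem X_abs (k : Fin 3 → ℤ) (w : Ω) : |X P A k w| ≤ 1 := by
  unfold X
  have h1 : 0 ≤ P.real (A k) := measureReal_nonneg
  have h2 : P.real (A k) ≤ 1 := measureReal_le_one
  by_cases h : w ∈ A k
  · rw [Set.indicator_of_mem h, abs_le]; constructor <;> linarith
  · rw [Set.indicator_of_notMem h, abs_le]; constructor <;> linarith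

theorem hoeff (hm : ∀ k, MeasurableSet (A k)) (hi : iIndepSet A P) (n : ℕ)
    (c : (Fin 3 → ℤ) → ℝ) (hc : ∀ k, |c k| ≤ 1) :
    P.real {w | (4 : ℝ) ^ n ≤ ∑ k ∈ bx n, c k * X P A k w} ≤ Real.exp (-(2 ^ n / 54)) := by
  have hI : iIndepFun (fun k => (A k).indicator fun _ω => (1 : ℝ)) P := hi.iIndepFun_indicator
  have hJ : iIndepFun (fun k => (fun w => c k * X P A k w)) P := by
    have := hI.comp (fun k => fun t : ℝ => c k * (t - P.real (A k))) (fun k => by fun_prop)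
    exact this
  have hs : ∀ k ∈ bx n, HasSubgaussianMGF (fun w => c k * X P A k w) ((fun _ => (1 : NNReal)) k) P := by
    intro k _
    have hmm : AEMeasurable (fun w => c k * (A k).indicator (fun _ => (1 : ℝ)) w) P := by
      apply AEMeasurable.const_mul
      exact (measurable_const.indicator (hm k)).aemeasurable
    have hb : ∀ᵐ w ∂P, c k * (A k).indicator (fun _ => (1 : ℝ)) w ∈ Set.Icc (-1 : ℝ) 1 := by
      refine Eventually.of_forall fun w => ?_
      have := abs_le.1 (hc k)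
      by_cases h : w ∈ A k
      · rw [Set.indicator_of_mem h]; simpa using this
      · rw [Set.indicator_of_notMem h]; simp
    have h1 := hasSubgaussianMGF_of_mem_Icc hmm hb
    have h2 : ∫ w, c k * (A k).indicator (fun _ => (1 : ℝ)) w ∂P = c k * P.real (A k) := by
      rw [integral_const_mul, integral_indicator_const _ (hm k)]; simp
    rw [h2] at h1
    have h3 : ((‖(1 : ℝ) - -1‖₊ / 2) ^ 2 : NNReal) = 1 := by
      have : (‖(1 : ℝ) - -1‖₊ : NNReal) = 2 := by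
        apply NNReal.eq
        simp only [coe_nnnorm, Real.norm_eq_abs, NNReal.coe_ofNat]; norm_num
      rw [this]; simp
    rw [h3] at h1
    refine h1.congr (Eventually.of_forall fun w => ?_)
    show _ = c k * X P A k w
    unfold X; ring
  have h4 := HasSubgaussianMGF.measure_sum_ge_le_of_iIndepFun hJ hs (ε := 4 ^ n) (by positivity)
  refine h4.trans ?_
  apply Real.exp_le_exp.2
  simp only [Finset.sum_const, nsmul_eq_mul, mul_one]
  rw [neg_div, neg_le_neg_iff]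
  have hcp := card_bx_pos n
  have hcl := card_bx n
  rw [div_le_div_iff₀ (by norm_num) (by push_cast; positivity)]
  push_cast
  have h5 : ((4 : ℝ) ^ n) ^ 2 = 2 ^ n * 8 ^ n := by
    rw [← pow_mul, mul_comm n 2, pow_mul, ← mul_pow]; norm_num
  rw [h5]
  have : (0 : ℝ) < 2 ^ n := by positivity
  nlinarith [mul_le_mul_of_nonneg_left hcl this.le]

end

/-- phase -/
noncomputable def ph (k : Fin 3 → ℤ) (x : Fin 3 → ℝ) : ℝ := ∑ j, (k j : ℝ) * x j

theorem exp_ph (k : Fin 3 → ℤ) (x : Fin 3 → ℝ) :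
    Complex.exp (2 * Real.pi * Complex.I * ∑ j, (k j : ℂ) * (x j : ℂ)) =
      ((Real.cos (2 * Real.pi * ph k x) : ℝ) : ℂ) +
        ((Real.sin (2 * Real.pi * ph k x) : ℝ) : ℂ) * Complex.I := by
  have : (2 * Real.pi * Complex.I * ∑ j, (k j : ℂ) * (x j : ℂ)) =
      ((2 * Real.pi * ph k x : ℝ) : ℂ) * Complex.I := by
    unfold ph; push_cast; ring
  rw [this, Complex.exp_mul_I]; push_cast; rfl

/-- The trigonometric sum. -/
noncomputable def D (a : (Fin 3 → ℤ) → ℝ) (n : ℕ) (x : Fin 3 → ℝ) : ℂ :=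
  ∑ k ∈ bx n, ((a k : ℝ) : ℂ) *
    Complex.exp (2 * Real.pi * Complex.I * ∑ j, (k j : ℂ) * (x j : ℂ))

theorem D_re (a : (Fin 3 → ℤ) → ℝ) (n : ℕ) (x : Fin 3 → ℝ) :
    (D a n x).re = ∑ k ∈ bx n, Real.cos (2 * Real.pi * ph k x) * a k := by
  unfold D
  rw [Complex.re_sum]
  refine Finset.sum_congr rfl fun k _ => ?_
  rw [exp_ph, Complex.re_ofReal_mul]
  simp only [Complex.add_re, Complex.ofReal_re, Complex.mul_re, Complex.I_re, Complex.ofReal_im,
    Complex.I_im]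
  ring

theorem D_im (a : (Fin 3 → ℤ) → ℝ) (n : ℕ) (x : Fin 3 → ℝ) :
    (D a n x).im = ∑ k ∈ bx n, Real.sin (2 * Real.pi * ph k x) * a k := by
  unfold D
  rw [Complex.im_sum]
  refine Finset.sum_congr rfl fun k _ => ?_
  rw [exp_ph, Complex.im_ofReal_mul]
  simp only [Complex.add_im, Complex.ofReal_im, Complex.mul_im, Complex.I_re, Complex.ofReal_re,
    Complex.I_im]
  ring

theorem norm_e (k : Fin 3 → ℤ) (x : Fin 3 → ℝ) :
    ‖Complex.exp (2 * Real.pi * Complex.I * ∑ j, (k j : ℂ) * (x j : ℂ))‖ = 1 := by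
  have : (2 * Real.pi * Complex.I * ∑ j, (k j : ℂ) * (x j : ℂ)) =
      ((2 * Real.pi * ph k x : ℝ) : ℂ) * Complex.I := by
    unfold ph; push_cast; ring
  rw [this, Complex.norm_exp_ofReal_mul_I]

theorem D_triv (a : (Fin 3 → ℤ) → ℝ) (ha : ∀ k, |a k| ≤ 1) (n : ℕ) (x : Fin 3 → ℝ) :
    ‖D a n x‖ ≤ 27 * 8 ^ n := by
  unfold D
  calc _ ≤ ∑ k ∈ bx n, ‖((a k : ℝ) : ℂ) *
        Complex.exp (2 * Real.pi * Complex.I * ∑ j, (k j : ℂ) * (x j : ℂ))‖ := norm_sum_le _ _
    _ ≤ ∑ k ∈ bx n, (1 : ℝ) := by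
        refine Finset.sum_le_sum fun k _ => ?_
        rw [norm_mul, norm_e, mul_one, Complex.norm_real]; exact ha k
    _ = ((bx n).card : ℝ) := by simp
    _ ≤ _ := card_bx n

theorem e_sub (k : Fin 3 → ℤ) (x y : Fin 3 → ℝ) :
    ‖Complex.exp (2 * Real.pi * Complex.I * ∑ j, (k j : ℂ) * (x j : ℂ)) -
      Complex.exp (2 * Real.pi * Complex.I * ∑ j, (k j : ℂ) * (y j : ℂ))‖ ≤
      2 * Real.pi * |ph k x - ph k y| := by
  have h1 : Complex.exp (2 * Real.pi * Complex.I * ∑ j, (k j : ℂ) * (x j : ℂ)) =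
      Complex.exp (2 * Real.pi * Complex.I * ∑ j, (k j : ℂ) * (y j : ℂ)) *
        Complex.exp (Complex.I * ((2 * Real.pi * (ph k x - ph k y) : ℝ) : ℂ)) := by
    rw [← Complex.exp_add]
    congr 1
    unfold ph; push_cast; ring
  rw [h1]
  have h2 : ∀ u v : ℂ, u * v - u = u * (v - 1) := fun u v => by ring
  rw [h2, norm_mul, norm_e, one_mul]
  refine (Real.norm_exp_I_mul_ofReal_sub_one_le).trans ?_
  rw [Real.norm_eq_abs, abs_mul, abs_of_nonneg (by positivity : (0:ℝ) ≤ 2 * Real.pi)]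

theorem e_per (k : Fin 3 → ℤ) (x : Fin 3 → ℝ) :
    Complex.exp (2 * Real.pi * Complex.I * ∑ j, (k j : ℂ) * (x j : ℂ)) =
      Complex.exp (2 * Real.pi * Complex.I * ∑ j, (k j : ℂ) * ((Int.fract (x j) : ℝ) : ℂ)) := by
  have h1 : (2 * Real.pi * Complex.I * ∑ j, (k j : ℂ) * (x j : ℂ)) =
      (2 * Real.pi * Complex.I * ∑ j, (k j : ℂ) * ((Int.fract (x j) : ℝ) : ℂ)) +
        ((∑ j, k j * ⌊x j⌋ : ℤ) : ℂ) * (2 * Real.pi * Complex.I) := by
    have : ∀ j, (x j : ℂ) = ((Int.fract (x j) : ℝ) : ℂ) + (⌊x j⌋ : ℂ) := by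
      intro j
      have h : x j = Int.fract (x j) + (⌊x j⌋ : ℝ) := (Int.fract_add_floor (x j)).symm
      conv_lhs => rw [h]
      push_cast; rfl
    have h3 : ∑ j, (k j : ℂ) * (x j : ℂ) = ∑ j, (k j : ℂ) * ((Int.fract (x j) : ℝ) : ℂ) +
        ∑ j, (k j : ℂ) * (⌊x j⌋ : ℂ) := by
      rw [← Finset.sum_add_distrib]
      refine Finset.sum_congr rfl fun j _ => ?_
      rw [← mul_add, ← this j]
    rw [h3]; push_cast; ring
  rw [h1, Complex.exp_add, Complex.exp_int_mul_two_pi_mul_I, mul_one]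

theorem D_per (a : (Fin 3 → ℤ) → ℝ) (n : ℕ) (x : Fin 3 → ℝ) :
    D a n x = D a n (fun j => Int.fract (x j)) := by
  unfold D
  exact Finset.sum_congr rfl fun k _ => by rw [e_per]

theorem D_sub (a : (Fin 3 → ℤ) → ℝ) (ha : ∀ k, |a k| ≤ 1) (n : ℕ) (x y : Fin 3 → ℝ)
    (hxy : ∀ j, |x j - y j| ≤ 1 / 16 ^ n) : ‖D a n x - D a n y‖ ≤ 162 * Real.pi := by
  have h1 : D a n x - D a n y = ∑ k ∈ bx n, ((a k : ℝ) : ℂ) *
      (Complex.exp (2 * Real.pi * Complex.I * ∑ j, (k j : ℂ) * (x j : ℂ)) -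
      Complex.exp (2 * Real.pi * Complex.I * ∑ j, (k j : ℂ) * (y j : ℂ))) := by
    unfold D
    rw [← Finset.sum_sub_distrib]
    exact Finset.sum_congr rfl fun k _ => by ring
  rw [h1]
  calc _ ≤ ∑ k ∈ bx n, ‖((a k : ℝ) : ℂ) *
      (Complex.exp (2 * Real.pi * Complex.I * ∑ j, (k j : ℂ) * (x j : ℂ)) -
      Complex.exp (2 * Real.pi * Complex.I * ∑ j, (k j : ℂ) * (y j : ℂ)))‖ := norm_sum_le _ _
    _ ≤ ∑ k ∈ bx n, (6 * Real.pi * (1 / 8 ^ n) : ℝ) := by
        refine Finset.sum_le_sum fun k hk => ?_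
        rw [norm_mul, Complex.norm_real, Real.norm_eq_abs]
        have hk' := Finset.mem_Icc.1 hk
        have hkj : ∀ j, |(k j : ℝ)| ≤ 2 ^ n := by
          intro j
          rw [abs_le]
          have h1 := hk'.1 j
          have h2 := hk'.2 j
          constructor
          · have : ((-(2 ^ n : ℤ) : ℤ) : ℝ) ≤ (k j : ℝ) := by exact_mod_cast h1
            simpa using this
          · have : (k j : ℝ) ≤ (((2 ^ n : ℤ) : ℤ) : ℝ) := by exact_mod_cast h2
            simpa using this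
        have hph : |ph k x - ph k y| ≤ 3 * (1 / 8 ^ n) := by
          unfold ph
          rw [← Finset.sum_sub_distrib]
          calc |∑ j, ((k j : ℝ) * x j - (k j : ℝ) * y j)| ≤
                ∑ j, |(k j : ℝ) * x j - (k j : ℝ) * y j| := Finset.abs_sum_le_sum_abs _ _
            _ ≤ ∑ j : Fin 3, (1 / 8 ^ n : ℝ) := by
                refine Finset.sum_le_sum fun j _ => ?_
                rw [← mul_sub, abs_mul]
                calc _ ≤ (2 : ℝ) ^ n * (1 / 16 ^ n) :=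
                      mul_le_mul (hkj j) (hxy j) (abs_nonneg _) (by positivity)
                  _ = 1 / 8 ^ n := by
                      have : (16 : ℝ) ^ n = 2 ^ n * 8 ^ n := by rw [← mul_pow]; norm_num
                      rw [this]; field_simp
            _ = 3 * (1 / 8 ^ n) := by simp
        calc |a k| * _ ≤ 1 * (2 * Real.pi * |ph k x - ph k y|) :=
              mul_le_mul (ha k) (e_sub k x y) (norm_nonneg _) zero_le_one
          _ ≤ 1 * (2 * Real.pi * (3 * (1 / 8 ^ n))) := by gcongr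
          _ = _ := by ring
    _ = ((bx n).card : ℝ) * (6 * Real.pi * (1 / 8 ^ n)) := by simp
    _ ≤ (27 * 8 ^ n) * (6 * Real.pi * (1 / 8 ^ n)) := by
        apply mul_le_mul_of_nonneg_right (card_bx n) (by positivity)
    _ = 162 * Real.pi := by field_simp; norm_num

/-- Grid point. -/
noncomputable def gp (n : ℕ) (m : Fin 3 → Fin (16 ^ n)) : Fin 3 → ℝ :=
  fun j => ((m j : ℕ) : ℝ) / 16 ^ n

theorem exists_gp (n : ℕ) (x : Fin 3 → ℝ) :
    ∃ m : Fin 3 → Fin (16 ^ n), ∀ j, |Int.fract (x j) - gp n m j| ≤ 1 / 16 ^ n := by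
  have hp : (0 : ℝ) < 16 ^ n := by positivity
  have hlt : ∀ j, ⌊(16 : ℝ) ^ n * Int.fract (x j)⌋₊ < 16 ^ n := by
    intro j
    rw [Nat.floor_lt (by have := Int.fract_nonneg (x j); positivity)]
    push_cast
    have := Int.fract_lt_one (x j)
    nlinarith
  refine ⟨fun j => ⟨⌊(16 : ℝ) ^ n * Int.fract (x j)⌋₊, hlt j⟩, fun j => ?_⟩
  unfold gp
  simp only
  have h0 : 0 ≤ (16 : ℝ) ^ n * Int.fract (x j) := by
    have := Int.fract_nonneg (x j); positivity
  have h1 := Nat.floor_le h0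
  have h2 := Nat.lt_floor_add_one ((16 : ℝ) ^ n * Int.fract (x j))
  have h3 : Int.fract (x j) - ((⌊(16 : ℝ) ^ n * Int.fract (x j)⌋₊ : ℕ) : ℝ) / 16 ^ n =
      ((16 : ℝ) ^ n * Int.fract (x j) - ((⌊(16 : ℝ) ^ n * Int.fract (x j)⌋₊ : ℕ) : ℝ)) / 16 ^ n := by
    field_simp
  rw [h3, abs_div, abs_of_pos hp]
  apply div_le_div_of_nonneg_right _ hp.le
  rw [abs_le]; constructor <;> linarith

section
variable {Ω : Type*} [MeasurableSpace Ω] (P : Measure Ω) [IsProbabilityMeasure P]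
  (A : (Fin 3 → ℤ) → Set Ω)

/-- Bad event at a grid point. -/
def bad (n : ℕ) : Set Ω :=
  ⋃ m : Fin 3 → Fin (16 ^ n),
    ({w | (4 : ℝ) ^ n ≤ ∑ k ∈ bx n, Real.cos (2 * Real.pi * ph k (gp n m)) * X P A k w} ∪
      {w | (4 : ℝ) ^ n ≤ ∑ k ∈ bx n, (-Real.cos (2 * Real.pi * ph k (gp n m))) * X P A k w}) ∪
    ({w | (4 : ℝ) ^ n ≤ ∑ k ∈ bx n, Real.sin (2 * Real.pi * ph k (gp n m)) * X P A k w} ∪
      {w | (4 : ℝ) ^ n ≤ ∑ k ∈ bx n, (-Real.sin (2 * Real.pi * ph k (gp n m))) * X P A k w})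

theorem bad_le (hm : ∀ k, MeasurableSet (A k)) (hi : iIndepSet A P) (n : ℕ) :
    P (bad P A n) ≤ ENNReal.ofReal (4096 ^ n * (4 * Real.exp (-(2 ^ n / 54)))) := by
  have key : ∀ c : (Fin 3 → ℤ) → ℝ, (∀ k, |c k| ≤ 1) →
      P {w | (4 : ℝ) ^ n ≤ ∑ k ∈ bx n, c k * X P A k w} ≤
        ENNReal.ofReal (Real.exp (-(2 ^ n / 54))) := by
    intro c hc
    rw [← ofReal_measureReal]
    exact ENNReal.ofReal_le_ofReal (hoeff P A hm hi n c hc)
  unfold bad
  refine (measure_iUnion_le _).trans ?_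
  rw [tsum_fintype]
  calc _ ≤ ∑ m : Fin 3 → Fin (16 ^ n), ENNReal.ofReal (4 * Real.exp (-(2 ^ n / 54))) := by
        refine Finset.sum_le_sum fun m _ => ?_
        have e4 : ENNReal.ofReal (4 * Real.exp (-(2 ^ n / 54))) =
            (ENNReal.ofReal (Real.exp (-(2 ^ n / 54))) + ENNReal.ofReal (Real.exp (-(2 ^ n / 54)))) +
            (ENNReal.ofReal (Real.exp (-(2 ^ n / 54))) + ENNReal.ofReal (Real.exp (-(2 ^ n / 54)))) := by
          rw [← ENNReal.ofReal_add (by positivity) (by positivity),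
            ← ENNReal.ofReal_add (by positivity) (by positivity)]
          congr 1; ring
        rw [e4]
        refine (measure_union_le _ _).trans (add_le_add ?_ ?_)
        · refine (measure_union_le _ _).trans (add_le_add ?_ ?_)
          · exact key _ fun k => Real.abs_cos_le_one _
          · exact key _ fun k => by rw [abs_neg]; exact Real.abs_cos_le_one _
        · refine (measure_union_le _ _).trans (add_le_add ?_ ?_)
          · exact key _ fun k => Real.abs_sin_le_one _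
          · exact key _ fun k => by rw [abs_neg]; exact Real.abs_sin_le_one _
    _ = ENNReal.ofReal (4096 ^ n * (4 * Real.exp (-(2 ^ n / 54)))) := by
        rw [Finset.sum_const, Finset.card_univ, Fintype.card_pi]
        simp only [Fintype.card_fin, Finset.prod_const, Finset.card_univ, nsmul_eq_mul]
        rw [ENNReal.ofReal_mul (by positivity)]
        congr 1
        rw [← pow_mul, mul_comm n 3, pow_mul]
        norm_num

theorem exp_bd (n : ℕ) : (4096 : ℝ) ^ n * (4 * Real.exp (-(2 ^ n / 54))) ≤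
    (4 * (54 ^ 13 * (Nat.factorial 13 : ℝ))) * (1 / 2) ^ n := by
  have h1 := Real.pow_div_factorial_le_exp ((2 : ℝ) ^ n / 54) (by positivity) 13
  have hf : (0 : ℝ) < (Nat.factorial 13 : ℝ) := by positivity
  have h2 : ((2 : ℝ) ^ n) ^ 13 ≤ (54 ^ 13 * (Nat.factorial 13 : ℝ)) * Real.exp (2 ^ n / 54) := by
    rw [div_le_iff₀ hf, div_pow, div_le_iff₀ (by positivity)] at h1
    linarith
  have h3 : (4096 : ℝ) ^ n = ((2 : ℝ) ^ n) ^ 13 * (1 / 2) ^ n := by
    rw [← pow_mul, mul_comm n 13, pow_mul, ← mul_pow]; norm_num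
  rw [h3, Real.exp_neg]
  have h4 : (0 : ℝ) < Real.exp (2 ^ n / 54) := Real.exp_pos _
  calc ((2 : ℝ) ^ n) ^ 13 * (1 / 2) ^ n * (4 * (Real.exp (2 ^ n / 54))⁻¹)
      ≤ (54 ^ 13 * (Nat.factorial 13 : ℝ)) * Real.exp (2 ^ n / 54) * (1 / 2) ^ n *
        (4 * (Real.exp (2 ^ n / 54))⁻¹) := by gcongr
    _ = _ := by field_simp

theorem D_good (n : ℕ) (w : Ω) (hw : w ∉ bad P A n) (x : Fin 3 → ℝ) :
    ‖D (fun k => X P A k w) n x‖ ≤ 2 * 4 ^ n + 162 * Real.pi := by
  rw [D_per]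
  obtain ⟨m, hmm⟩ := exists_gp n x
  have h1 := D_sub (fun k => X P A k w) (fun k => X_abs P A k w) n _ _ hmm
  unfold bad at hw
  simp only [Set.mem_iUnion, Set.mem_union, Set.mem_ofPred_eq, not_exists, not_or, not_le,
    neg_mul, Finset.sum_neg_distrib] at hw
  obtain ⟨⟨ha, hb⟩, hc, hd⟩ := hw m
  have hre := D_re (fun k => X P A k w) n (gp n m)
  have him := D_im (fun k => X P A k w) n (gp n m)
  rw [← hre] at ha hb
  rw [← him] at hc hd
  have h2 : ‖D (fun k => X P A k w) n (gp n m)‖ ≤ 2 * 4 ^ n := by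
    refine (Complex.norm_le_abs_re_add_abs_im _).trans ?_
    have h3 : |(D (fun k => X P A k w) n (gp n m)).re| ≤ 4 ^ n := by
      rw [abs_le]; constructor <;> linarith
    have h4 : |(D (fun k => X P A k w) n (gp n m)).im| ≤ 4 ^ n := by
      rw [abs_le]; constructor <;> linarith
    linarith
  have h5 := norm_sub_norm_le (D (fun k => X P A k w) n fun j => Int.fract (x j))
    (D (fun k => X P A k w) n (gp n m))
  linarith

/-- **Sup bound.**  For independent events `A k` (frequencies `k ∈ ℤ³`), almost surely the centred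
trigonometric sums over the dyadic boxes are `O(4 ^ n)` uniformly in the point. -/
theorem sup_bound (hm : ∀ k, MeasurableSet (A k)) (hi : iIndepSet A P) :
    ∀ᵐ w ∂P, ∃ K : ℝ, ∀ (n : ℕ) (x : Fin 3 → ℝ),
      ‖∑ k ∈ Finset.Icc (fun _ => -(2 ^ n : ℤ)) (fun _ => (2 ^ n : ℤ)),
        (((A k).indicator (fun _ => (1 : ℝ)) w - P.real (A k) : ℝ) : ℂ) *
          Complex.exp (2 * Real.pi * Complex.I * ∑ j, (k j : ℂ) * (x j : ℂ))‖ ≤ K * 4 ^ n := by
  have hsum : (∑' n, P (bad P A n)) ≠ ⊤ := by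
    have hs : Summable fun n : ℕ => (4 * (54 ^ 13 * (Nat.factorial 13 : ℝ))) * (1 / 2 : ℝ) ^ n :=
      (summable_geometric_of_lt_one (by norm_num) (by norm_num)).mul_left _
    have h1 : (∑' n, P (bad P A n)) ≤
        ∑' n, ENNReal.ofReal ((4 * (54 ^ 13 * (Nat.factorial 13 : ℝ))) * (1 / 2 : ℝ) ^ n) :=
      ENNReal.tsum_le_tsum fun n =>
        (bad_le P A hm hi n).trans (ENNReal.ofReal_le_ofReal (exp_bd n))
    refine ne_top_of_le_ne_top ?_ h1
    rw [← ENNReal.ofReal_tsum_of_nonneg (fun n => by positivity) hs]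
    exact ENNReal.ofReal_ne_top
  filter_upwards [ae_eventually_notMem hsum] with w hw
  obtain ⟨N, hN⟩ := eventually_atTop.1 hw
  refine ⟨2 + 162 * Real.pi + 27 * 8 ^ N, fun n x => ?_⟩
  change ‖D (fun k => X P A k w) n x‖ ≤ _
  have h4 : (1 : ℝ) ≤ 4 ^ n := one_le_pow₀ (by norm_num)
  have hpi := Real.pi_pos
  have h8 : (0 : ℝ) < 8 ^ N := by positivity
  rcases le_or_gt N n with hn | hn
  · have := D_good P A n w (hN n hn) x
    have h5 : 162 * Real.pi ≤ 162 * Real.pi * 4 ^ n := by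
      nlinarith
    have h6 : 0 ≤ 27 * (8 : ℝ) ^ N * 4 ^ n := by positivity
    calc _ ≤ _ := this
      _ ≤ _ := by nlinarith
  · have := D_triv (fun k => X P A k w) (fun k => X_abs P A k w) n x
    have h5 : (8 : ℝ) ^ n ≤ 8 ^ N := pow_le_pow_right₀ (by norm_num) hn.le
    have h6 : 27 * (8 : ℝ) ^ N ≤ 27 * 8 ^ N * 4 ^ n := by nlinarith
    have h7 : 0 ≤ (2 + 162 * Real.pi) * 4 ^ n := by positivity
    calc _ ≤ _ := this
      _ ≤ 27 * 8 ^ N := by linarith
      _ ≤ _ := by nlinarith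

end

end Pool.Agent.K1H29.RD
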