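import Pool.Agent.K1H29.RD.Prob
import Pool.Agent.K1H29.RD.Phy

/-!
# Random sets of frequencies are planar
-/

open MeasureTheory ProbabilityTheory Set

namespace Pool.Agent.K1H29.RD

open Pool.Agent.H356R3.NS (K E3 ex nk nk_sq nk_pos nk_nonneg)
open Pool.Agent.K1H29.SH (nn nn_nonneg nn_le_nk bb)

theorem random_planar {Ω : Type*} [MeasurableSpace Ω] (P : Measure Ω) [IsProbabilityMeasure P]
    (A : (Fin 3 → ℤ) → Set Ω) (hm : ∀ k, MeasurableSet (A k)) (hi : iIndepSet A P) {C : ℝ}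
    (hC : ∀ k, k ≠ 0 → P.real (A k) ≤ C * (√(∑ i, (k i : ℝ) ^ 2)) ^ (-(1 / 3) : ℝ)) :
    ∀ᵐ w ∂P, Planar (kept A w) := by
  filter_upwards [sup_bound P A hm hi] with w hw
  obtain ⟨Kc, hK⟩ := hw
  have h : Dev {k | w ∈ A k} (fun k => P.real (A k)) Kc |C| := by
    refine ⟨fun k => measureReal_nonneg, fun k => measureReal_le_one, abs_nonneg _, fun k hk => ?_,
      fun n x => ?_⟩
    · have hn : √(∑ i, (k i : ℝ) ^ 2) = nk k := rfl
      have h1 := hC k hk
      rw [hn] at h1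
      have hnp := nk_pos hk
      have h2 : P.real (A k) ≤ |C| * nk k ^ (-(1 / 3) : ℝ) :=
        h1.trans (mul_le_mul_of_nonneg_right (le_abs_self C) (by positivity))
      have h3 : P.real (A k) ^ 3 ≤ |C| ^ 3 / nk k := by
        refine (pow_le_pow_left₀ measureReal_nonneg h2 3).trans (le_of_eq ?_)
        rw [mul_pow, ← Real.rpow_natCast (nk k ^ (-(1 / 3) : ℝ)), ← Real.rpow_mul hnp.le]
        norm_num
        rw [Real.rpow_neg_one]
        rfl
      calc P.real (A k) ^ 3 * nn k ≤ |C| ^ 3 / nk k * nk k :=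
            mul_le_mul h3 (nn_le_nk k) (nn_nonneg k) (by positivity)
        _ = |C| ^ 3 := by field_simp
    · refine le_trans (le_of_eq ?_) (hK n x)
      congr 1
  exact h.planar

lemma kept_neg {Ω : Type*} (A : (Fin 3 → ℤ) → Set Ω) (w : Ω) : ∀ k ∈ kept A w, -k ∈ kept A w := by
  rintro k ⟨h1, h2⟩
  exact ⟨neg_ne_zero.2 h1, by rw [neg_neg]; exact h2.symm⟩

lemma kept_zero {Ω : Type*} (A : (Fin 3 → ℤ) → Set Ω) (w : Ω) : (0 : Fin 3 → ℤ) ∉ kept A w :=
  fun h => h.1 rfl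

end Pool.Agent.K1H29.RD
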