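import Pool.Agent.H459R3.NS.Gen
import Pool.Agent.H459R3.NS.Evo
import Pool.Agent.K1H29.RD.Phy

/-!
# Uniqueness of solutions of the restricted equations
-/

open MeasureTheory Set Filter Topology
open scoped ContDiff

namespace Pool.Agent.K1H29.RD

open H459R3.NS

/-- Parseval for a smooth function with frequencies in `Λ` and a continuous function whose Fourier
coefficients in `Λ` vanish. -/
lemma orth {Λ : Set K3} (hΛ : ∀ k ∈ Λ, -k ∈ Λ) {w D : V → ℝ} (hw : SP w)
    (hwΛ : ∀ k, k ∉ Λ → fr w k = 0) (hD : Continuous D) (hDΛ : ∀ k ∈ Λ, fr D k = 0) :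
    ∫ x in cube, w x * D x = 0 := by
  have h := integral_S_mul (rap_fr hw).summable (g := fun x => (D x : ℂ))
    (Complex.continuous_ofReal.comp hD)
  have e1 : (∫ x in cube, S (fr w) x * (D x : ℂ)) = ((∫ x in cube, w x * D x : ℝ) : ℂ) := by
    rw [← integral_complex_ofReal]
    congr 1
    funext x
    rw [S_fr hw x]
    push_cast
    rfl
  rw [e1] at h
  have e2 : ∀ k, fr w k * ∫ x in cube, ee k x * (D x : ℂ) = 0 := by
    intro k
    by_cases hk : k ∈ Λ
    · have h2 := hDΛ (-k) (hΛ k hk)
      unfold fr fc at h2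
      rw [neg_neg] at h2
      rw [h2, mul_zero]
    · rw [hwΛ k hk, zero_mul]
  simp_rw [e2] at h
  have h3 := h.unique hasSum_zero
  exact_mod_cast h3

theorem unique {Λ : Set K3} (hΛ : ∀ k ∈ Λ, -k ∈ Λ) {ν : ℝ} (hν : 0 < ν) {v : V → V}
    {u u' : ℝ → V → V} {p p' : ℝ → V → ℝ} (h : Restricted Λ ν v u p)
    (h' : Restricted Λ ν v u' p') {t : ℝ} (ht : 0 ≤ t) : u t = u' t := by
  set T : ℝ := t + 1 with hT
  have htT : t ∈ Ico 0 T := ⟨ht, by rw [hT]; linarith⟩
  have hsub : Ico 0 T ×ˢ (univ : Set V) ⊆ Ici 0 ×ˢ univ :=
    prod_mono (fun s hs => hs.1) subset_rfl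
  -- smoothness
  have hu : ∀ i, ContDiffOn ℝ ∞ (fun z : ℝ × V => u z.1 z.2 i) (Ico 0 T ×ˢ univ) := fun i =>
    (contDiffOn_pi.1 h.smooth_u i).mono hsub
  have hu' : ∀ i, ContDiffOn ℝ ∞ (fun z : ℝ × V => u' z.1 z.2 i) (Ico 0 T ×ˢ univ) := fun i =>
    (contDiffOn_pi.1 h'.smooth_u i).mono hsub
  have hp : ContDiffOn ℝ ∞ (fun z : ℝ × V => p z.1 z.2) (Ico 0 T ×ˢ univ) := h.smooth_p.mono hsub
  have hp' : ContDiffOn ℝ ∞ (fun z : ℝ × V => p' z.1 z.2) (Ico 0 T ×ˢ univ) := h'.smooth_p.mono hsub
  set w : Fin 3 → ℝ → V → ℝ := fun i s x => u s x i - u' s x i with hw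
  have hwC : ∀ i, ContDiffOn ℝ ∞ (fun z : ℝ × V => w i z.1 z.2) (Ico 0 T ×ˢ univ) := fun i =>
    (hu i).sub (hu' i)
  -- slices
  have su : ∀ i, ∀ s ∈ Ico 0 T, SP (fun x => u s x i) := fun i s hs =>
    ⟨contDiff_slice (f := fun s x => u s x i) (hu i) hs,
      fun j x => by simp only [h.periodic_u s hs.1 x j]⟩
  have su' : ∀ i, ∀ s ∈ Ico 0 T, SP (fun x => u' s x i) := fun i s hs =>
    ⟨contDiff_slice (f := fun s x => u' s x i) (hu' i) hs,
      fun j x => by simp only [h'.periodic_u s hs.1 x j]⟩
  have sp : ∀ s ∈ Ico 0 T, SP (p s) := fun s hs =>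
    ⟨contDiff_slice hp hs, fun j x => h.periodic_p s hs.1 x j⟩
  have sp' : ∀ s ∈ Ico 0 T, SP (p' s) := fun s hs =>
    ⟨contDiff_slice hp' hs, fun j x => h'.periodic_p s hs.1 x j⟩
  have sw : ∀ i, ∀ s ∈ Ico 0 T, SP (w i s) := fun i s hs => (su i s hs).sub (su' i s hs)
  -- Lipschitz bound
  obtain ⟨L, hL⟩ : ∃ L : ℝ, ∀ s ∈ Icc 0 t, ∀ x ∈ cube, ∀ i j, |pd j (fun y => u s y i) x| ≤ L := by
    have hc : ∀ i j, ∃ C : ℝ, ∀ s ∈ Icc 0 t, ∀ x ∈ cube, |pd j (fun y => u s y i) x| ≤ C := by
      intro i j
      have h1 := contDiffOn_pd (f := fun s y => u s y i) (hu i) j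
      have hK : IsCompact (Icc 0 t ×ˢ cube) := isCompact_Icc.prod isCompact_Icc
      have hs : Icc 0 t ×ˢ cube ⊆ Ico 0 T ×ˢ (univ : Set V) :=
        prod_mono (fun s hs => ⟨hs.1, hs.2.trans_lt htT.2⟩) (subset_univ _)
      obtain ⟨C, hC⟩ := hK.exists_bound_of_continuousOn (h1.continuousOn.mono hs)
      exact ⟨C, fun s hs x hx => hC (s, x) ⟨hs, hx⟩⟩
    choose C hC using hc
    refine ⟨∑ i, ∑ j, |C i j|, fun s hs x hx i j => ?_⟩
    refine (hC i j s hs x hx).trans ((le_abs_self _).trans ?_)
    exact (Finset.single_le_sum (f := fun j => |C i j|) (fun _ _ => abs_nonneg _)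
      (Finset.mem_univ j)).trans (Finset.single_le_sum (f := fun i => ∑ j, |C i j|)
        (fun _ _ => Finset.sum_nonneg fun _ _ => abs_nonneg _) (Finset.mem_univ i))
  have hL0 : 0 ≤ L := (abs_nonneg _).trans (hL 0 ⟨le_rfl, ht⟩ 0 ⟨le_rfl, by intro i; simp⟩ 0 0)
  -- the energy of the difference
  set E : ℝ → ℝ := fun s => ∑ i, ∫ x in cube, w i s x ^ 2 with hE
  have hEc : ContinuousOn E (Ico 0 T) := by
    refine continuousOn_finsetSum _ fun i _ => ?_
    exact continuousOn_int (F := fun s x => w i s x ^ 2) ((hwC i).continuousOn.pow 2)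
  have hE0 : ∀ s, 0 ≤ E s := fun s =>
    Finset.sum_nonneg fun i _ => integral_nonneg fun x => sq_nonneg _
  have hdt : ∀ i, ∀ s ∈ Ioo 0 T, ∀ x, HasDerivAt (fun r => w i r x)
      (dt (fun r y => u r y i) s x - dt (fun r y => u' r y i) s x) s := by
    intro i s hs x
    have h1 := hasDerivAt_slice (T := T) (F := fun r y => u r y i)
      (mono_Ioo (f := fun r y => u r y i) (n := 1) (hu i) (by norm_cast)) hs x
    have h2 := hasDerivAt_slice (T := T) (F := fun r y => u' r y i)
      (mono_Ioo (f := fun r y => u' r y i) (n := 1) (hu' i) (by norm_cast)) hs x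
    unfold dt
    rw [h1.deriv, h2.deriv]
    exact h1.sub h2
  have hEd : ∀ s ∈ Ioo 0 T, HasDerivAt E (∑ i, ∫ x in cube, 2 * (w i s x *
      (dt (fun r y => u r y i) s x - dt (fun r y => u' r y i) s x))) s := by
    intro s hs
    refine HasDerivAt.fun_sum fun i _ => ?_
    have h1 := hasDerivAt_int (F := fun s x => w i s x ^ 2)
      ((mono_Ioo (n := 1) (hwC i) (by norm_cast)).pow 2) hs
    refine h1.congr_deriv ?_
    congr 1
    funext x
    have h2 := ((hdt i s hs x).pow 2).deriv
    refine h2.trans ?_
    simp only [Nat.cast_ofNat, Nat.add_one_sub_one, pow_one]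
    ring
  have hineq : ∀ s ∈ Ioo 0 T, s ≤ t → (∑ i, ∫ x in cube, 2 * (w i s x *
      (dt (fun r y => u r y i) s x - dt (fun r y => u' r y i) s x))) ≤ 6 * L * E s := by
    intro s hs hst
    have hsI : s ∈ Ico 0 T := ⟨hs.1.le, hs.2⟩
    have hdc : ∀ i, Continuous (dt (fun r y => u r y i) s) := fun i => (contDiff_dt (hu i) hs).continuous
    have hdc' : ∀ i, Continuous (dt (fun r y => u' r y i) s) := fun i =>
      (contDiff_dt (hu' i) hs).continuous
    -- the residuals
    set R : Fin 3 → V → ℝ := fun i x => dt (fun r y => u r y i) s x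
      + ∑ j, u s x j * pd j (fun y => u s y i) x - ν * ∑ j, pd j (pd j fun y => u s y i) x
      + pd i (p s) x with hR
    set R' : Fin 3 → V → ℝ := fun i x => dt (fun r y => u' r y i) s x
      + ∑ j, u' s x j * pd j (fun y => u' s y i) x - ν * ∑ j, pd j (pd j fun y => u' s y i) x
      + pd i (p' s) x with hR'
    have hRc : ∀ i, Continuous (R i) := fun i =>
      (((hdc i).add (continuous_finsetSum _ fun j _ => (su j s hsI).cont.mul ((su i s hsI).pd j).cont)).sub
        (continuous_const.mul (continuous_finsetSum _ fun j _ => (((su i s hsI).pd j).pd j).cont))).add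
        ((sp s hsI).pd i).cont
    have hRc' : ∀ i, Continuous (R' i) := fun i =>
      (((hdc' i).add (continuous_finsetSum _ fun j _ => (su' j s hsI).cont.mul ((su' i s hsI).pd j).cont)).sub
        (continuous_const.mul (continuous_finsetSum _ fun j _ => (((su' i s hsI).pd j).pd j).cont))).add
        ((sp' s hsI).pd i).cont
    have hRΛ : ∀ i, ∀ k ∈ Λ, fr (R i) k = 0 := by
      intro i k hk
      have h1 := h.momentum s hs.1.le k hk i
      rw [← SH.four_eq_fr]
      refine Eq.trans ?_ h1
      show four (R i) k = four _ k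
      congr 1
      funext x
      simp only [hR]
      have : derivWithin (fun r => u r x i) (Ici 0) s = dt (fun r y => u r y i) s x :=
        derivWithin_of_mem_nhds (Ici_mem_nhds hs.1)
      rw [this]
      rfl
    have hRΛ' : ∀ i, ∀ k ∈ Λ, fr (R' i) k = 0 := by
      intro i k hk
      have h1 := h'.momentum s hs.1.le k hk i
      rw [← SH.four_eq_fr]
      refine Eq.trans ?_ h1
      show four (R' i) k = four _ k
      congr 1
      funext x
      simp only [hR']
      have : derivWithin (fun r => u' r x i) (Ici 0) s = dt (fun r y => u' r y i) s x :=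
        derivWithin_of_mem_nhds (Ici_mem_nhds hs.1)
      rw [this]
      rfl
    have hwΛ : ∀ i, ∀ k, k ∉ Λ → fr (w i s) k = 0 := by
      intro i k hk
      have h1 : fr (fun x => u s x i) k = 0 := by rw [← SH.four_eq_fr]; exact h.spectrum s hs.1.le k hk i
      have h2 : fr (fun x => u' s x i) k = 0 := by rw [← SH.four_eq_fr]; exact h'.spectrum s hs.1.le k hk i
      have h3 : fr (w i s) k = fr (fun x => u s x i) k - fr (fun x => u' s x i) k := by
        unfold fr fc
        rw [← integral_sub]
        · congr 1
          funext x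
          simp only [hw]
          push_cast
          ring
        · exact integrableOn_cube ((ee_continuous _).mul (Complex.continuous_ofReal.comp (su i s hsI).cont))
        · exact integrableOn_cube ((ee_continuous _).mul (Complex.continuous_ofReal.comp (su' i s hsI).cont))
      rw [h3, h1, h2, sub_zero]
    have hort : ∀ i, ∫ x in cube, w i s x * R i x = 0 := fun i =>
      orth hΛ (sw i s hsI) (hwΛ i) (hRc i) (hRΛ i)
    have hort' : ∀ i, ∫ x in cube, w i s x * R' i x = 0 := fun i =>
      orth hΛ (sw i s hsI) (hwΛ i) (hRc' i) (hRΛ' i)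
    -- divergence
    have hdw : ∀ x, ∑ i, pd i (w i s) x = 0 := by
      intro x
      have h1 := h.divFree s hs.1.le x
      have h2 := h'.divFree s hs.1.le x
      have h3 : ∀ i, pd i (w i s) x = pd i (fun y => u s y i) x - pd i (fun y => u' s y i) x := by
        intro i
        unfold pd
        have h4 : HasFDerivAt (fun y => u s y i - u' s y i) _ x :=
          ((su i s hsI).diff x).hasFDerivAt.sub ((su' i s hsI).diff x).hasFDerivAt
        have h5 : fderiv ℝ (w i s) x = _ := h4.fderiv
        rw [h5]
        rfl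
      simp_rw [h3]
      rw [Finset.sum_sub_distrib]
      have h1' : ∑ i, pd i (fun y => u s y i) x = 0 := h1
      have h2' : ∑ i, pd i (fun y => u' s y i) x = 0 := h2
      rw [h1', h2', sub_zero]
    have hpdw : ∀ i j x, pd j (w i s) x = pd j (fun y => u s y i) x - pd j (fun y => u' s y i) x := by
      intro i j x
      unfold pd
      have h4 : HasFDerivAt (fun y => u s y i - u' s y i) _ x :=
        ((su i s hsI).diff x).hasFDerivAt.sub ((su' i s hsI).diff x).hasFDerivAt
      have h5 : fderiv ℝ (w i s) x = _ := h4.fderiv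
      rw [h5]
      rfl
    -- pointwise identity
    have hq := (sp s hsI).sub (sp' s hsI)
    have hid : ∀ i x, w i s x * (dt (fun r y => u r y i) s x - dt (fun r y => u' r y i) s x)
        = (w i s x * R i x - w i s x * R' i x) - ∑ j, w i s x * (w j s x * pd j (fun y => u s y i) x)
          - ∑ j, u' s x j * (w i s x * pd j (w i s) x) + ν * (lap (w i s) x * w i s x)
          - w i s x * pd i (fun y => p s y - p' s y) x := by
      intro i x
      have e1 : lap (w i s) x = ∑ j, pd j (pd j fun y => u s y i) x - ∑ j, pd j (pd j fun y => u' s y i) x := by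
        unfold lap
        rw [← Finset.sum_sub_distrib]
        refine Finset.sum_congr rfl fun j _ => ?_
        have e2 : pd j (w i s) = fun x => pd j (fun y => u s y i) x - pd j (fun y => u' s y i) x :=
          funext (hpdw i j)
        rw [e2]
        unfold pd
        have h4 : HasFDerivAt (fun x => pd j (fun y => u s y i) x - pd j (fun y => u' s y i) x) _ x :=
          (((su i s hsI).pd j).diff x).hasFDerivAt.sub (((su' i s hsI).pd j).diff x).hasFDerivAt
        have h5 := h4.fderiv
        unfold pd at h5
        rw [h5]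
        rfl
      have e3 : pd i (fun y => p s y - p' s y) x = pd i (p s) x - pd i (p' s) x := by
        unfold pd
        have h4 : HasFDerivAt (fun y => p s y - p' s y) _ x :=
          ((sp s hsI).diff x).hasFDerivAt.sub ((sp' s hsI).diff x).hasFDerivAt
        rw [h4.fderiv]
        rfl
      have e4 : ∑ j, w i s x * (w j s x * pd j (fun y => u s y i) x)
          + ∑ j, u' s x j * (w i s x * pd j (w i s) x)
          = w i s x * (∑ j, u s x j * pd j (fun y => u s y i) x
            - ∑ j, u' s x j * pd j (fun y => u' s y i) x) := by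
        rw [← Finset.sum_add_distrib, mul_sub, Finset.mul_sum, Finset.mul_sum, ← Finset.sum_sub_distrib]
        refine Finset.sum_congr rfl fun j _ => ?_
        rw [hpdw]
        simp only [hw]
        ring
      rw [e1, e3]
      simp only [hR, hR']
      linear_combination e4
    -- integrals
    have i1 : ∀ i, Integrable (fun x => w i s x * R i x) (volume.restrict cube) := fun i =>
      integrableOn_cube ((sw i s hsI).cont.mul (hRc i))
    have i1' : ∀ i, Integrable (fun x => w i s x * R' i x) (volume.restrict cube) := fun i =>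
      integrableOn_cube ((sw i s hsI).cont.mul (hRc' i))
    have i2 : ∀ i j, Integrable (fun x => w i s x * (w j s x * pd j (fun y => u s y i) x))
        (volume.restrict cube) := fun i j =>
      ((sw i s hsI).mul ((sw j s hsI).mul ((su i s hsI).pd j))).int
    have i3 : ∀ i j, Integrable (fun x => u' s x j * (w i s x * pd j (w i s) x))
        (volume.restrict cube) := fun i j =>
      ((su' j s hsI).mul ((sw i s hsI).mul ((sw i s hsI).pd j))).int
    have i4 : ∀ i, Integrable (fun x => lap (w i s) x * w i s x) (volume.restrict cube) := fun i =>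
      ((sw i s hsI).lap.mul (sw i s hsI)).int
    have i5 : ∀ i, Integrable (fun x => w i s x * pd i (fun y => p s y - p' s y) x)
        (volume.restrict cube) := fun i => ((sw i s hsI).mul (hq.pd i)).int
    have hint : ∀ i, ∫ x in cube, w i s x * (dt (fun r y => u r y i) s x - dt (fun r y => u' r y i) s x)
        = -(∑ j, ∫ x in cube, w i s x * (w j s x * pd j (fun y => u s y i) x))
          - (∑ j, ∫ x in cube, u' s x j * (w i s x * pd j (w i s) x))
          + ν * (∫ x in cube, lap (w i s) x * w i s x)
          - ∫ x in cube, w i s x * pd i (fun y => p s y - p' s y) x := by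
      intro i
      simp_rw [hid]
      have j2 : Integrable (fun x => ∑ j, w i s x * (w j s x * pd j (fun y => u s y i) x))
          (volume.restrict cube) := integrable_finsetSum _ fun j _ => i2 i j
      have j3 : Integrable (fun x => ∑ j, u' s x j * (w i s x * pd j (w i s) x))
          (volume.restrict cube) := integrable_finsetSum _ fun j _ => i3 i j
      have k1 : Integrable (fun x => w i s x * R i x - w i s x * R' i x) (volume.restrict cube) :=
        (i1 i).sub (i1' i)
      have k2 : Integrable (fun x => w i s x * R i x - w i s x * R' i x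
          - ∑ j, w i s x * (w j s x * pd j (fun y => u s y i) x)) (volume.restrict cube) := k1.sub j2
      have k3 : Integrable (fun x => w i s x * R i x - w i s x * R' i x
          - ∑ j, w i s x * (w j s x * pd j (fun y => u s y i) x)
          - ∑ j, u' s x j * (w i s x * pd j (w i s) x)) (volume.restrict cube) := k2.sub j3
      have k4 : Integrable (fun x => ν * (lap (w i s) x * w i s x)) (volume.restrict cube) :=
        (i4 i).const_mul ν
      have k5 : Integrable (fun x => w i s x * R i x - w i s x * R' i x
          - ∑ j, w i s x * (w j s x * pd j (fun y => u s y i) x)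
          - ∑ j, u' s x j * (w i s x * pd j (w i s) x) + ν * (lap (w i s) x * w i s x))
          (volume.restrict cube) := k3.add k4
      rw [integral_sub k5 (i5 i), integral_add k3 k4, integral_sub k2 j3,
        integral_sub k1 j2, integral_sub (i1 i) (i1' i), hort i, hort' i,
        integral_finsetSum _ fun j _ => i2 i j, integral_finsetSum _ fun j _ => i3 i j,
        integral_const_mul]
      ring
    have hsum : ∑ i, ∫ x in cube, w i s x * (dt (fun r y => u r y i) s x - dt (fun r y => u' r y i) s x)
        ≤ 3 * L * E s := by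
      simp_rw [hint]
      rw [Finset.sum_sub_distrib, Finset.sum_add_distrib, Finset.sum_sub_distrib,
        Finset.sum_neg_distrib, ← Finset.mul_sum]
      have t1 : ∑ i, ∑ j, ∫ x in cube, u' s x j * (w i s x * pd j (w i s) x) = 0 := by
        refine Finset.sum_eq_zero fun i _ => ?_
        exact transport_zero (v := fun i x => u' s x i) (fun i => su' i s hsI)
          (fun x => h'.divFree s hs.1.le x) (sw i s hsI)
      have t2 : ∑ i, ∫ x in cube, w i s x * pd i (fun y => p s y - p' s y) x = 0 :=
        int_press (v := fun i x => w i s x) (fun i => sw i s hsI) hdw hq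
      have t3 : ν * ∑ i, ∫ x in cube, lap (w i s) x * w i s x ≤ 0 := by
        apply mul_nonpos_of_nonneg_of_nonpos hν.le
        refine Finset.sum_nonpos fun i _ => ?_
        rw [int_lap_mul (sw i s hsI) (sw i s hsI), neg_nonpos]
        exact Finset.sum_nonneg fun j _ => integral_nonneg fun x => mul_self_nonneg _
      have t4 : -∑ i, ∑ j, ∫ x in cube, w i s x * (w j s x * pd j (fun y => u s y i) x)
          ≤ 3 * L * E s := by
        rw [← Finset.sum_neg_distrib]
        have h1 : ∀ i j, -∫ x in cube, w i s x * (w j s x * pd j (fun y => u s y i) x)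
            ≤ L / 2 * ((∫ x in cube, w i s x ^ 2) + ∫ x in cube, w j s x ^ 2) := by
          intro i j
          have sq1 : ∀ i, Integrable (fun x => w i s x ^ 2) (volume.restrict cube) := fun i =>
            integrableOn_cube ((sw i s hsI).cont.pow 2)
          rw [← integral_neg, ← integral_add (sq1 i) (sq1 j), ← integral_const_mul]
          refine setIntegral_mono_on (i2 i j).neg (((sq1 i).add (sq1 j)).const_mul _)
            measurableSet_Icc fun x hx => ?_
          have h2 := hL s ⟨hs.1.le, hst⟩ x hx i j
          have h3 : -(w i s x * (w j s x * pd j (fun y => u s y i) x))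
              ≤ |w i s x| * |w j s x| * L := by
            refine (neg_le_abs _).trans ?_
            rw [abs_mul, abs_mul, ← mul_assoc]
            exact mul_le_mul_of_nonneg_left h2 (by positivity)
          refine h3.trans ?_
          have h4 : |w i s x| * |w j s x| ≤ (w i s x ^ 2 + w j s x ^ 2) / 2 := by
            rw [← sq_abs (w i s x), ← sq_abs (w j s x)]
            nlinarith [sq_nonneg (|w i s x| - |w j s x|)]
          nlinarith
        calc ∑ i, -∑ j, ∫ x in cube, w i s x * (w j s x * pd j (fun y => u s y i) x)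
            ≤ ∑ i : Fin 3, ∑ j : Fin 3, L / 2 * ((∫ x in cube, w i s x ^ 2) + ∫ x in cube, w j s x ^ 2) := by
              refine Finset.sum_le_sum fun i _ => ?_
              rw [← Finset.sum_neg_distrib]
              exact Finset.sum_le_sum fun j _ => h1 i j
          _ = 3 * L * E s := by
              simp only [hE, Fin.sum_univ_three]
              ring
      rw [t1, t2]
      linarith
    have e : ∑ i, ∫ x in cube, 2 * (w i s x *
        (dt (fun r y => u r y i) s x - dt (fun r y => u' r y i) s x))
        = 2 * ∑ i, ∫ x in cube, w i s x * (dt (fun r y => u r y i) s x - dt (fun r y => u' r y i) s x) := by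
      rw [Finset.mul_sum]
      exact Finset.sum_congr rfl fun i _ => integral_const_mul _ _
    rw [e]
    linarith
  -- Gronwall
  have hEt : E t = 0 := by
    have hg : AntitoneOn (fun s => E s * Real.exp (-(6 * L) * s)) (Icc 0 t) := by
      have hsub' : Icc 0 t ⊆ Ico 0 T := fun s hs => ⟨hs.1, hs.2.trans_lt htT.2⟩
      have hd : ∀ s ∈ Ioo 0 t, HasDerivAt (fun s => E s * Real.exp (-(6 * L) * s))
          ((∑ i, ∫ x in cube, 2 * (w i s x * (dt (fun r y => u r y i) s x
            - dt (fun r y => u' r y i) s x))) * Real.exp (-(6 * L) * s)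
            + E s * (Real.exp (-(6 * L) * s) * (-(6 * L)))) s := by
        intro s hs
        have h1 : HasDerivAt (fun s : ℝ => -(6 * L) * s) (-(6 * L)) s := by
          simpa using (hasDerivAt_id s).const_mul (-(6 * L))
        exact (hEd s ⟨hs.1, hs.2.trans htT.2⟩).mul h1.exp
      refine antitoneOn_of_deriv_nonpos (convex_Icc 0 t) ?_ ?_ ?_
      · exact (hEc.mono hsub').mul (by fun_prop)
      · rw [interior_Icc]
        exact fun s hs => (hd s hs).differentiableAt.differentiableWithinAt
      · rw [interior_Icc]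
        intro s hs
        rw [(hd s hs).deriv]
        have h1 := hineq s ⟨hs.1, hs.2.trans htT.2⟩ hs.2.le
        have h2 := Real.exp_pos (-(6 * L) * s)
        nlinarith
    have h1 := hg (left_mem_Icc.2 ht) (right_mem_Icc.2 ht) ht
    have hE00 : E 0 = 0 := by
      have : ∀ i x, w i 0 x = 0 := by
        intro i x
        simp only [hw, h.initial, h'.initial, sub_self]
      simp only [hE, this]
      simp
    simp only [hE00, zero_mul] at h1
    have h2 := Real.exp_pos (-(6 * L) * t)
    have h3 : E t ≤ 0 := by
      by_contra h4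
      have := mul_pos (not_le.1 h4) h2
      linarith
    exact le_antisymm h3 (hE0 t)
  -- conclusion
  funext x i
  have h1 : ∫ x in cube, w i t x ^ 2 = 0 := by
    have h2 := (Finset.sum_eq_zero_iff_of_nonneg (fun i _ => integral_nonneg fun x => sq_nonneg _)).1
      hEt i (Finset.mem_univ i)
    exact h2
  have h2 := n2_fr (sw i t htT)
  rw [h1, n2_sq] at h2
  have h3 : ∀ k, fr (w i t) k = 0 := by
    intro k
    have h4 := (hasSum_zero_iff_of_nonneg (fun k => by positivity)).1
      (h2 ▸ (summable_sq (rap_fr (sw i t htT)).summable).hasSum)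
    have h5 := congrFun h4 k
    simpa using h5
  have h4 := S_fr (sw i t htT) x
  have h5 : S (fr (w i t)) x = 0 := by
    unfold S
    simp [h3]
  rw [h5] at h4
  have h6 : w i t x = 0 := by exact_mod_cast h4.symm
  simp only [hw] at h6
  linarith

end Pool.Agent.K1H29.RD
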