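import Pool.Agent.H459R3.NS.Final
import Pool.Agent.K1H29.RD.Uniq

/-!
# The Prodi-Serrin criterion modulo planar sets of frequencies
-/

open MeasureTheory Set Filter Topology
open scoped ContDiff ENNReal

namespace Pool.Agent.K1H29.RD

open H459R3.NS
open Pool.Agent.K1H29.SH (bb mem_bb nn nn_nonneg ee_eq_ex)

/-- The planar inequality for smooth functions. -/
theorem PlanarC.smooth {Λ : Set K3} {C : ℝ} (hP : PlanarC Λ C) {f : V → ℝ} (hf : SP f)
    (hfΛ : ∀ k, k ∉ Λ → fr f k = 0) : ∫ x in cube, |f x| ^ 3 ≤ C * (nrm f ^ 2 * grd f) := by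
  have hr := rap_fr hf
  have hs := hr.summable
  have hsq := summable_sq hs
  set B : ℕ → Finset K3 := fun n => bL Λ n with hB
  set F : ℕ → V → ℂ := fun n x => ∑ k ∈ B n, fr f k * Pool.Agent.H356R3.NS.ex k x with hF
  have hmono : Monotone (fun n : ℕ => bb n) := by
    intro m n hmn k hk
    rw [mem_bb] at *
    exact hk.trans (by exact_mod_cast hmn)
  have hex : ∀ k : K3, ∃ n, k ∈ bb n := fun k => ⟨H459R3.NS.N k, by rw [mem_bb]; exact le_rfl⟩
  have htop := tendsto_atTop_finset_of_monotone hmono hex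
  have hlim : ∀ x, Tendsto (fun n => F n x) atTop (𝓝 (f x : ℂ)) := by
    intro x
    have h1 : HasSum (fun k => fr f k * ee k x) (f x : ℂ) := by
      rw [← S_fr hf x]
      exact (summable_term hs x).hasSum
    have h2 := h1.comp htop
    refine h2.congr fun n => ?_
    simp only [hF, Function.comp]
    rw [← Finset.sum_subset (show B n ⊆ bb n from fun k hk => mem_bb.2 (mem_bL.1 hk).1)]
    · exact Finset.sum_congr rfl fun k _ => by rw [ee_eq_ex]
    · intro k hk hk'
      have : k ∉ Λ := fun h => hk' (mem_bL.2 ⟨mem_bb.1 hk, h⟩)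
      rw [hfΛ k this, zero_mul]
  have hFc : ∀ n, Continuous (F n) := fun n =>
    continuous_finsetSum _ fun k _ => continuous_const.mul (Pool.Agent.H356R3.NS.ex_cont k)
  have hbd : ∀ n x, ‖F n x‖ ≤ ∑' k, ‖fr f k‖ := by
    intro n x
    refine (norm_sum_le _ _).trans ?_
    refine le_trans (Finset.sum_le_sum fun k _ => ?_) (hs.norm.sum_le_tsum (B n) fun _ _ => norm_nonneg _)
    rw [norm_mul, Pool.Agent.H356R3.NS.norm_ex, mul_one]
  have := cube_finite
  have hI : Tendsto (fun n => ∫ x in cube, ‖F n x‖ ^ 3) atTop (𝓝 (∫ x in cube, |f x| ^ 3)) := by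
    refine tendsto_integral_of_dominated_convergence (fun _ => (∑' k, ‖fr f k‖) ^ 3)
      (fun n => ((hFc n).norm.pow 3).aestronglyMeasurable) (integrable_const _)
      (fun n => Eventually.of_forall fun x => ?_) (Eventually.of_forall fun x => ?_)
    · rw [Real.norm_of_nonneg (by positivity)]
      exact pow_le_pow_left₀ (norm_nonneg _) (hbd n x) 3
    · have h1 := ((hlim x).norm).pow 3
      rwa [Complex.norm_real, Real.norm_eq_abs] at h1
  refine le_of_tendsto hI (Eventually.of_forall fun n => ?_)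
  have h1 := hP.2 (B n) (fr f) (fun k hk => (mem_bL.1 hk).2)
  refine h1.trans ?_
  have h2 : ∑ k ∈ B n, ‖fr f k‖ ^ 2 ≤ nrm f ^ 2 := by
    rw [nrm_sq, ← n2_fr hf, n2_sq]
    exact hsq.sum_le_tsum _ fun _ _ => by positivity
  have h3 : √(∑ k ∈ B n, Pool.Agent.H356R3.NS.nk k ^ 2 * ‖fr f k‖ ^ 2) ≤ grd f := by
    rw [grd]
    apply Real.sqrt_le_sqrt
    have e : ∀ j, ∫ x in cube, pd j f x ^ 2 = ∑' k, ‖D j (fr f) k‖ ^ 2 := by
      intro j
      rw [← n2_fr (hf.pd j), fr_pd hf, n2_sq]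
    simp_rw [e]
    rw [← Summable.tsum_finsetSum fun j _ => summable_sq (hr.D j).summable]
    have hs2 : Summable fun k => ∑ j, ‖D j (fr f) k‖ ^ 2 :=
      summable_sum fun j _ => summable_sq (hr.D j).summable
    refine le_trans (Finset.sum_le_sum fun k _ => ?_) (hs2.sum_le_tsum (B n) fun _ _ => by positivity)
    rw [Pool.Agent.H356R3.NS.nk_sq]
    unfold Pool.Agent.H356R3.NS.sq
    rw [Finset.sum_mul]
    refine Finset.sum_le_sum fun j _ => ?_
    rw [D, norm_mul, mul_pow]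
    apply mul_le_mul_of_nonneg_right _ (by positivity)
    rw [norm_mul, norm_mul, norm_mul, Complex.norm_I, mul_one, Complex.norm_real,
      Real.norm_eq_abs, abs_of_pos Real.pi_pos, Complex.norm_ofNat, Complex.norm_intCast, mul_pow,
      ← sq_abs ((k j : ℤ) : ℝ)]
    have hpi := Real.pi_gt_three
    exact le_mul_of_one_le_left (sq_nonneg _) (one_le_pow₀ (by linarith))
  calc C * (∑ k ∈ B n, ‖fr f k‖ ^ 2) * √(∑ k ∈ B n, Pool.Agent.H356R3.NS.nk k ^ 2 * ‖fr f k‖ ^ 2)
      ≤ C * nrm f ^ 2 * grd f := by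
        apply mul_le_mul _ h3 (Real.sqrt_nonneg _) (mul_nonneg hP.1 (by positivity))
        exact mul_le_mul_of_nonneg_left h2 hP.1
    _ = _ := by ring

/-- The cubic form of a field with frequencies in a planar set. -/
theorem PlanarC.cub {Λ : Set K3} {C : ℝ} (hP : PlanarC Λ C) {w : Fin 3 → V → ℝ} {G H : ℝ}
    (hw : GH2 w G H) (hwΛ : ∀ i, ∀ k, k ∉ Λ → fr (w i) k = 0) :
    |H459R3.NS.C3 w w w| ≤ 27 * (C * (G ^ 2 * H)) := by
  refine abs_sum3_le fun i j m => ?_
  have h3 : ∀ i m, ∫ x in cube, |pd m (w i) x| ^ 3 ≤ C * (G ^ 2 * H) := by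
    intro i m
    have hz : ∀ k, k ∉ Λ → fr (pd m (w i)) k = 0 := by
      intro k hk
      rw [fr_pd (hw.sp i), D, hwΛ i k hk, mul_zero]
    refine (hP.smooth ((hw.sp i).pd m) hz).trans ?_
    apply mul_le_mul_of_nonneg_left _ hP.1
    apply mul_le_mul (pow_le_pow_left₀ (nrm_nonneg _) (hw.gh.g i m) 2) _ (grd_nonneg _)
      (by positivity)
    exact (grd_pd_le_lap (hw.sp i) m).trans (nrm_lap_le hw i)
  have hint : ∀ i m, Integrable (fun x => |pd m (w i) x| ^ 3) (volume.restrict cube) := fun i m =>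
    integrableOn_cube (((hw.sp i).pd m).cont.abs.pow 3)
  have h4 : |∫ x in cube, pd m (w i) x * (pd i (w j) x * pd m (w j) x)|
      ≤ ∫ x in cube, (1 / 3 * |pd m (w i) x| ^ 3 + 1 / 3 * |pd i (w j) x| ^ 3)
        + 1 / 3 * |pd m (w j) x| ^ 3 := by
    rw [← Real.norm_eq_abs]
    refine norm_integral_le_of_norm_le ((((hint i m).const_mul _).add ((hint j i).const_mul _)).add
      ((hint j m).const_mul _)) (Eventually.of_forall fun x => ?_)
    rw [Real.norm_eq_abs, abs_mul, abs_mul]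
    have ha := abs_nonneg (pd m (w i) x)
    have hb := abs_nonneg (pd i (w j) x)
    have hc := abs_nonneg (pd m (w j) x)
    generalize |pd m (w i) x| = a at *
    generalize |pd i (w j) x| = b at *
    generalize |pd m (w j) x| = c at *
    show a * (b * c) ≤ 1 / 3 * a ^ 3 + 1 / 3 * b ^ 3 + 1 / 3 * c ^ 3
    nlinarith [mul_nonneg ha (sq_nonneg (b - c)), mul_nonneg hb (sq_nonneg (a - c)),
      mul_nonneg hc (sq_nonneg (a - b)), mul_nonneg (add_nonneg ha hb) (sq_nonneg (a - b)),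
      mul_nonneg (add_nonneg hb hc) (sq_nonneg (b - c)), mul_nonneg (add_nonneg ha hc) (sq_nonneg (a - c))]
  refine h4.trans ?_
  have k1 : Integrable (fun x => 1 / 3 * |pd m (w i) x| ^ 3 + 1 / 3 * |pd i (w j) x| ^ 3)
      (volume.restrict cube) := ((hint i m).const_mul _).add ((hint j i).const_mul _)
  rw [integral_add k1 ((hint j m).const_mul _),
    integral_add ((hint i m).const_mul _) ((hint j i).const_mul _), integral_const_mul,
    integral_const_mul, integral_const_mul]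
  have a1 := h3 i m
  have a2 := h3 j i
  have a3 := h3 j m
  linarith

/-- The enstrophy is integrable. -/
lemma int_enstrophy' {ν T : ℝ} {u : ℝ → V → V} {P : ℝ → V → ℝ} (h : IsSol ν T u P) (hν : 0 < ν)
    (hT : 0 < T) : IntegrableOn (fun t => enstrophy (u t)) (Ioc 0 T) ∧
      ∫ t in Ioc 0 T, enstrophy (u t) ≤ energy (u 0) / (2 * ν) := by
  set b : ℕ → ℝ := fun n => T - T / (n + 1) with hb
  have hbT : ∀ n, b n ∈ Ico 0 T := by
    intro n
    have h1 : (0 : ℝ) < n + 1 := by positivity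
    have h2 : 0 < T / (n + 1) := by positivity
    have h3 : T / (n + 1) ≤ T := div_le_self hT.le (by linarith [Nat.cast_nonneg (α := ℝ) n])
    exact ⟨by simp only [hb]; linarith, by simp only [hb]; linarith⟩
  have hbl : Tendsto b atTop (𝓝 T) := by
    have h1 : Tendsto (fun n : ℕ => T / ((n : ℝ) + 1)) atTop (𝓝 0) := by
      have := (tendsto_one_div_add_atTop_nhds_zero_nat (𝕜 := ℝ)).const_mul T
      simpa [div_eq_mul_inv] using this
    have h2 := h1.const_sub T
    simpa using h2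
  have hint : ∀ n, IntegrableOn (fun t => enstrophy (u t)) (Ioc 0 (b n)) := by
    intro n
    have hc : ContinuousOn (fun s => enstrophy (u s)) (Icc 0 (b n)) :=
      h.enstrophy_continuousOn.mono fun s hs => ⟨hs.1, hs.2.trans_lt (hbT n).2⟩
    exact hc.integrableOn_Icc.mono_set Ioc_subset_Icc_self
  have hle : ∀ n, ∫ x in Ioc 0 (b n), enstrophy (u x) ≤ energy (u 0) / (2 * ν) := by
    intro n
    have h1 := h.int_enstrophy hν (hbT n)
    rwa [intervalIntegral.integral_of_le (hbT n).1] at h1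
  have hI : IntegrableOn (fun t => enstrophy (u t)) (Ioc 0 T) := by
    refine integrableOn_Ioc_of_intervalIntegral_norm_bounded (a := fun _ => 0) (b := b) (l := atTop)
      (I := energy (u 0) / (2 * ν)) hint tendsto_const_nhds hbl (Eventually.of_forall fun n => ?_)
    refine le_trans (le_of_eq ?_) (hle n)
    congr 1
    funext x
    exact Real.norm_of_nonneg (enstrophy_nonneg _)
  refine ⟨hI, ?_⟩
  have h1 : Tendsto (fun n => ∫ x in Ioc 0 (b n), enstrophy (u x)) atTop
      (𝓝 (∫ x in Ioc 0 T, enstrophy (u x))) :=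
    (aecover_Ioc_of_Ioc (a := fun _ : ℕ => (0 : ℝ)) (b := b) tendsto_const_nhds hbl).integral_tendsto_of_countably_generated
      hI |>.congr fun n => by
        rw [Measure.restrict_restrict measurableSet_Ioc, Ioc_inter_Ioc, max_self, min_eq_left (hbT n).2.le]
  exact le_of_tendsto h1 (Eventually.of_forall hle)

/-- **The Prodi-Serrin criterion modulo planar sets of frequencies.** -/
theorem serrin_planar {p : ℝ≥0∞} (hp : 3 < p) {q : ℝ} (hpq : 3 * (p⁻¹).toReal + 2 / q = 1)
    {ν K C : ℝ} (hν : 0 < ν) (hK : 0 ≤ K) :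
    ∃ M : ℝ, 0 ≤ M ∧ ∀ (T : ℝ) (u : ℝ → V → V) (P : ℝ → V → ℝ) (β : ℝ → ℝ), IsSol ν T u P →
      (∀ t ∈ Ioo 0 T, 0 ≤ β t) → IntegrableOn (fun t => β t ^ q) (Ioo 0 T) →
      (∀ t ∈ Ioo 0 T, ∃ (w : V → V) (Λ : Set K3), SPV w ∧ PlanarC Λ C ∧
        (∀ i, ∀ k ∉ Λ, fr (fun x => w x i) k = 0) ∧
        enstrophy w ≤ K ^ 2 * enstrophy (u t) ∧ palin w ≤ K ^ 2 * palin (u t) ∧
        ∀ i, eLpNorm (fun x => u t x i - w x i) p (volume.restrict cube) ≤ ENNReal.ofReal (β t)) →
      (∀ t ∈ Ico 0 T, enstrophy (u t) ≤ enstrophy (u 0) * Real.exp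
        (M * ((∫ s in Ioo 0 T, β s ^ q) + energy (u 0)))) ∧
      ∃ R, ∀ t ∈ Ico 0 T, ∀ x i, |u t x i| ≤ R := by
  obtain ⟨M, hM0, hM⟩ := serrin hp hpq (ν := ν) (K := K) (lam := 0) (κ := 1 / 2) hν hK (by norm_num)
    (by norm_num)
  set Dd : ℝ := (27 * C * K ^ 3) ^ 2 / (2 * ν) with hDd
  have hD0 : 0 ≤ Dd := by positivity
  refine ⟨M * (1 + Dd / (2 * ν)), by positivity, fun T u P β h hβ0 hβi hcomp => ?_⟩
  rcases le_or_gt T 0 with hT | hT
  · rw [Ico_eq_empty (not_lt.2 hT)]
    exact ⟨fun t ht => absurd ht (Set.notMem_empty t), 0, fun t ht => absurd ht (Set.notMem_empty t)⟩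
  obtain ⟨hI, hIle⟩ := int_enstrophy' h hν hT
  rw [integrableOn_Ioc_iff_integrableOn_Ioo] at hI
  rw [integral_Ioc_eq_integral_Ioo] at hIle
  have h1 := hM T 0 u P β (fun t => Dd * enstrophy (u t)) h le_rfl
    (fun t ht => ⟨hβ0 t ht, mul_nonneg hD0 (enstrophy_nonneg _)⟩) hβi (hI.const_mul Dd)
    (fun t ht => by
      obtain ⟨w, Λ, hw, hP, hwΛ, hwG, hwH, hLp⟩ := hcomp t ht
      have hsp0 : SP (fun _ : V => (0 : ℝ)) := ⟨contDiff_const, fun _ _ => rfl⟩
      have hpd0 : ∀ (j : Fin 3) (x : V), pd j (fun _ : V => (0 : ℝ)) x = 0 := fun j x => by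
        unfold pd; simp
      refine ⟨w, fun _ _ => 0, ∅, hw, ⟨contDiff_const, fun _ _ => rfl⟩, dimTwo_empty,
        fun i k _ => ?_, hwG, hwH, ?_, ?_, fun i => ?_⟩
      · unfold fr fc; simp
      · have : enstrophy (fun _ : V => (fun _ => 0 : V)) = 0 := by
          unfold enstrophy
          simp [hpd0]
        rw [this]
        have := enstrophy_nonneg (u t)
        positivity
      · -- the enstrophy production
        set G := Real.sqrt (enstrophy (u t)) with hG
        set H := Real.sqrt (palin (u t)) with hH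
        have hG2 : G ^ 2 = enstrophy (u t) := Real.sq_sqrt (enstrophy_nonneg _)
        have hH2 : H ^ 2 = palin (u t) := Real.sq_sqrt (palin_nonneg _)
        have hG0 : 0 ≤ G := Real.sqrt_nonneg _
        have hH0 : 0 ≤ H := Real.sqrt_nonneg _
        have hGH : GH2 (fun i x => w x i) (K * G) (K * H) :=
          ⟨hw.sp, by positivity, by positivity, by rw [mul_pow, hG2]; exact hwG,
            by rw [mul_pow, hH2]; exact hwH⟩
        have h2 := hP.cub hGH hwΛ
        have h3 : stretch w ≤ 27 * (C * ((K * G) ^ 2 * (K * H))) :=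
          (neg_le_abs _).trans h2
        have h4 : 27 * (C * ((K * G) ^ 2 * (K * H))) ≤ ν / 2 * H ^ 2 + Dd * G ^ 2 * G ^ 2 := by
          have h5 : 0 ≤ (ν * H - 27 * C * K ^ 3 * G ^ 2) ^ 2 / (2 * ν) := by positivity
          have e : (ν * H - 27 * C * K ^ 3 * G ^ 2) ^ 2 / (2 * ν)
              = ν / 2 * H ^ 2 + (27 * C * K ^ 3) ^ 2 / (2 * ν) * G ^ 2 * G ^ 2
                - 27 * (C * ((K * G) ^ 2 * (K * H))) := by
            field_simp
            ring
          rw [e, ← hDd] at h5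
          linarith
        rw [hG2, hH2] at h4
        have e : (0 : ℝ) * stretch (u t) + 1 / 2 * (ν * palin (u t)) + Dd * enstrophy (u t) * enstrophy (u t)
            = ν / 2 * palin (u t) + Dd * enstrophy (u t) * enstrophy (u t) := by ring
        rw [e]
        linarith
      · refine le_trans (le_of_eq ?_) (hLp i)
        congr 1
        funext x
        ring)
  refine ⟨fun t ht => (h1.1 t ht).trans ?_, h1.2⟩
  apply mul_le_mul_of_nonneg_left _ (enstrophy_nonneg _)
  apply Real.exp_le_exp.2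
  rw [integral_const_mul]
  have hβq0 : 0 ≤ ∫ s in Ioo 0 T, β s ^ q :=
    setIntegral_nonneg measurableSet_Ioo fun s hs => Real.rpow_nonneg (hβ0 s hs) q
  have hE0 := energy_nonneg (u 0)
  have h2 : Dd * ∫ s in Ioo 0 T, enstrophy (u s) ≤ Dd * (energy (u 0) / (2 * ν)) :=
    mul_le_mul_of_nonneg_left hIle hD0
  have h3 : 0 ≤ Dd / (2 * ν) * ∫ s in Ioo 0 T, β s ^ q := by positivity
  calc M * ((∫ s in Ioo 0 T, β s ^ q) + Dd * (∫ s in Ioo 0 T, enstrophy (u s)) + 0 * energy (u 0))
      ≤ M * ((1 + Dd / (2 * ν)) * ((∫ s in Ioo 0 T, β s ^ q) + energy (u 0))) := by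
        apply mul_le_mul_of_nonneg_left _ hM0
        have e : Dd * (energy (u 0) / (2 * ν)) = Dd / (2 * ν) * energy (u 0) := by ring
        rw [e] at h2
        nlinarith
    _ = _ := by ring

end Pool.Agent.K1H29.RD
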