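import Pool.Agent.K1H29.RD.Rand

/-!
# Sharpness of the dimension `8/3`
-/

open MeasureTheory ProbabilityTheory Set

namespace Pool.Agent.K1H29.RD

open Pool.Agent.H356R3.NS (K E3 Q3 ex ex_cont norm_ex nk nk_sq nk_pos nk_nonneg)
open Pool.Agent.K1H29.SH (nn nn_nonneg nn_le_nk bb mem_bb abs_le_nn nk_le_two_nn nn_eq_zero)

lemma ex_near {n : ℕ} {k : K} (hk : k ∈ bb (2 ^ n)) {x : E3}
    (hx : x ∈ Icc (0 : E3) (fun _ => 1 / (40 * 2 ^ n))) : ‖ex k x - 1‖ ≤ 1 / 2 := by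
  have h1 : ex k x = Complex.exp (Complex.I * ((2 * Real.pi * ∑ j, (k j : ℝ) * x j : ℝ) : ℂ)) := by
    unfold ex; congr 1; push_cast; ring
  rw [h1]
  refine (Real.norm_exp_I_mul_ofReal_sub_one_le).trans ?_
  rw [Real.norm_eq_abs, abs_mul, abs_of_pos (by positivity : 0 < 2 * Real.pi)]
  have h2 : |∑ j, (k j : ℝ) * x j| ≤ 3 / 40 := by
    have h3 : ∀ j ∈ (Finset.univ : Finset (Fin 3)), |(k j : ℝ) * x j| ≤ 1 / 40 := by
      intro j _
      rw [abs_mul]
      have h4 : |(k j : ℝ)| ≤ 2 ^ n := by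
        have := mem_bb.1 hk
        refine (abs_le_nn k j).trans ?_
        exact_mod_cast this
      have h5 : |x j| ≤ 1 / (40 * 2 ^ n) := by
        rw [abs_of_nonneg (hx.1 j)]; exact hx.2 j
      calc |(k j : ℝ)| * |x j| ≤ 2 ^ n * (1 / (40 * 2 ^ n)) :=
            mul_le_mul h4 h5 (abs_nonneg _) (by positivity)
        _ = 1 / 40 := by field_simp
    refine (Finset.abs_sum_le_sum_abs _ _).trans ((Finset.sum_le_sum h3).trans ?_)
    rw [Finset.sum_const, Finset.card_univ, Fintype.card_fin, nsmul_eq_mul]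
    norm_num
  have hpi := Real.pi_lt_d2
  have hpi0 := Real.pi_pos
  nlinarith [abs_nonneg (∑ j, (k j : ℝ) * x j)]

/-- In a planar set there are at most about `R^(8/3)` frequencies of size `R`. -/
theorem planar_count {Λ : Set K} (h : Planar Λ) : ∃ C : ℝ, 0 ≤ C ∧ ∀ (n : ℕ) (B : Finset K),
    (∀ k ∈ B, k ∈ Λ ∧ k ∈ bb (2 ^ n)) → (B.card : ℝ) ^ 3 ≤ C * 256 ^ n := by
  obtain ⟨C, hC0, hC⟩ := h.c
  refine ⟨256 * 40 ^ 6 * C ^ 2, by positivity, fun n B hB => ?_⟩
  set N : ℝ := (B.card : ℝ) with hN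
  have hN0 : 0 ≤ N := Nat.cast_nonneg _
  rcases eq_or_lt_of_le hN0 with h0 | hNp
  · rw [← h0, zero_pow (by norm_num)]; positivity
  set δ : ℝ := 1 / (40 * 2 ^ n) with hδ
  have hδ0 : 0 < δ := by positivity
  have hδ1 : δ ≤ 1 := by
    rw [hδ, div_le_one (by positivity)]
    have : (1 : ℝ) ≤ 2 ^ n := one_le_pow₀ (by norm_num)
    linarith
  have h1 := hC B (fun _ => 1) (fun k hk => (hB k hk).1)
  simp only [one_mul, norm_one, one_pow, mul_one, Finset.sum_const, nsmul_eq_mul] at h1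
  rw [← hN] at h1
  -- the right-hand side
  have h2 : √(∑ k ∈ B, nk k ^ 2) ≤ √N * (2 * 2 ^ n) := by
    have h3 : ∑ k ∈ B, nk k ^ 2 ≤ N * (2 * 2 ^ n) ^ 2 := by
      calc ∑ k ∈ B, nk k ^ 2 ≤ ∑ _k ∈ B, (2 * 2 ^ n : ℝ) ^ 2 := by
            refine Finset.sum_le_sum fun k hk => pow_le_pow_left₀ (nk_nonneg k) ?_ 2
            have h4 := mem_bb.1 (hB k hk).2
            have h5 : nn k ≤ 2 ^ n := by exact_mod_cast h4
            have := nk_le_two_nn k
            linarith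
        _ = _ := by rw [Finset.sum_const, nsmul_eq_mul]
    calc √(∑ k ∈ B, nk k ^ 2) ≤ √(N * (2 * 2 ^ n) ^ 2) := Real.sqrt_le_sqrt h3
      _ = _ := by rw [Real.sqrt_mul hN0, Real.sqrt_sq (by positivity)]
  -- the left-hand side
  have h3 : (N / 2) ^ 3 * δ ^ 3 ≤ ∫ x in Q3, ‖∑ k ∈ B, ex k x‖ ^ 3 := by
    set F : E3 → ℝ := fun x => ‖∑ k ∈ B, ex k x‖ ^ 3 with hF
    have hFc : Continuous F := (continuous_finsetSum _ fun k _ => ex_cont k).norm.pow 3
    have hFi : IntegrableOn F Q3 := hFc.continuousOn.integrableOn_compact isCompact_Icc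
    set Y : Set E3 := Icc (0 : E3) (fun _ => δ) with hY
    have hYQ : Y ⊆ Q3 := Icc_subset_Icc le_rfl fun i => hδ1
    have hvol : (volume : Measure E3) Y = ENNReal.ofReal (δ ^ 3) := by
      rw [hY, Real.volume_Icc_pi]
      simp only [Pi.zero_apply, sub_zero, Finset.prod_const, Finset.card_univ, Fintype.card_fin]
      rw [← ENNReal.ofReal_pow hδ0.le]
    have h4 : ∀ x ∈ Y, (N / 2) ^ 3 ≤ F x := by
      intro x hx
      apply pow_le_pow_left₀ (by positivity)
      have h5 : ‖∑ k ∈ B, ex k x - ∑ _k ∈ B, (1 : ℂ)‖ ≤ N / 2 := by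
        rw [← Finset.sum_sub_distrib]
        refine (norm_sum_le _ _).trans ((Finset.sum_le_sum fun k hk => ex_near (hB k hk).2 hx).trans ?_)
        rw [Finset.sum_const, nsmul_eq_mul, ← hN]
        linarith
      have h6 : ‖∑ _k ∈ B, (1 : ℂ)‖ = N := by
        rw [Finset.sum_const, nsmul_eq_mul, mul_one, Complex.norm_natCast]
      have h7 := norm_sub_norm_le (∑ _k ∈ B, (1 : ℂ)) (∑ k ∈ B, ex k x)
      rw [norm_sub_rev, h6] at h7
      linarith
    have h8 : (N / 2) ^ 3 * δ ^ 3 = ∫ _x in Y, (N / 2) ^ 3 := by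
      rw [setIntegral_const, smul_eq_mul, measureReal_def, hvol, ENNReal.toReal_ofReal (by positivity)]
      ring
    rw [h8]
    have hYf : (volume : Measure E3) Y ≠ ⊤ := by rw [hvol]; exact ENNReal.ofReal_ne_top
    calc ∫ _x in Y, (N / 2) ^ 3 ≤ ∫ x in Y, F x :=
          setIntegral_mono_on (integrableOn_const hYf) (hFi.mono_set hYQ) measurableSet_Icc h4
      _ ≤ ∫ x in Q3, F x := setIntegral_mono_set hFi
          (Filter.Eventually.of_forall fun x => by positivity) hYQ.eventuallyLE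
  have h4 : (N / 2) ^ 3 * δ ^ 3 ≤ C * N * (√N * (2 * 2 ^ n)) :=
    (h3.trans h1).trans (mul_le_mul_of_nonneg_left h2 (by positivity))
  have h5 : ((N / 2) ^ 3 * δ ^ 3) ^ 2 ≤ (C * N * (√N * (2 * 2 ^ n))) ^ 2 :=
    pow_le_pow_left₀ (by positivity) h4 2
  have e1 : (C * N * (√N * (2 * 2 ^ n))) ^ 2 = N ^ 3 * (4 * C ^ 2 * 4 ^ n) := by
    have h4n : ((2 : ℝ) ^ n) ^ 2 = 4 ^ n := by rw [← pow_mul, mul_comm, pow_mul]; norm_num
    rw [mul_pow, mul_pow, mul_pow, mul_pow, Real.sq_sqrt hN0, h4n]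
    ring
  have e2 : ((N / 2) ^ 3 * δ ^ 3) ^ 2 = N ^ 3 * (N ^ 3 / (64 * 40 ^ 6 * 64 ^ n)) := by
    have h64 : ((2 : ℝ) ^ n) ^ 6 = 64 ^ n := by rw [← pow_mul, mul_comm, pow_mul]; norm_num
    rw [hδ, ← h64]
    field_simp
    norm_num
  rw [e1, e2] at h5
  have h6 := le_of_mul_le_mul_left h5 (by positivity)
  rw [div_le_iff₀ (by positivity)] at h6
  refine h6.trans (le_of_eq ?_)
  have : (256 : ℝ) ^ n = 4 ^ n * 64 ^ n := by rw [← mul_pow]; norm_num
  rw [this]
  ring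

theorem not_planar {S : Set K} {p : K → ℝ} {Kc : ℝ} (hp0 : ∀ k, 0 ≤ p k)
    (hD : ∀ (n : ℕ) (x : E3), ‖∑ k ∈ bb (2 ^ n), ((S.indicator 1 k - p k : ℝ) : ℂ) * ex k x‖ ≤ Kc * 4 ^ n)
    {c b : ℝ} (hc : 0 < c) (hb0 : 0 ≤ b) (hb : b < 1 / 3) (hp : ∀ k, k ≠ 0 → c * nk k ^ (-b) ≤ p k) :
    ¬ Planar {k | k ≠ 0 ∧ (k ∈ S ∨ -k ∈ S)} := by
  classical
  intro h
  obtain ⟨C, hC0, hC⟩ := planar_count h
  set s : ℝ := 2 ^ (8 / 3 : ℝ) with hs
  set r : ℝ := 2 ^ (3 - b) with hr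
  have hs0 : 0 < s := by positivity
  have hr0 : 0 < r := by positivity
  have hs3 : s ^ 3 = 256 := by
    rw [hs, ← Real.rpow_natCast, ← Real.rpow_mul (by norm_num)]
    norm_num
  have hs4 : 4 ≤ s := by
    have : (4 : ℝ) = 2 ^ (2 : ℝ) := by norm_num
    rw [this, hs]
    exact Real.rpow_le_rpow_of_exponent_le (by norm_num) (by norm_num)
  have hrs : 1 < r / s := by
    rw [one_lt_div hs0, hs, hr]
    exact Real.rpow_lt_rpow_of_exponent_lt (by norm_num) (by linarith)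
  have hK : 0 ≤ Kc := by
    have := (norm_nonneg _).trans (hD 0 0)
    simpa using this
  set a : ℝ := c * 2 ^ (-b) with ha
  have ha0 : 0 < a := by positivity
  have hkey : ∀ n : ℕ, a * r ^ n ≤ (C + 1 + Kc + 1) * s ^ n := by
    intro n
    set B : Finset K := (bb (2 ^ n)).filter fun k => k ≠ 0 ∧ k ∈ S with hB
    set N : ℝ := (B.card : ℝ) with hN
    have hN0 : 0 ≤ N := Nat.cast_nonneg _
    -- upper bound
    have h1 : N ≤ (C + 1) * s ^ n := by
      have h2 := hC n B (fun k hk => by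
        have h3 := Finset.mem_filter.1 hk
        exact ⟨⟨h3.2.1, Or.inl h3.2.2⟩, h3.1⟩)
      refine le_of_pow_le_pow_left₀ (n := 3) (by norm_num) (by positivity) (h2.trans ?_)
      rw [mul_pow, ← pow_mul, mul_comm n 3, pow_mul, hs3]
      apply mul_le_mul_of_nonneg_right _ (by positivity)
      nlinarith [mul_nonneg hC0 hC0, mul_nonneg (mul_nonneg hC0 hC0) hC0]
    -- lower bound
    have h2 := hD n 0
    have h3 : ∀ k, ex k (0 : E3) = 1 := fun k => by unfold ex; simp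
    simp only [h3, mul_one] at h2
    rw [← Complex.ofReal_sum, Complex.norm_real, Real.norm_eq_abs] at h2
    have h4 := (abs_le.1 h2).1
    rw [Finset.sum_sub_distrib] at h4
    have h5 : ∑ k ∈ bb (2 ^ n), S.indicator (1 : K → ℝ) k ≤ N + 1 := by
      have h0 : (0 : K) ∈ bb (2 ^ n) := by rw [mem_bb, nn_eq_zero.2 rfl]; positivity
      rw [← Finset.sum_erase_add _ _ h0]
      apply add_le_add
      · have h6 : ∑ k ∈ (bb (2 ^ n)).erase 0, S.indicator (1 : K → ℝ) k = N := by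
          rw [hN, Finset.card_eq_sum_ones, Nat.cast_sum, hB, Finset.sum_filter]
          have h7 : bb (2 ^ n) = insert 0 ((bb (2 ^ n)).erase 0) := (Finset.insert_erase h0).symm
          rw [h7, Finset.sum_insert (Finset.notMem_erase _ _), if_neg (fun h => h.1 rfl), zero_add,
            Finset.erase_insert (Finset.notMem_erase _ _)]
          refine Finset.sum_congr rfl fun k hk => ?_
          by_cases hkS : k ∈ S
          · rw [if_pos ⟨Finset.ne_of_mem_erase hk, hkS⟩, indicator_of_mem hkS]; simp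
          · rw [if_neg (fun h => hkS h.2), indicator_of_notMem hkS]
        exact h6.le
      · by_cases hkS : (0 : K) ∈ S
        · rw [indicator_of_mem hkS]; simp
        · rw [indicator_of_notMem hkS]; norm_num
    have h6 : a * r ^ n ≤ ∑ k ∈ bb (2 ^ n), p k := by
      have h0 : (0 : K) ∈ bb (2 ^ n) := by rw [mem_bb, nn_eq_zero.2 rfl]; positivity
      have h7 : ∑ k ∈ (bb (2 ^ n)).erase 0, c * (2 * 2 ^ n : ℝ) ^ (-b) ≤ ∑ k ∈ (bb (2 ^ n)).erase 0, p k := by
        refine Finset.sum_le_sum fun k hk => ?_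
        have hk0 := Finset.ne_of_mem_erase hk
        refine le_trans ?_ (hp k hk0)
        apply mul_le_mul_of_nonneg_left _ hc.le
        apply Real.rpow_le_rpow_of_nonpos (nk_pos hk0) _ (by linarith)
        have h4 := mem_bb.1 (Finset.mem_of_mem_erase hk)
        have h5 : nn k ≤ 2 ^ n := by exact_mod_cast h4
        have := nk_le_two_nn k
        linarith
      have h8 : (8 : ℝ) ^ n ≤ ((bb (2 ^ n)).erase 0).card := by
        rw [Finset.card_erase_of_mem h0]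
        have h9 : 1 ≤ (bb (2 ^ n)).card := Finset.card_pos.2 ⟨0, h0⟩
        rw [Nat.cast_sub h9, card_bb]
        push_cast
        have h10 : (1 : ℝ) ≤ 2 ^ n := one_le_pow₀ (by norm_num)
        have h11 : (8 : ℝ) ^ n = (2 ^ n) ^ 3 := by rw [← pow_mul, mul_comm, pow_mul]; norm_num
        rw [h11]
        nlinarith [pow_pos (by linarith : (0 : ℝ) < 2 ^ n) 3, pow_pos (by linarith : (0 : ℝ) < 2 ^ n) 2]
      have h9 : a * r ^ n = 8 ^ n * (c * (2 * 2 ^ n : ℝ) ^ (-b)) := by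
        rw [Real.mul_rpow (by norm_num) (by positivity), ha, hr]
        have e1 : ((2 : ℝ) ^ (3 - b)) ^ n = 8 ^ n * ((2 : ℝ) ^ n) ^ (-b) := by
          rw [← Real.rpow_natCast ((2 : ℝ) ^ (3 - b)), ← Real.rpow_mul (by norm_num),
            ← Real.rpow_natCast (2 : ℝ) n, ← Real.rpow_mul (by norm_num)]
          have e2 : (8 : ℝ) ^ n = 2 ^ (3 * (n : ℝ)) := by
            rw [Real.rpow_mul (by norm_num), Real.rpow_natCast]; norm_num
          rw [e2, ← Real.rpow_add (by norm_num)]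
          congr 1
          ring
        rw [e1]
        ring
      rw [h9, ← Finset.sum_erase_add _ _ h0]
      rw [Finset.sum_const, nsmul_eq_mul] at h7
      have h10 : (8 : ℝ) ^ n * (c * (2 * 2 ^ n : ℝ) ^ (-b)) ≤
          ((bb (2 ^ n)).erase 0).card * (c * (2 * 2 ^ n : ℝ) ^ (-b)) :=
        mul_le_mul_of_nonneg_right h8 (by positivity)
      have := hp0 0
      linarith
    have h7 : (4 : ℝ) ^ n ≤ s ^ n := pow_le_pow_left₀ (by norm_num) hs4 n
    have h8 : (1 : ℝ) ≤ s ^ n := one_le_pow₀ (by linarith)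
    have h9 : Kc * 4 ^ n ≤ Kc * s ^ n := mul_le_mul_of_nonneg_left h7 hK
    linarith
  obtain ⟨n, hn⟩ := pow_unbounded_of_one_lt ((C + 1 + Kc + 1) / a) hrs
  have h1 := hkey n
  rw [div_pow, lt_div_iff₀ (by positivity), div_mul_eq_mul_div, div_lt_iff₀ ha0] at hn
  linarith

theorem random_not_planar {Ω : Type*} [MeasurableSpace Ω] (P : Measure Ω) [IsProbabilityMeasure P]
    (A : (Fin 3 → ℤ) → Set Ω) (hm : ∀ k, MeasurableSet (A k)) (hi : iIndepSet A P) {c b : ℝ}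
    (hc : 0 < c) (hb : b < 1 / 3)
    (hC : ∀ k, k ≠ 0 → c * (√(∑ i, (k i : ℝ) ^ 2)) ^ (-b) ≤ P.real (A k)) :
    ∀ᵐ w ∂P, ¬ Planar (kept A w) := by
  filter_upwards [sup_bound P A hm hi] with w hw
  obtain ⟨Kc, hK⟩ := hw
  refine not_planar (S := {k | w ∈ A k}) (p := fun k => P.real (A k)) (Kc := Kc)
    (fun k => measureReal_nonneg) (fun n x => ?_) hc (le_max_right b 0) (max_lt hb (by norm_num))
    (fun k hk => ?_)
  · refine le_trans (le_of_eq ?_) (hK n x)
    congr 1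
  · refine le_trans ?_ (hC k hk)
    apply mul_le_mul_of_nonneg_left _ hc.le
    apply Real.rpow_le_rpow_of_exponent_le
    · have h1 := SH.one_le_nn hk
      exact h1.trans (nn_le_nk k)
    · have := le_max_left b 0
      linarith

end Pool.Agent.K1H29.RD
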